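import Pool.Agent.Helper92.RECT.Slab
import Pool.Agent.Helper28.Sus.Sav

/-!
# The check of a period: paths of slabs

A vertex codes the left end of a slab (plus `2 ^ π`), the number of steps of the period from cells on
the left of it, and the list of records of this hyperplane. `F s' o` is the result of the simulation of
the slab `s'` with the shift `o`; it is `1` if the final check is successful.
-/

namespace Pool.Agent.Helper92.RECT

open Pool.Agent.Helper65.LinSpace Pool.Agent.Helper78.Mpc Pool.Agent.Helper28.Ram Finset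
open Pool.Agent.Helper28.OHS (cn)
open Pool.Agent.Helper28.Sus (rc)

namespace Sp

variable (s : Sp) (tw N k d : ℕ) (F : Sp → ℕ → ℕ)

/-- The left end of the vertex `v`. -/
def vP (v : ℕ) : ℕ := v % 2 ^ (s.π + 1)

/-- The number of steps of the vertex `v`. -/
def vT (v : ℕ) : ℕ := v / 2 ^ (s.π + 1) % 2 ^ tw

/-- The list of the vertex `v`. -/
def vL (v : ℕ) : ℕ := v / 2 ^ (s.π + 1) / 2 ^ tw

/-- The slab between two vertices. -/
def sE (v v' : ℕ) : Sp :=
  { s with
    Ph := s.vP v
    W := s.vP v' - s.vP v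
    n := s.vT tw v' - s.vT tw v
    L := s.vL tw v
    R := s.vL tw v' }

/-- Not `0` if the slab between two vertices is correct. -/
def edge (v v' : ℕ) : ℕ :=
  lt01 (s.vP v) (s.vP v') * (le01 (s.vP v' - s.vP v) (2 ^ (s.m.κ - 2)) *
    (le01 (s.vT tw v) (s.vT tw v') * (lt01 (s.vT tw v' - s.vT tw v) (2 ^ s.te) *
      lt01 0 (∑ o ∈ range d, eq01 (F (s.sE tw v v') o) 1))))

/-- The edges, with loops. -/
def edgL (v v' : ℕ) : ℕ := ifz (eq01 v v') (s.edge tw d F v v') 1

/-- The number of vertices. -/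
def ZZ : ℕ := 2 ^ (s.π + 1) * (2 ^ tw * 2 ^ (s.m.sg * N))

/-- `1` if the global first coordinate `g` is between the ends `a` and `b`. -/
def btw (a b g : ℕ) : ℕ :=
  le01 (a + 2 ^ (s.G.κ - 1)) (g + 2 ^ s.π) * lt01 (g + 2 ^ s.π) (b + 2 ^ (s.G.κ - 1))

/-- `1` if the other coordinates of the global cell `p` are in the local box. -/
def oth (p : ℕ) : ℕ := eq01 (∑ j ∈ range s.m.D, (1 - ifz j 1
  (le01 (2 ^ (s.G.κ - 1)) (dig (2 ^ s.G.κ) p j + 2 ^ (s.m.κ - 1)) *
    lt01 (dig (2 ^ s.G.κ) p j + 2 ^ (s.m.κ - 1) - 2 ^ (s.G.κ - 1)) (2 ^ s.m.κ)))) 0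

/-- Not `0` if the cell `al` is between the ends `a` and `b`, or if its content is the same in the
configurations `c` and `f`. -/
def ouc (a b : ℕ) : ℕ :=
  ifz (s.btw a b (dig (2 ^ s.G.κ) s.al 0) * s.oth s.al)
    (eq01 (cn s.G s.e s.c (s.nm s.al)) (cn s.G s.e s.f (s.nm s.al))) 1

/-- Not `0` if there is a path of slabs which enclose the head and in which `τ` steps are made. -/
def pth (τ : ℕ) : ℕ :=
  ∑ a ∈ range (2 ^ (s.π + 1)), ∑ b ∈ range (2 ^ (s.π + 1)),
    s.btw a b (dig (2 ^ s.G.κ) s.hp 0) * (ifz s.f 1 (s.ouc a b) *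
      rc (s.edgL tw d F) (s.ZZ tw N) k a (b + 2 ^ (s.π + 1) * (τ % 2 ^ tw)))

/-- The configurations at the start and at the end, and the cell. -/
def cfa (c f al : ℕ) : Sp := { s with c := c, f := f, al := al }

/-- `1` if all checks are successful for the period of `τ` steps from the configuration `c` to the
configuration `f`. -/
def chk (c τ f : ℕ) : ℕ :=
  lt01 0 τ * (lt01 0 f * eq01 (∑ al ∈ range (2 ^ (s.G.κ * s.m.D)),
    (1 - lt01 0 ((s.cfa c f al).pth tw N k d F τ))) 0)

/-- `1` if the computation is accepting after `τ` steps. -/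
def ac1 (c τ : ℕ) : ℕ := lt01 0 ((s.cfa c 0 0).pth tw N k d F τ)

end Sp

end Pool.Agent.Helper92.RECT
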