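import Pool.Agent.Helper92.RECT.Defs

/-!
# Machines with one tape and their time in windows of the tape, between descriptions of the tape
-/

namespace Pool.Agent.Helper92.RECT

open Pool.Agent.Helper65.LinSpace Pool.Agent.Helper78.Mpc Pool.Agent.Helper28.Ram
open Pool.Agent.Helper65.OH
open Pool.Agent.Helper28.OHS (Box Short)
open Pool.Agent.Helper81.Sus2 (Decomp)

/-- The machine with one tape accepts at a time `r ≤ (n + 2) ^ K`, with states, addresses and contents of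
at most `K l` bits, `l = ⌊log₂ n⌋ + 1`, and with the head in the cells from `-2 ^ g` to `2 ^ g - 1`, `g ≤ K l`. In
every period in which the tape has no description of at most `c n` bits, at most `X` steps are made
from cells of any window of `B` consecutive cells, where `X ≤ C n ^ (5 / 2) / l ^ 6` and `X / B ≤ C n / l ^ 3`
(up to `n + 1` for `n`); the states of the decompressor have at most `a ≤ C n / l ^ 2` bits. -/
def Win (A : OneHead 1) (E : Decomp) (c K : ℕ) (C : ℝ) (w y : List Bool) : Prop :=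
  ∃ r g a B X : ℕ, A.AcceptsAt w y r ∧ r ≤ (w.length + 2) ^ K ∧
    A.Fits w y r (K * (Nat.log 2 w.length + 1)) ∧ g ≤ K * (Nat.log 2 w.length + 1) ∧
    (∀ t ≤ r, Box g (A.conf w y t).h) ∧ 0 < B ∧ B ≤ (w.length + 2) ^ K ∧
    (∀ t t' : ℕ, t ≤ t' → t' ≤ r →
      (∀ u, t < u → u < t' → ¬Short A E w y g a (c * w.length) u) → ∀ z : ℤ,
      {u : ℕ | t ≤ u ∧ u < t' ∧ z ≤ fst (A.conf w y u).h ∧
        fst (A.conf w y u).h < z + B}.ncard ≤ X) ∧
    (X : ℝ) * ((Nat.log 2 w.length : ℝ) + 1) ^ 6 ≤ C * ((w.length : ℝ) + 1) ^ ((5 : ℝ) / 2) ∧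
    (X : ℝ) * ((Nat.log 2 w.length : ℝ) + 1) ^ 3 ≤ C * ((w.length : ℝ) + 1) * B ∧
    (a : ℝ) * ((Nat.log 2 w.length : ℝ) + 1) ^ 2 ≤ C * ((w.length : ℝ) + 1)

/-- WND2. As WND (`Goals6.lean`), with the steps of the period from `t` to `t'` only, `g` and `a` from the
hypothesis (`g ≤ K l`, `a (10 K l) ^ 2 ≤ 100 K ^ 2 C (n + 1)`), and `J = 2 ^ (2 K l) + 1` as before (`|h| ≤ r`, or
`|h| ≤ 2 ^ g`). -/
def WND2_stmt : Prop := ∀ (A : OneHead 1) (E : Decomp) (c K : ℕ) (C : ℝ), ∃ C' : ℝ,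
    ∀ w y : List Bool, Win A E c K C w y → Within A E c C' w y

end Pool.Agent.Helper92.RECT
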