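import Pool.Agent.Helper92.RECT.Fin
import Pool.Agent.Helper92.RECT.Goals7
import Pool.Agent.Helper31.TMS.Lin

/-!
# Corollaries for one-tape machines
-/

namespace Pool.Agent.Helper92.RECT

open Pool.Agent.Helper65.LinSpace Pool.Agent.Helper78.Mpc Pool.Agent.Helper28.Ram
open Pool.Agent.Helper65.OH
open Pool.Agent.Helper81.Sus2 (Decomp)
open Pool.Agent.Helper81.Gen4 (Q Q_mono Q_const)

/-- The form of the lower bound. -/
def Hard (L : Set (List Bool)) (c : ℕ) : Prop :=
  ∀ (D : ℕ), 0 < D → ∀ (A : OneHead D) (E : Decomp) (C : ℝ), ∃ c' : ℝ,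
    ∀ (n : ℕ) (α : List Bool), ∀ M, M = L ∨ M = Lᶜ →
    ({w : List Bool | w.length = n ∧
      (Q (c * n) (fun v => ∃ r, A.AcceptsAt w (α ++ v) r) → w ∈ M) ∧
      (w ∈ M → Q (c * n) fun v => Within A E c C w (α ++ v))}.ncard : ℝ) ≤
      2 ^ n / 2 + c' * ((α.length : ℝ) + 1) * 2 ^ (((n : ℝ) + α.length / c) / 2)

theorem finite_len (n : ℕ) : {w : List Bool | w.length = n}.Finite := List.finite_length_eq Bool n

/-- The words of length `n` on which the machine is good are few: abstract form. -/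
theorem few {L : Set (List Bool)} {c : ℕ} {A : OneHead 1} {W : List Bool → List Bool → Prop}
    (hA : ∀ w y, (∃ r, A.AcceptsAt w y r) ↔ w ∈ L)
    (h1 : ∃ c' : ℝ, ∀ n : ℕ, ({w : List Bool | w.length = n ∧
      (Q (c * n) (fun v => ∃ r, A.AcceptsAt w v r) → w ∈ L) ∧
      (w ∈ L → Q (c * n) fun v => W w v)}.ncard : ℝ) ≤ 2 ^ n / 2 + c' * 2 ^ ((n : ℝ) / 2))
    (h2 : ∃ c' : ℝ, ∀ n : ℕ, ({w : List Bool | w.length = n ∧ w ∈ L}.ncard : ℝ) ≤
      2 ^ n / 2 + c' * 2 ^ ((n : ℝ) / 2)) :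
    ∃ c' : ℝ, ∀ n : ℕ, ({w : List Bool | w.length = n ∧ w ∈ L ∧
      ∀ y, y.length = 3 * (c * n) → W w y}.ncard : ℝ) ≤ c' * 2 ^ ((n : ℝ) / 2) := by
  obtain ⟨c₁, h1⟩ := h1
  obtain ⟨c₂, h2⟩ := h2
  refine ⟨c₁ + c₂, fun n => ?_⟩
  have hfin := finite_len n
  have hcard : {w : List Bool | w.length = n}.ncard = 2 ^ n :=
    Pool.Agent.Helper81.Gen4.ncard_len n
  set S := {w : List Bool | w.length = n ∧ w ∈ L ∧ ∀ y, y.length = 3 * (c * n) → W w y} with hS
  set T := {w : List Bool | w.length = n ∧ w ∉ L} with hT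
  have hSf : S.Finite := hfin.subset fun w hw => hw.1
  have hTf : T.Finite := hfin.subset fun w hw => hw.1
  have hdis : Disjoint S T := by
    rw [Set.disjoint_left]
    rintro w ⟨_, h, _⟩ ⟨_, h'⟩
    exact h' h
  have e1 : S.ncard + T.ncard = (S ∪ T).ncard := (Set.ncard_union_eq hdis hSf hTf).symm
  have e2 : T.ncard + {w : List Bool | w.length = n ∧ w ∈ L}.ncard = 2 ^ n := by
    rw [← hcard, ← Set.ncard_union_eq ?_ hTf (hfin.subset fun w hw => hw.1)]
    · congr 1
      ext w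
      constructor
      · rintro (h | h)
        · exact h.1
        · exact h.1
      · intro h
        by_cases hw : w ∈ L
        · exact Or.inr ⟨h, hw⟩
        · exact Or.inl ⟨h, hw⟩
    · rw [Set.disjoint_left]
      rintro w ⟨_, h⟩ ⟨_, h'⟩
      exact h h'
  have e3 : (S ∪ T).ncard ≤ {w : List Bool | w.length = n ∧
      (Q (c * n) (fun v => ∃ r, A.AcceptsAt w v r) → w ∈ L) ∧
      (w ∈ L → Q (c * n) fun v => W w v)}.ncard := by
    refine Set.ncard_le_ncard ?_ (hfin.subset fun w hw => hw.1)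
    rintro w (⟨h3, h4, h5⟩ | ⟨h3, h4⟩)
    · refine ⟨h3, fun _ => h4, fun _ => ?_⟩
      have h6 : Q (c * n) fun _ => True := (Q_const _ _).2 trivial
      refine Q_mono (fun x u v hx hu hv _ => ?_) h6
      refine h5 _ ?_
      rw [List.length_append, List.length_append]
      omega
    · refine ⟨h3, fun h => ?_, fun h => absurd h h4⟩
      have h6 : Q (c * n) fun _ => w ∈ L :=
        Q_mono (fun x u v _ _ _ h7 => (hA w _).1 h7) h
      exact (Q_const _ _).1 h6
  have f1 := h1 n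
  have f2 := h2 n
  have e1' : (S.ncard : ℝ) + T.ncard = (S ∪ T).ncard := by exact_mod_cast e1
  have e2' : (T.ncard : ℝ) + {w : List Bool | w.length = n ∧ w ∈ L}.ncard = 2 ^ n := by
    exact_mod_cast e2
  have e3' : ((S ∪ T).ncard : ℝ) ≤ {w : List Bool | w.length = n ∧
      (Q (c * n) (fun v => ∃ r, A.AcceptsAt w v r) → w ∈ L) ∧
      (w ∈ L → Q (c * n) fun v => W w v)}.ncard := by exact_mod_cast e3
  have e4 : (c₁ + c₂) * (2 : ℝ) ^ ((n : ℝ) / 2) =
    c₁ * 2 ^ ((n : ℝ) / 2) + c₂ * 2 ^ ((n : ℝ) / 2) := by ring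
  linarith

theorem linComp_nil : LinComp fun _ => ([] : List Bool) :=
  Pool.Agent.Helper31.TMS.linComp_of_ls (F := fun _ => num []) (LS.const _) fun _ => rfl

/-- A machine which never accepts. -/
def never : OneHead 1 := ⟨[], fun _ => [], fun _ => [], fun _ => [], linComp_nil, linComp_nil,
  linComp_nil⟩

theorem never_conf (w y : List Bool) (t : ℕ) : (never.conf w y t).q = [] := by
  cases t <;> rfl

theorem not_never (w y : List Bool) (r : ℕ) : ¬never.AcceptsAt w y r := by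
  unfold OneHead.AcceptsAt
  rw [never_conf]
  exact fun h => Option.some_ne_none _ h.symm

/-- **One-tape machines.** A machine with one tape which accepts `L` satisfies `Win` only on few words
of `L`. -/
theorem headline (hwnd : WND2_stmt) {L : Set (List Bool)} {c : ℕ} (hL : Hard L c)
    (A : OneHead 1) (hA : ∀ w y, (∃ r, A.AcceptsAt w y r) ↔ w ∈ L) (E : Decomp) (K : ℕ) (C : ℝ) :
    ∃ c' : ℝ, ∀ n : ℕ, ({w : List Bool | w.length = n ∧ w ∈ L ∧
      ∀ y, y.length = 3 * (c * n) → Win A E c K C w y}.ncard : ℝ) ≤ c' * 2 ^ ((n : ℝ) / 2) := by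
  refine few hA ?_ ?_
  · obtain ⟨C', hC'⟩ := hwnd A E c K C
    obtain ⟨c', hc'⟩ := hL 1 one_pos A E C'
    refine ⟨c', fun n => ?_⟩
    have h := hc' n [] L (Or.inl rfl)
    simp only [List.nil_append, List.length_nil, Nat.cast_zero, zero_add, mul_one, zero_div,
      add_zero] at h
    refine le_trans ?_ h
    have hsub : {w : List Bool | w.length = n ∧
        (Q (c * n) (fun v => ∃ r, A.AcceptsAt w v r) → w ∈ L) ∧
        (w ∈ L → Q (c * n) fun v => Win A E c K C w v)} ⊆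
        {w : List Bool | w.length = n ∧
        (Q (c * n) (fun v => ∃ r, A.AcceptsAt w v r) → w ∈ L) ∧
        (w ∈ L → Q (c * n) fun v => Within A E c C' w v)} := by
      rintro w ⟨h1, h2, h3⟩
      exact ⟨h1, h2, fun h4 => Q_mono (fun x u v _ _ _ h5 => hC' _ _ h5) (h3 h4)⟩
    exact_mod_cast Set.ncard_le_ncard hsub ((finite_len n).subset fun w hw => hw.1)
  · obtain ⟨E'⟩ : Nonempty Decomp := ⟨E⟩
    obtain ⟨c', hc'⟩ := hL 1 one_pos never E' 0
    refine ⟨c', fun n => ?_⟩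
    have h := hc' n [] Lᶜ (Or.inr rfl)
    simp only [List.nil_append, List.length_nil, Nat.cast_zero, zero_add, mul_one, zero_div,
      add_zero] at h
    refine le_trans ?_ h
    have hsub : {w : List Bool | w.length = n ∧ w ∈ L} ⊆
        {w : List Bool | w.length = n ∧
        (Q (c * n) (fun v => ∃ r, never.AcceptsAt w v r) → w ∈ Lᶜ) ∧
        (w ∈ Lᶜ → Q (c * n) fun v => Within never E' c 0 w v)} := by
      rintro w ⟨h1, h2⟩
      refine ⟨h1, fun h3 => ?_, fun h3 => absurd h2 h3⟩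
      have h4 : Q (c * n) fun _ => False :=
        Q_mono (fun x u v _ _ _ ⟨r, h5⟩ => not_never _ _ _ h5) h3
      exact absurd ((Q_const _ _).1 h4) id
    exact_mod_cast Set.ncard_le_ncard hsub ((finite_len n).subset fun w hw => hw.1)

end Pool.Agent.Helper92.RECT
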