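import Pool.Agent.Helper28.OHS.Defs

/-!
# Machines with one head, descriptions of the tape, and cuts of the tape: definitions
-/

namespace Pool.Agent.Helper92.RECT

open Pool.Agent.Helper65.LinSpace Pool.Agent.Helper78.Mpc Pool.Agent.Helper28.Ram
open Pool.Agent.Helper65.OH
open Pool.Agent.Helper28.OHS (Box Short)
open Pool.Agent.Helper81.Sus2 (Decomp)

variable {D : ℕ}

/-- The first coordinate. -/
def fst (p : Fin D → ℤ) : ℤ := if h : 0 < D then p ⟨0, h⟩ else 0

/-- The head is in the slab of the cells with first coordinate at least `P` and smaller than `P'`. -/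
def In (A : OneHead D) (w y : List Bool) (P P' : ℤ) (t : ℕ) : Prop :=
  P ≤ fst (A.conf w y t).h ∧ fst (A.conf w y t).h < P'

/-- The step `t` crosses the hyperplane between the cells with first coordinate `P - 1` and `P`. -/
def Crs (A : OneHead D) (w y : List Bool) (P : ℤ) (t : ℕ) : Prop :=
  ¬(fst (A.conf w y t).h < P ↔ fst (A.conf w y (t + 1)).h < P)

/-- The step `t` is free in the slab: it leads from a cell of the slab to a cell of the slab which
the head has visited since the last change of the content of a cell of the slab. -/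
def Free (A : OneHead D) (w y : List Bool) (P P' : ℤ) (t : ℕ) : Prop :=
  In A w y P P' t ∧ In A w y P P' (t + 1) ∧ ∃ u ≤ t, (A.conf w y u).h = (A.conf w y (t + 1)).h ∧
    ∀ v, u ≤ v → v ≤ t → In A w y P P' v → (A.conf w y (v + 1)).M = (A.conf w y v).M

/-- The number of the steps from cells of the slab in the period from `t` to `t'`. -/
noncomputable def time (A : OneHead D) (w y : List Bool) (P P' : ℤ) (t t' : ℕ) : ℕ :=
  {u : ℕ | t ≤ u ∧ u < t' ∧ In A w y P P' u}.ncard

/-- The number of those which are not free. -/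
noncomputable def work (A : OneHead D) (w y : List Bool) (P P' : ℤ) (t t' : ℕ) : ℕ :=
  {u : ℕ | t ≤ u ∧ u < t' ∧ In A w y P P' u ∧ ¬Free A w y P P' u}.ncard

/-- The period from `t` to `t'` can be divided into at most `2 ^ k` slabs. They enclose the head and
are separated by hyperplanes which are crossed at most `N` times in the period. Each slab has a width
of at most `2 ^ b`. The other coordinates of the head are at least `-2 ^ b` and smaller than `2 ^ b`.
In each slab at most `x` steps are not free; at most `2 ^ h (x + 1)` steps are made from cells of the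
slab, or `s + (b + 1) D < h`. -/
def Cut (A : OneHead D) (w y : List Bool) (s b x h k N t t' : ℕ) : Prop :=
  ∃ (K : ℕ) (P : ℕ → ℤ), K ≤ 2 ^ k ∧ (∀ i < K, P i < P (i + 1) ∧ P (i + 1) ≤ P i + 2 ^ b) ∧
    (∀ u, t ≤ u → u ≤ t' → In A w y (P 0) (P K) u ∧
      ∀ j : Fin D, j.val ≠ 0 → -2 ^ b ≤ (A.conf w y u).h j ∧ (A.conf w y u).h j < 2 ^ b) ∧
    (∀ i < K, {u : ℕ | t ≤ u ∧ u < t' ∧ Crs A w y (P i) u}.ncard ≤ N) ∧
    ∀ i < K, work A w y (P i) (P (i + 1)) t t' ≤ x ∧
      (time A w y (P i) (P (i + 1)) t t' ≤ 2 ^ h * (x + 1) ∨ s + (b + 1) * D < h)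

/-- The machine accepts at some time `r`, with the following bounds, where `n` is the length of the
input word: states, addresses and the contents of the cells have at most `s` bits, the head stays in
the box of the cells whose coordinates are at least `-2 ^ g` and smaller than `2 ^ g`, and if the
tape has no description of at most `c n` bits at the times strictly between `t` and `t' ≤ r`, then
this period can be divided into slabs as in `Cut`. For `l = h + b + ⌊log₂ n⌋ + 1`:
`x s ^ (1 + 1 / D) l ^ 4 ≤ C (n + 1) ^ (3 / 2 + 1 / D)`, `(s + l) (h + 1) l ≤ C (n + 1) ^ (1 / 2)`,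
`a l ^ 2 ≤ C (n + 1)` and `(k + 1) (g + k + (N + 1) (s + l)) l ≤ C (n + 1)`. -/
def Within (A : OneHead D) (E : Decomp) (c : ℕ) (C : ℝ) (w y : List Bool) : Prop :=
  ∃ r s g a b x h k N : ℕ, A.AcceptsAt w y r ∧ A.Fits w y r s ∧
    (∀ t ≤ r, Box g (A.conf w y t).h) ∧
    (∀ t t' : ℕ, t ≤ t' → t' ≤ r →
      (∀ u, t < u → u < t' → ¬Short A E w y g a (c * w.length) u) →
      Cut A w y s b x h k N t t') ∧
    (x : ℝ) * (s : ℝ) ^ (1 + 1 / (D : ℝ)) *
        (((h + b : ℕ) : ℝ) + ((Nat.log 2 w.length : ℝ) + 1)) ^ 4 ≤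
      C * ((w.length : ℝ) + 1) ^ ((3 : ℝ) / 2 + 1 / (D : ℝ)) ∧
    ((s : ℝ) + (((h + b : ℕ) : ℝ) + ((Nat.log 2 w.length : ℝ) + 1))) * ((h : ℝ) + 1) *
        (((h + b : ℕ) : ℝ) + ((Nat.log 2 w.length : ℝ) + 1)) ≤
      C * ((w.length : ℝ) + 1) ^ ((1 : ℝ) / 2) ∧
    (a : ℝ) * (((h + b : ℕ) : ℝ) + ((Nat.log 2 w.length : ℝ) + 1)) ^ 2 ≤
      C * ((w.length : ℝ) + 1) ∧
    ((k : ℝ) + 1) * ((g : ℝ) + k + ((N : ℝ) + 1) *
        ((s : ℝ) + (((h + b : ℕ) : ℝ) + ((Nat.log 2 w.length : ℝ) + 1)))) *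
        (((h + b : ℕ) : ℝ) + ((Nat.log 2 w.length : ℝ) + 1)) ≤
      C * ((w.length : ℝ) + 1)

end Pool.Agent.Helper92.RECT
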