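import Pool.Agent.Helper92.RECT.Pr

/-!
# Processes on numbers with one head: the statements of the parts of the simulation in cubes

Every statement comes with its proof in words. A packet may assume the statements which are named in
its text as hypotheses. Compare `Pool/Agent/Helper65/OH/GEO.lean`, `Pool/Agent/Helper53/OH/MCOR.lean`,
`Pool/Agent/Helper94/OH2/MCOR2.lean` and the proofs of the packets of `Pool/Agent/Helper28/OHS/Goals.lean`;
here everything is on numbers and easier.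
-/

namespace Pool.Agent.Helper92.RECT

open Pool.Agent.Helper65.LinSpace Pool.Agent.Helper78.Mpc Pool.Agent.Helper28.Ram Finset
open Pool.Agent.Helper28.Few (mcf chs Absorb)

/-- GRID. Cubes and cells. `dig_lt`, `dig_tab`, `tab_lt`, `tab_congr`, `tab_dig` are in
`LinSpace/Arith2.lean`. A digit `u < 2 ^ κ` has `(u + o) / d < 2 ^ κ` because `o < d` (`(u + o) / d ≤ u` if
`0 < u`, and `o / d = 0`), and `u = (u + o) / d * d + (u + o) % d - o`. `ccl (blk p) (cel p) = tab (dig p) = p`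
for `p < (2 ^ κ) ^ D`. Equal `tab`s with small digits have equal digits. -/
structure GRID_stmt : Prop where
  blk_lt : ∀ P : Pr, 0 < P.d → P.o < P.d → ∀ p, P.blk p < 2 ^ (P.κ * P.D)
  cel_lt : ∀ P : Pr, 0 < P.d → ∀ p, P.cel p < P.d ^ P.D
  ccl_lt : ∀ (P : Pr) (B j : ℕ), P.ccl B j < 2 ^ (P.κ * P.D)
  ccl : ∀ P : Pr, 0 < P.d → P.o < P.d → ∀ p < 2 ^ (P.κ * P.D), P.ccl (P.blk p) (P.cel p) = p
  cross : ∀ P : Pr, 0 < P.d → P.o < P.d → ∀ p p' : ℕ, P.blk p ≠ P.blk p' ↔
    ∃ k < P.D, (dig (2 ^ P.κ) p k + P.o) / P.d ≠ (dig (2 ^ P.κ) p' k + P.o) / P.d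

/-- The state and the contents of the cells stay in the range. By induction on `t`. -/
def RNG_stmt : Prop := ∀ P : Pr, P.Ok → ∀ t : ℕ, (P.X t).1 < 2 ^ P.sx ∧
  P.ce (P.X t).1 < 2 ^ (P.κ * P.D) ∧ ∀ p, (P.X t).2 p < 2 ^ (P.S + 1)

/-- The number `z` codes the state at the time `t'` and the content of the cube `B`; the cells outside
the cube have the same content as at the time `t`. -/
structure Inn (P : Pr) (B t z t' : ℕ) : Prop where
  q : z % 2 ^ P.sx = (P.X t').1
  lt : z / 2 ^ P.sx < 2 ^ ((P.S + 1) * P.d ^ P.D)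
  cub : ∀ p < 2 ^ (P.κ * P.D), P.blk p = B →
    dig (2 ^ (P.S + 1)) (z / 2 ^ P.sx) (P.cel p) = (P.X t').2 p
  out : ∀ p, P.blk p ≠ B → (P.X t').2 p = (P.X t).2 p

/-- INL (may assume GRID, RNG). The steps in a cube. Induction on `n`: `rn B z (n + 1) = loc B (rn B z n)`.
If `act = 0` for `rn B z n` then the head has left the cube or the state is final, and `loc` keeps the
code; then it is kept for ever (the same `m`). If `act ≠ 0` then `act = 1`, the number `m` increases by
one: `z' = rn B z n` has the state `q = (X (t + m)).1 < 2 ^ sx`, and `vl z'` is the content of the cell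
`p = ce q` at the time `t + m` (`cub`), smaller than `2 ^ (S + 1)`. The new code is
`N q v + 2 ^ sx * tab …` with `N q v < 2 ^ sx`, `X (t + m + 1) = (N q v, update … p (W q v))` (`Few.cf_succ`),
and the digits of the `tab` are those of the old content except the digit `cel p`, which is `W q v`;
`cel p' = cel p` and `blk p' = B = blk p` imply `p' = p` (`ccl`). For cells outside the cube nothing changes
(`p` is in the cube `B`). For the last claim: if the step does not change the contents then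
`W q v = v = dig … (cel p)` (the function `update` at `p`), so the new content is `tab (dig …)` of the old one
(`tab_dig`). -/
def INL_stmt : Prop := ∀ P : Pr, P.Ok → ∀ (B t z : ℕ), Inn P B t z t → ∀ n, ∃ m ≤ n,
  Inn P B t (P.rn B z n) (t + m) ∧
  (∀ i, t ≤ i → i < t + m → P.blk (P.ce (P.X i).1) = B ∧ P.fin (P.X i).1 = 0) ∧
  (m = n ∨ P.blk (P.ce (P.X (t + m)).1) ≠ B ∨ P.fin (P.X (t + m)).1 ≠ 0) ∧
  ((∀ i, t ≤ i → i < t + m → (P.X (i + 1)).2 = (P.X i).2) →
    P.rn B z n / 2 ^ P.sx = z / 2 ^ P.sx)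

/-- The event and the memory of the token machine describe the process at the time `t`. -/
structure Out (P : Pr) (c : ℕ × (ℕ → ℕ)) (t : ℕ) : Prop where
  q : c.1 = 2 + (P.X t).1
  lt : ∀ B, c.2 B < 2 ^ ((P.S + 1) * P.d ^ P.D)
  mem : ∀ p < 2 ^ (P.κ * P.D),
    dig (2 ^ (P.S + 1)) (c.2 (P.blk p)) (P.cel p) = (P.X t).2 p

/-- STT (may assume GRID, RNG, INL). One step of the token machine. `capN V` keeps the numbers which
occur (`hV`; cubes have numbers smaller than `2 ^ (κ D) ≤ 2 ^ sx`). (`start`): `dig_tab`, `GRID.ccl`;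
`cm` is the `tab` modulo `2 ^ a`, and the `tab` is smaller than `2 ^ ((S + 1) d ^ D) ≤ 2 ^ a`. (`step`): the
event is `Q = 2 + q`, `Q - 2 = q = (X t).1`, `fin q = 0`. The content `v` of the cube `B = blk (ce q)` and `q`
give `Inn P B t (q + 2 ^ sx * v) t`, and `INL` for `n = Tc` gives `m`. The new event is `2 + (X (t + m)).1`, the new
content of `B` is `rz / 2 ^ sx` (the remainder modulo `2 ^ a` changes nothing). `0 < m` if `0 < Tc` because
the head is in the cube `B` at the time `t` and the state is not final. (`check`): the cube of the cell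
`al` is read; `v % 2 ^ a = v`. (`stop`): the events `0` and `1` are kept and the memory too (`fA = 0`,
contents are smaller than `2 ^ a`). -/
structure STT_stmt : Prop where
  start : ∀ P : Pr, P.Ok → Out P (P.conf 0) 0
  step : ∀ P : Pr, P.Ok → 0 < P.Tc → ∀ T t : ℕ, Out P (P.conf T) t → P.fin (P.X t).1 = 0 →
    ∃ m, 0 < m ∧ m ≤ P.Tc ∧ Out P (P.conf (T + 1)) (t + m) ∧
      (∀ i, t ≤ i → i < t + m → P.blk (P.ce (P.X i).1) = P.blk (P.ce (P.X t).1) ∧
        P.fin (P.X i).1 = 0) ∧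
      (m = P.Tc ∨ P.blk (P.ce (P.X (t + m)).1) ≠ P.blk (P.ce (P.X t).1) ∨
        P.fin (P.X (t + m)).1 ≠ 0) ∧
      ((∀ i, t ≤ i → i < t + m → (P.X (i + 1)).2 = (P.X i).2) →
        P.fW (P.conf T).1 ((P.conf T).2 (P.fA (P.conf T).1)) = (P.conf T).2 (P.fA (P.conf T).1))
  check : ∀ P : Pr, P.Ok → ∀ T t : ℕ, Out P (P.conf T) t → P.fin (P.X t).1 ≠ 0 →
    (P.conf (T + 1)).1 = lt01 0 (P.fc (P.X t).1 ((P.X t).2 P.al)) ∧
      (P.conf (T + 1)).2 = (P.conf T).2 ∧
      P.fW (P.conf T).1 ((P.conf T).2 (P.fA (P.conf T).1)) = (P.conf T).2 (P.fA (P.conf T).1)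
  stop : ∀ P : Pr, P.Ok → ∀ T : ℕ, (P.conf T).1 ≤ 1 → (∀ B, (P.conf T).2 B < 2 ^ P.a) →
    P.conf (T + 1) = P.conf T

/-- SND (may assume STT). Soundness. By induction on `T`: all contents are smaller than `2 ^ a`, and
either there is a `t` with `Out P (conf T) t` and `fin (X i).1 = 0` for all `i < t`, or the event is `0`, or it is
`1` and the conclusion holds. (If `Tc = 0` then the event is kept for ever while `fin = 0`: `rn B z 0 = z`;
or use that the case `0 < Tc` is enough for us: it is a hypothesis.) -/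
def SND_stmt : Prop := ∀ P : Pr, P.Ok → 0 < P.Tc → ∀ T : ℕ, (P.conf T).1 = 1 →
  ∃ t, P.fin (P.X t).1 ≠ 0 ∧ (∀ i < t, P.fin (P.X i).1 = 0) ∧
    P.fc (P.X t).1 ((P.X t).2 P.al) ≠ 0

open Classical in
/-- The number of the steps `i < r` which lead into another cube. -/
noncomputable def crs (P : Pr) (r : ℕ) : ℕ :=
  ((range r).filter fun i => P.blk (P.ce (P.X i).1) ≠ P.blk (P.ce (P.X (i + 1)).1)).card

open Classical in
/-- The number of those which have the property `Nw`. -/
noncomputable def ncr (P : Pr) (Nw : ℕ → Prop) (r : ℕ) : ℕ :=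
  ((range r).filter fun i =>
    Nw i ∧ P.blk (P.ce (P.X i).1) ≠ P.blk (P.ce (P.X (i + 1)).1)).card

/-- CMP (may assume STT). Completeness; `r` is the first time with a final state. Invariant after
`T` steps, for as long as the final check was not made: there is a `t ≤ r` with `Out P (conf T) t`, and either
`t < r`, `T ≤ crs P t` and `chs … T ≤ ncr P Nw t`, or `t = r` and `chs … T ≤ ncr P Nw r + 1`. Step from `t < r`: let
`m` be as in `STT.step`; `t + m ≤ r` since no state before `t + m` is final. If `t + m = r` nothing more is to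
be shown (`crs`, `ncr` are monotone, a step counts at most once in `chs`). Otherwise `m = Tc` is impossible
(`t + Tc ≥ r` since `r ≤ Tc`), so the head is in another cube at the time `t + m` and was in the cube of the
time `t` before: the step `i = t + m - 1` leads into another cube, `crs P (t + m) ≥ crs P t + 1`. If the token
step changes the content of its cube (`chg`) then some step `v` with `t ≤ v < t + m` changes the contents
(contraposition of the last claim of `STT.step`), and `hN` gives `Nw i`, so `ncr` increases too. So the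
time `r` is reached after at most `crs P r + 1` steps, and the next step is the final check, which gives the
event `1` and changes nothing; after that nothing changes (`STT.stop`). (`Absorb`: an event `1` is kept
together with the memory; contents are always smaller than `2 ^ a`, by induction from `STT`.) -/
def CMP_stmt : Prop := ∀ (P : Pr), P.Ok → ∀ (Nw : ℕ → Prop) (r : ℕ), 0 < P.Tc → r ≤ P.Tc →
  P.fin (P.X r).1 ≠ 0 → (∀ i < r, P.fin (P.X i).1 = 0) →
  P.fc (P.X r).1 ((P.X r).2 P.al) ≠ 0 →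
  (∀ v i, v ≤ i → i < r → (P.X (v + 1)).2 ≠ (P.X v).2 →
    (∀ j, v ≤ j → j ≤ i → P.blk (P.ce (P.X j).1) ≠ P.blk (P.ce (P.X (i + 1)).1)) → Nw i) →
  Absorb P.fA P.fN P.fW P.f0 P.cm (fun Q => Q = 1) ∧
  (P.conf (crs P r + 2)).1 = 1 ∧
  chs P.fA P.fN P.fW P.f0 P.cm (crs P r + 2) ≤ ncr P Nw r + 1

/-- CRO. Shift of a grid; only the steps with the property `G` move the head by at most one cell in
each direction, and those with the property `N` are counted `H + 1` times. As `CROSS2` (see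
`Pool/Agent/Helper65/OH2/Goals.lean`, proved in the team; `Pool/Agent/Helper40/OH/CROSS.lean`): for each
`t < r` with `G t` and each `k < D` there is at most one shift `o < d` with
`(p t k + o) / d ≠ (p (t + 1) k + o) / d`. Sum over `o < d` and take the smallest term. -/
def CRO_stmt : Prop := ∀ (D r d H : ℕ) (N G : ℕ → Prop) [DecidablePred N] [DecidablePred G]
    (p : ℕ → ℕ → ℕ), 0 < d →
    (∀ t < r, G t → ∀ k < D, p (t + 1) k ≤ p t k + 1 ∧ p t k ≤ p (t + 1) k + 1) →
    ∃ o < d, d * (H * ((range r).filter fun t => (N t ∧ G t) ∧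
        ∃ k < D, (p t k + o) / d ≠ (p (t + 1) k + o) / d).card +
      ((range r).filter fun t => G t ∧ ∃ k < D, (p t k + o) / d ≠ (p (t + 1) k + o) / d).card) ≤
      D * (H * ((range r).filter fun t => N t ∧ G t).card + r)

/-- The step `i` moves the head by at most one cell in each direction. -/
def Reg (P : Pr) (i : ℕ) : Prop := ∀ k < P.D,
  dig (2 ^ P.κ) (P.ce (P.X (i + 1)).1) k ≤ dig (2 ^ P.κ) (P.ce (P.X i).1) k + 1 ∧
  dig (2 ^ P.κ) (P.ce (P.X i).1) k ≤ dig (2 ^ P.κ) (P.ce (P.X (i + 1)).1) k + 1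

open Classical in
/-- WIN (may assume GRID, CMP, CRO). Apply CRO with `p t k = dig (2 ^ κ) (ce (X t).1) k`, `G = Reg P`, `N = Nw`,
`H = 2 ^ h`; `X`, `Reg` do not depend on the shift (`(P.sh o).X t = P.X t` by `rfl`). It gives a shift `o < d`. Let
`Z`, `R` be the two cardinalities on the left, so `d (2 ^ h Z + R) ≤ D (2 ^ h x + r) ≤ D 2 ^ h (2 x + 1)`, hence
`d (Z + R / 2 ^ h) ≤ D (2 x + 1)` (natural division). Put `Nw' i = (Nw i ∧ Reg P i) ∨ ¬Reg P i`. `CMP` for `P.sh o` and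
`Nw'`: if `i` is a step as there and `Reg P i` then `ce (X j).1 ≠ ce (X (i + 1)).1` for `v ≤ j ≤ i` because the cubes are
different, so `hN` gives `Nw i`. By GRID.cross `crs (P.sh o) r ≤ R + J` and `ncr (P.sh o) Nw' r ≤ Z + J`. Let
`x' = Z + J + (R + J) / 2 ^ h + 1`; `(R + J) / 2 ^ h ≤ R / 2 ^ h + J + 1`. Then `crs + 2 ≤ 2 ^ h (x' + 1)`
(`R + J < 2 ^ h ((R + J) / 2 ^ h + 1)`), `ncr + 1 ≤ x'`, and `2 x' + 1 ≤ 2 (Z + R / 2 ^ h) + 4 J + 5 ≤ T`; so
`macro_complete` (`Pool/Agent/Helper28/Few/Macro.lean`) gives the claim. -/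
def WIN_stmt : Prop := ∀ (P : Pr), (∀ o < P.d, (P.sh o).Ok) → 0 < P.d → ∀ (Nw : ℕ → Prop)
    (r x h J T : ℕ), 0 < P.Tc → r ≤ P.Tc →
    P.fin (P.X r).1 ≠ 0 → (∀ i < r, P.fin (P.X i).1 = 0) →
    P.fc (P.X r).1 ((P.X r).2 P.al) ≠ 0 →
    (∀ v i, v ≤ i → i < r → (P.X (v + 1)).2 ≠ (P.X v).2 →
      (∀ j, v ≤ j → j ≤ i → P.ce (P.X j).1 ≠ P.ce (P.X (i + 1)).1) → Reg P i → Nw i) →
    ((range r).filter fun i => Nw i ∧ Reg P i).card ≤ x →
    ((range r).filter fun i => ¬Reg P i).card ≤ J → r ≤ 2 ^ h * (x + 1) →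
    2 * P.D * (2 * x + 1) + (4 * J + 5) * P.d ≤ P.d * T →
    ∃ o < P.d, (mcf (P.sh o).fA (P.sh o).fN (P.sh o).fW h (P.sh o).f0 (P.sh o).cm T).1 = 1

/-! ### Linear space -/

/-- A family of processes whose parameters and functions are computed in linear space. -/
structure LSPr {α : Type} [Ctx α] (P : α → Pr) (C : α → ℕ) : Prop where
  S : LS (fun z => (P z).S)
  κ : LS (fun z => (P z).κ)
  D : LS (fun z => (P z).D)
  θ : LS (fun z => (P z).θ)
  d : LS (fun z => (P z).d)
  o : LS (fun z => (P z).o)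
  a : LS (fun z => (P z).a)
  V : LS (fun z => (P z).V)
  Tc : LS (fun z => (P z).Tc)
  fin : LS (fun z : α × ℕ => (P z.1).fin z.2)
  N : LS (fun z : α × ℕ × ℕ => (P z.1).N z.2.1 z.2.2)
  W : LS (fun z : α × ℕ × ℕ => (P z.1).W z.2.1 z.2.2)
  q0 : LS (fun z => (P z).q0)
  M0 : LS (fun z : α × ℕ => (P z.1).M0 z.2)
  al : LS (fun z => (P z).al)
  fc : LS (fun z : α × ℕ × ℕ => (P z.1).fc z.2.1 z.2.2)
  bd : LS C
  ok : ∀ z, (P z).Ok
  h1 : ∀ z, 2 ^ (P z).sx ≤ C z
  h2 : ∀ z, 2 ^ (P z).a ≤ C z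
  h3 : ∀ z, 2 ^ ((P z).S + 1) ≤ C z
  h4 : ∀ z, 2 ^ (P z).κ ≤ C z
  h5 : ∀ z, (P z).d ^ (P z).D ≤ C z
  h6 : ∀ z, 2 ^ (P z).V ≤ C z

/-- LSF. The functions of the token machine are computed in linear space. Powers: `LS.pow_of_le`
(`2 ^ sx`, `2 ^ a`, `2 ^ (S + 1)`, `2 ^ κ`, `d ^ D`; `2 ^ θ ≤ 2 ^ sx`). `blk`, `cel`, `ccl` are `tab`s with small
digits: `LS.tab` (`Arith2.lean`) or `LS_tab` (`Helper54/OH/MLS.lean`); `(2 ^ κ) ^ D ≤ 2 ^ sx`. The contents of the
cubes are `tab`s with digits smaller than `2 ^ (S + 1)` (`Ok.W_lt`, `Ok.M0_lt`), and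
`(2 ^ (S + 1)) ^ (d ^ D) ≤ 2 ^ a` (`Ok.ha`). `rn`: `LS.nrec` with the bound `z + 2 ^ sx * 2 ^ a`: every value is the
start value `z` or smaller than `2 ^ sx * 2 ^ a`. `LS.capN`, `LS.dig`, `LS.ifz` etc. Compare
`Pool/Agent/Helper54/OH/MLS.lean`. -/
def LSF_stmt : Prop := ∀ (α : Type) [Ctx α] (P : α → Pr) (C : α → ℕ), LSPr P C →
    LS (fun z : α × ℕ => (P z.1).fA z.2) ∧
    LS (fun z : α × ℕ × ℕ => (P z.1).fN z.2.1 z.2.2) ∧
    LS (fun z : α × ℕ × ℕ => (P z.1).fW z.2.1 z.2.2) ∧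
    LS (fun z => (P z).f0) ∧
    LS (fun z : α × ℕ => (P z.1).cm z.2)

end Pool.Agent.Helper92.RECT
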