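import Pool.Agent.Helper92.RECT.Par
import Pool.Agent.Helper92.RECT.Goals1

/-!
# The check of a period: linear space and parameters

Every statement comes with its proof in words. A packet may assume the statements which are named in
its text as hypotheses.
-/

namespace Pool.Agent.Helper92.RECT

open Pool.Agent.Helper65.LinSpace Pool.Agent.Helper78.Mpc Pool.Agent.Helper28.Ram Finset Filter
open Pool.Agent.Helper65.OH (Prm sd2)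
open Pool.Agent.Helper54.OH (PF)
open Pool.Agent.Helper81.Sus2 (LSP)
open Pool.Agent.Helper81.Tok2 (gH)
open Pool.Agent.Helper28.Long (ZL)
open Pool.Agent.Helper28.OHS (nz)

/-- OKS. The numbers of the process are in the range, without a machine. `cod u md i j t p <
2 ^ (θ + κ D)` for `u < 2 ^ (S + 1)`, `md < 8`, `p < 2 ^ (κ D)`. For `q < 2 ^ sx` the code
`bq q = wq q + 2 ^ (S + 1) * ce q` has `ce q < 2 ^ (κ D)`. If `accN = 0` and `ok ≠ 0` then `viol = 0`, so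
`sq (bq q) v` is `mk' _ _` with digits smaller than `2 ^ κ`, hence smaller than `2 ^ sg`; otherwise `N1` is
`fl`. Digits of lists are smaller than `2 ^ sg`; `st0 p u < 2 ^ (κ D)` for `p < 2 ^ (κ D)`, `u < 2 ^ κ`, `0 < D`
(same quotient by `2 ^ κ`); `2 ^ (κ - 1) + W - 1 < 2 ^ κ`. `nw`, `cn` are `capN`, `G.S = S`. Compare the
packet RNS. -/
def OKS_stmt : Prop := ∀ s : Sp, 0 < s.m.D → 1 ≤ s.m.κ → s.G.S = s.m.S →
    s.W ≤ 2 ^ (s.m.κ - 1) → ∀ d a V Tc o : ℕ, o < d → (s.m.S + 1) * d ^ s.m.D ≤ a →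
    2 ^ (s.θ + s.m.κ * s.m.D) + 2 ≤ 2 ^ (V + 1) → ((s.pr d a V Tc).sh o).Ok

/-- A family of parameters which are computed in linear space. -/
structure LSb {α : Type} [Ctx α] (s : α → Sp) (C : α → ℕ) : Prop where
  m : PF (fun z => (s z).m) C
  G : PF (fun z => (s z).G) C
  e : LSP (fun z => (s z).e) C
  ν : LS (fun z => (s z).ν)
  te : LS (fun z => (s z).te)
  π : LS (fun z => (s z).π)
  S : ∀ z, (s z).G.S = (s z).m.S
  D : ∀ z, (s z).G.D = (s z).m.D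
  pos : ∀ z, 0 < (s z).m.D
  κ : ∀ z, 2 ≤ (s z).m.κ
  d1 : ∀ z, (s z).m.d = 1
  nm : ∀ z, 2 ^ ((2 * (s z).G.κ + 3) * (s z).m.D + 1) ≤ C z
  hθ : ∀ z, 2 ^ ((s z).θ + (s z).m.κ * (s z).m.D) ≤ C z
  hπ : ∀ z, 2 ^ ((s z).π + 1) ≤ C z

/-- LSS. The process is computed in linear space (may assume OKS). The functions of `m` (`sq`, `nw`, `ok`,
powers) are in `Helper54/OH/MLS.lean` (namespace `PF`, `PF.comp` for a larger context), those of `e` (`lk`)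
in `Helper81/Sus2/LSW.lean`; `cn`, `cs`, `cellN` as in `Helper15/OHS/LSW.lean` (`cellN` by `LS.nrec` with the
bound `nm`; all digits are smaller than `2 ^ κ_G`). Powers by `LS.pow_of_le`: exponents at most
`θ + κ D` or `π + 1`, or `κ_G` (`PF.b4`). `gC`, `lC` are `tab`s (`PF.b5`, `LS.tab`). `gV`, `lV` are sums with
`D` terms `≤ 1` (`LS.sum_le`). `dig`, `eq01`, `lt01`, `le01`, `ifz`, `capN` by `LS.dig` etc. or `fun_prop`. It is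
best to prove first one lemma for each definition of `Slab.lean`. `ok` is OKS for `s.put …` (`put` changes
only the data of the slab, all by `rfl`). `h1`: `hθ`; `h3`, `h4`: `PF.b3`, `PF.b4`. -/
def LSS_stmt : Prop := ∀ (α : Type) [Ctx α] (s : α → Sp) (C : α → ℕ), LSb s C →
    ∀ Ph W n L R c f al d a V Tc o : α → ℕ, LS Ph → LS W → LS n → LS L → LS R → LS c → LS f →
    LS al → LS d → LS a → LS V → LS Tc → LS o →
    (∀ z, W z ≤ 2 ^ ((s z).m.κ - 1)) → (∀ z, 2 ^ V z ≤ C z) → (∀ z, 2 ^ a z ≤ C z) →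
    (∀ z, d z ^ (s z).m.D ≤ C z) → (∀ z, o z < d z) →
    (∀ z, ((s z).m.S + 1) * d z ^ (s z).m.D ≤ a z) →
    (∀ z, 2 ^ ((s z).θ + (s z).m.κ * (s z).m.D) + 2 ≤ 2 ^ (V z + 1)) →
    LSPr (fun z => (((s z).put (Ph z) (W z) (n z) (L z) (R z) (c z) (f z) (al z)).pr (d z) (a z)
      (V z) (Tc z)).sh (o z)) C

/-- CHL. The check is computed in linear space. `sE` of `cfa` is `put` (`rfl`), so `edge` is a product of
comparisons and of `lt01 0` of a sum (`LS.sum_le`, terms `≤ 1`) over `o < d` of the given function.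
`rc`: `Pool.Agent.Helper28.Sus.LS.rc` with `Z = ZZ`, in the context `(z, c, f, al, τ, a, b)`; the start
`a < 2 ^ (π + 1) ≤ ZZ` and the end `b + 2 ^ (π + 1) * (τ % 2 ^ tw) < ZZ` only for `a, b < 2 ^ (π + 1)`: replace
`a`, `b` by `a % 2 ^ (π + 1)`, `b % 2 ^ (π + 1)` first, which does not change the sums (`Finset.sum_congr`,
`Nat.mod_eq_of_lt`). `2 ^ (sg N) ≤ ZZ + 2 ≤ C` for `LS.pow_of_le`. `pth` is a sum of `2 ^ (2 (π + 1))` terms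
`≤ 1` (`rc_le`, `btw ≤ 1`, `ouc ≤ 1`). `btw`, `oth`, `ouc`, `hp`, `nm`, `cn`, `cs` as in LSS. The sum over
`al < 2 ^ (κ_G D) = (2 ^ κ_G) ^ D ≤ C` (`PF.b5`). -/
def CHL_stmt : Prop := ∀ (α : Type) [Ctx α] (s : α → Sp) (C : α → ℕ), LSb s C →
    ∀ tw N k d : α → ℕ, LS tw → LS N → LS k → LS d → (∀ z, 2 ^ tw z ≤ C z) →
    (∀ z, ((s z).ZZ (tw z) (N z) + 2) ^ (4 * (k z + 1)) ≤ C z) →
    ∀ F : α → Sp → ℕ → ℕ,
    LS (fun z : α × ℕ × ℕ × ℕ × ℕ × ℕ × ℕ × ℕ × ℕ × ℕ =>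
      F z.1 ((s z.1).put z.2.1 z.2.2.1 z.2.2.2.1 z.2.2.2.2.1 z.2.2.2.2.2.1 z.2.2.2.2.2.2.1
        z.2.2.2.2.2.2.2.1 z.2.2.2.2.2.2.2.2.1) z.2.2.2.2.2.2.2.2.2) →
    LS (fun z : α × ℕ × ℕ × ℕ =>
      (s z.1).chk (tw z.1) (N z.1) (k z.1) (d z.1) (F z.1) z.2.1 z.2.2.1 z.2.2.2) ∧
    LS (fun z : α × ℕ × ℕ => (s z.1).ac1 (tw z.1) (N z.1) (k z.1) (d z.1) (F z.1) z.2.1 z.2.2)

/-- PRM. The parameters are computed in linear space, and admissible. Let `n = log₂ x`. If `gg = 0` then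
all `rd` are `0` and `hh = 0`; otherwise `gg = 1` and the inequalities of `gd` hold; `1 ≤ DD ≤ ll n`. All
exponents are at most `100 (n + 1)` (`two_pow_le_CR`, `CR x ≤ CS c x`): `VV + 1 ≤ gH n (h + 1) ≤ gR n ≤ n + 1`
(`Few.gH_le`, `Helper69.Ram.gR_le`) or `VV = 2 DD + 6 ll n + 11` if `gg = 0`; `(g + 1) D ≤ n + 1`, so
`(2 κ_G + 3) D + 1 ≤ 5 (g + 1) D + 1`; `ZZ + 2 ≤ 2 ^ zb` (`ZZ` is `2 ^ (π + 1 + tw + sg N)`, at least `2`), and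
`(k + 1) zb ≤ n + 1`, or `zb = 4 ll n + 9` and `k = 0`; `gb * gb ≤ 4 (n + 1)`. `θ + κ D = VV` is an identity.
`sd2_spec`, `sd2_le`, `LS_sd2`, `LS_gH`, `LS_ZL`; see `Helper70/OHS/PRM.lean`, the proof of the same
statement for OHS. `rd 6 < n + 2 ≤ 2 ^ (ll n + 1)`. -/
structure PRM_stmt : Prop where
  lsb : ∀ (α : Type) [Ctx α] (c : ℕ) (u x y T : α → ℕ), LS u → LS x → LS y → LS T →
    LSb (fun z => bs c (u z) (x z) (y z) (T z)) (fun z => CS c (x z))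
  ls : ∀ (α : Type) [Ctx α] (u x T : α → ℕ), LS u → LS x → LS T →
    LS (fun z => gg (u z) (x z) (T z)) ∧ LS (fun z => hh (u z) (x z) (T z)) ∧
    LS (fun z => gb (u z) (x z) (T z)) ∧ LS (fun z => tw (u z) (x z) (T z)) ∧
    LS (fun z => VV (u z) (x z) (T z)) ∧ LS (fun z => dd (u z) (x z) (T z)) ∧
    (∀ i, LS (fun z => rd (u z) (x z) (T z) i)) ∧
    LS (fun z => 2 ^ (te (u z) (x z) (T z) + 1)) ∧ LS (fun z => 2 ^ tw (u z) (x z) (T z))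
  nz : ∀ (α : Type) [Ctx α] (c : ℕ) (u x y T : α → ℕ), LS u → LS x → LS y → LS T →
    LS (fun z => nz (pG (u z) (x z) (y z) (T z)) (pe c (u z) (x z) (y z) (T z)))
  ok : ∀ u x T : ℕ, gg u x T ≤ 1 ∧ gg u x T * VV u x T + 1 ≤ gb u x T ∧
    (gg u x T * VV u x T + 2) * hh u x T ≤ gb u x T ∧ gb u x T ≤ gR (Nat.log 2 x) ∧
    0 < dd u x T ∧ (rd u x T 0 + 1) * dd u x T ^ DD u x ≤ gb u x T * gb u x T ∧
    rd u x T 0 + 1 ≤ gb u x T ∧ rd u x T 2 ≤ ZL (Nat.log 2 x) ∧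
    rd u x T 6 < 2 ^ (ll (Nat.log 2 x) + 1) ∧ 2 ^ VV u x T + 2 ≤ 2 ^ (VV u x T + 1) ∧
    1 ≤ DD u x ∧ DD u x ≤ ll (Nat.log 2 x)
  vv : ∀ c u x y T : ℕ, (bs c u x y T).θ + (bs c u x y T).m.κ * (bs c u x y T).m.D = VV u x T
  bd : ∀ c u x T : ℕ, 2 ^ VV u x T ≤ CS c x ∧ 2 ^ (gb u x T * gb u x T) ≤ CS c x ∧
    dd u x T ^ DD u x ≤ CS c x ∧ 2 ^ tw u x T ≤ CS c x
  zz : ∀ c u x y T : ℕ,
    ((bs c u x y T).ZZ (tw u x T) (rd u x T 6) + 2) ^ (4 * (rd u x T 5 + 1)) ≤ CS c x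

/-- PAR. The bounds of the theorem give admissible parameters. Let `l = h + b + log₂ n + 1`, so
`l ≥ ll n = log₂ n + 1`; let `g' = gH n (h + 1)`, `d = sd2 g' s D ≥ 1`, `V = vb n D s b h`,
`TT = g' * (g' * (g' / (V + 1)))`. (1) Use `PAR_stmt` of OHS (proved: `Helper9/OHS/PAR.lean`) for
`x' = 4 (x + 1)`, `s`, `b' = b + 2 ll n + 6`, `a`, `h' = h + 1`, and a larger constant:
`l' = h' + b' + log₂ n + 1 ≤ 10 l`, `h' + 1 ≤ 2 (h + 1)`, and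
`x' s ^ (1 + 1 / D) l' ^ 4 ≤ C' (n + 1) ^ (3 / 2 + 1 / D)`; for the summand `1` of `x + 1` note that `s l` and `l ^ 2`
are at most `C √(n + 1)`, so `s ^ (1 + 1 / D) l ^ 4 ≤ s ^ 2 l ^ 4 = (s l) ^ 2 l ^ 2 ≤ C ^ 3 (n + 1) ^ (3 / 2)`
(`1 ≤ s`). As `s + (b' + 1) * D + (h' + kap n) ≥ V + 1`, it gives `V + 1 ≤ g'`, `(V + 2) (h + 1) ≤ g'`,
`a ≤ ZL n`, the bounds of the digits `s, b, a, h`, `2 ^ h' (x' + 1) + 2 ≤ 2 ^ (h' + (4 ll n + 5))` (so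
`2 ^ h (x + 1) < 2 ^ (h + (4 ll n + 5))`), and `2 D * (8 (x + 1)) ≤ d * TT` (`TT` is monotone), so
`2 D (2 x + 1) ≤ d TT / 4`. (2) The last hypothesis bounds `k`, `g`, `N` by `C (n + 1) / ll n`, and
`zb ≤ 30 D (g + k + (N + 1) (s + l))`, so for large `n` the two last conditions of `gd` and the bounds of
the digits hold. (3) It is enough that `16 (D + 1) (N + 1) ≤ TT`, since then
`2 D (4 N) + (8 N + 5) d ≤ 8 (D + 1) (N + 1) d ≤ d TT / 2`. `g' ^ 2 * (ll n + h + 1) ≥ n + 1` (`Few.lt_gH_sq`), so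
`2 g' ^ 2 l ≥ n + 1`. `g' / (V + 1)` (natural division) is at least half of the real quotient because
`V + 1 ≤ g'`, and `V + 1 ≤ 30 D (s + l)`, so `TT ≥ g' ^ 3 / (60 D (s + l))`. With
`N + 1 ≤ C (n + 1) / ((s + l) l)` this gives `TT / (N + 1) ≥ g' ^ 3 l / (60 D C (n + 1)) ≥ g' / (120 D C)`, and `g'`
tends to infinity because `g' ≥ V + 1 ≥ ll n`. -/
def PAR_stmt : Prop := ∀ (D : ℕ) (C : ℝ), 0 < D → ∀ᶠ n : ℕ in atTop,
    ∀ x s g a b h k N : ℕ, 1 ≤ s →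
    (x : ℝ) * (s : ℝ) ^ (1 + 1 / (D : ℝ)) * (((h + b : ℕ) : ℝ) + ((Nat.log 2 n : ℝ) + 1)) ^ 4 ≤
      C * ((n : ℝ) + 1) ^ ((3 : ℝ) / 2 + 1 / (D : ℝ)) →
    ((s : ℝ) + (((h + b : ℕ) : ℝ) + ((Nat.log 2 n : ℝ) + 1))) * ((h : ℝ) + 1) *
      (((h + b : ℕ) : ℝ) + ((Nat.log 2 n : ℝ) + 1)) ≤ C * ((n : ℝ) + 1) ^ ((1 : ℝ) / 2) →
    (a : ℝ) * (((h + b : ℕ) : ℝ) + ((Nat.log 2 n : ℝ) + 1)) ^ 2 ≤ C * ((n : ℝ) + 1) →
    ((k : ℝ) + 1) * ((g : ℝ) + k + ((N : ℝ) + 1) *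
        ((s : ℝ) + (((h + b : ℕ) : ℝ) + ((Nat.log 2 n : ℝ) + 1)))) *
        (((h + b : ℕ) : ℝ) + ((Nat.log 2 n : ℝ) + 1)) ≤ C * ((n : ℝ) + 1) →
    gd n D s g a b h k N = 1 ∧ s < n + 2 ∧ g < n + 2 ∧ a < n + 2 ∧ b < n + 2 ∧ h < n + 2 ∧
    k < n + 2 ∧ N < n + 2 ∧ 2 ^ h * (x + 1) < 2 ^ (h + (4 * ll n + 5)) ∧
    2 * D * (2 * (x + 2 * N) + 1) + (4 * (2 * N) + 5) * sd2 (gH n (h + 1)) s D ≤
      sd2 (gH n (h + 1)) s D *
        (gH n (h + 1) * (gH n (h + 1) * (gH n (h + 1) / (vb n D s b h + 1))))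

end Pool.Agent.Helper92.RECT
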