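import Pool.Agent.Helper92.RECT.Goals4
import Pool.Agent.Helper92.RECT.Goals5
import Pool.Agent.Helper65.OH2.Main
import Pool.Agent.Helper28.OHS.Fin
import Pool.Agent.Helper28.Sus.Fin
import Pool.Agent.Helper81.Gen4.Main

/-!
# Machines with one head, descriptions of the tape and slabs: the final theorem from its parts
-/

namespace Pool.Agent.Helper92.RECT

open Pool.Agent.Helper65.LinSpace Pool.Agent.Helper78.Mpc Pool.Agent.Helper28.Ram Finset Filter
open Pool.Agent.Helper65.OH (Prm OneHead Conf Par InBox co GoodQ Fns dm sd2 kap one_le_of_accepts)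
open Pool.Agent.Helper54.OH (PF)
open Pool.Agent.Helper81.Sus2 (Decomp CodE LSP)
open Pool.Agent.Helper81.Tok2 (gH CH)
open Pool.Agent.Helper28.Few (mcf Sim macro_sound)
open Pool.Agent.Helper28.Long (ZL)
open Pool.Agent.Helper31.SusD (itr itr_sound itr_complete)
open Pool.Agent.Helper28.Sus (lt_ne ev_cod)
open Pool.Agent.Helper28.OHS (Box Short nz Rep cfi DSC_stmt COD_stmt)
open Pool.Agent.Helper81.Gen4 (Q q_main q_lin)

/-- The parts of the proof. -/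
structure Parts : Prop where
  chs : CHS_stmt
  chc : CHC_stmt
  dsc : DSC_stmt
  cod : COD_stmt
  lsf : LSF_stmt
  lss : LSS_stmt
  chl : CHL_stmt
  prm : PRM_stmt
  par : PAR_stmt

/-! ### The simulation of a slab -/

/-- The slab with a width which is not too large. -/
def sW (s : Sp) : Sp := { s with W := min s.W (2 ^ (s.m.κ - 1)) }

/-- The process which is simulated. -/
def pp (u x T : ℕ) (s : Sp) (o : ℕ) : Pr :=
  ((sW s).pr (dd u x T) (gb u x T * gb u x T) (VV u x T) (2 ^ (te u x T + 1))).sh (o % dd u x T)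

/-- The machine on numbers with the parameters of the simulation. -/
def mach (u x T : ℕ) (s : Sp) (o : ℕ) : Pool.Agent.Helper81.Tok2.Mach where
  σ := gg u x T * VV u x T + 1
  a := gb u x T * gb u x T
  b := gb u x T / (gg u x T * VV u x T + 1)
  G := gb u x T
  h := hh u x T
  A := fun Q => gg u x T * (pp u x T s o).fA Q
  N := fun Q v => gg u x T * (pp u x T s o).fN Q v
  W := fun Q v => (pp u x T s o).fW Q v
  q0 := gg u x T * (pp u x T s o).f0
  M0 := fun B => (pp u x T s o).cm B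

section

variable (hPRM : PRM_stmt) (u x T : ℕ) (s : Sp) (o : ℕ)

include hPRM

theorem mul_lt {v : ℕ} (h : v < 2 ^ (VV u x T + 1)) :
    gg u x T * v < 2 ^ (gg u x T * VV u x T + 1) := by
  obtain ⟨h1, _⟩ := hPRM.ok u x T
  rcases Nat.le_one_iff_eq_zero_or_eq_one.1 h1 with h2 | h2
  · rw [h2, zero_mul]
    positivity
  · rw [h2, one_mul, one_mul]
    exact h

theorem ok_mach : (mach u x T s o).Ok := by
  obtain ⟨h1, h2, _⟩ := hPRM.ok u x T
  exact ⟨Nat.succ_pos _, Nat.div_pos h2 (Nat.succ_pos _),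
    fun q => mul_lt hPRM u x T (capN_lt _ _), fun q v => mul_lt hPRM u x T (capN_lt _ _),
    fun q v => Nat.mod_lt _ (by positivity), mul_lt hPRM u x T (capN_lt _ _),
    fun b => Nat.mod_lt _ (by positivity)⟩

theorem par_mach : Pool.Agent.Helper81.Tok2.Par (Nat.log 2 x) (mach u x T s o) := by
  obtain ⟨_, h1, h2, _⟩ := hPRM.ok u x T
  exact ⟨h1, h2, rfl, rfl, le_rfl⟩

end

/-- The simulation. -/
noncomputable def FF (Q : Sim) (u x T : ℕ) (s : Sp) (o : ℕ) : ℕ :=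
  Q.sim (Nat.log 2 x) (mach u x T s o)

theorem FF_eq (Q : Sim) (hPRM : PRM_stmt) {u x T : ℕ} (hg : gg u x T = 1) (s : Sp)
    (hW : s.W ≤ 2 ^ (s.m.κ - 2)) {o : ℕ} (ho : o < dd u x T) :
    FF Q u x T s o = (mcf ((s.pr (dd u x T) (gb u x T * gb u x T) (VV u x T)
        (2 ^ (te u x T + 1))).sh o).fA
      ((s.pr (dd u x T) (gb u x T * gb u x T) (VV u x T) (2 ^ (te u x T + 1))).sh o).fN
      ((s.pr (dd u x T) (gb u x T * gb u x T) (VV u x T) (2 ^ (te u x T + 1))).sh o).fW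
      (hh u x T)
      ((s.pr (dd u x T) (gb u x T * gb u x T) (VV u x T) (2 ^ (te u x T + 1))).sh o).f0
      ((s.pr (dd u x T) (gb u x T * gb u x T) (VV u x T) (2 ^ (te u x T + 1))).sh o).cm
      (TT u x T)).1 := by
  have e1 : sW s = s := by
    have h1 : min s.W (2 ^ (s.m.κ - 1)) = s.W :=
      min_eq_left (hW.trans (Nat.pow_le_pow_right (by norm_num) (by omega)))
    unfold sW
    rw [h1]
  have e2 : pp u x T s o = (s.pr (dd u x T) (gb u x T * gb u x T) (VV u x T)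
      (2 ^ (te u x T + 1))).sh o := by
    unfold pp
    rw [e1, Nat.mod_eq_of_lt ho]
  unfold FF
  rw [Q.eq _ _ (ok_mach hPRM _ _ _ _ _) (par_mach hPRM _ _ _ _ _)]
  rw [Pool.Agent.Helper28.Few.conf_eq, ← e2]
  have a1 : (mach u x T s o).A = (pp u x T s o).fA := by
    funext q
    show gg u x T * _ = _
    rw [hg, one_mul]
  have a2 : (mach u x T s o).N = (pp u x T s o).fN := by
    funext q v
    show gg u x T * _ = _
    rw [hg, one_mul]
  have a3 : (mach u x T s o).q0 = (pp u x T s o).f0 := by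
    show gg u x T * _ = _
    rw [hg, one_mul]
  rw [a1, a2, a3]
  rfl

theorem FS_FF (Q : Sim) (hPRM : PRM_stmt) (c y : ℕ) {u x T : ℕ} (hg : gg u x T = 1) :
    FS (bs c u x y T) (FF Q u x T) (dd u x T) (gb u x T * gb u x T) (VV u x T)
      (2 ^ (te u x T + 1)) (hh u x T) (TT u x T) := by
  obtain ⟨_, _, _, _, h5, h6, _, _, _, h10, _⟩ := hPRM.ok u x T
  refine ⟨h5, by positivity, h6, ?_, fun Ph W n L R c' f al hW o ho => ?_⟩
  · rw [hPRM.vv]
    exact h10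
  · exact FF_eq Q hPRM hg _ hW ho

/-- The check. -/
noncomputable def ck (Q : Sim) (c u x y T : ℕ) : ℕ → ℕ → ℕ → ℕ :=
  (bs c u x y T).chk (tw u x T) (rd u x T 6) (rd u x T 5) (dd u x T) (FF Q u x T)

/-- The final check. -/
noncomputable def fk (Q : Sim) (c u x y T : ℕ) : ℕ → ℕ → ℕ :=
  (bs c u x y T).ac1 (tw u x T) (rd u x T 6) (rd u x T 5) (dd u x T) (FF Q u x T)

/-- The configuration number `j`. -/
noncomputable def cj (Q : Sim) (c u x y T j : ℕ) : ℕ :=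
  itr (ck Q c u x y T) (2 ^ tw u x T) (nz (pG u x y T) (pe c u x y T)) j

/-- The simulation: not `0` if the machine with the code `u` accepts, with the bounds coded by
`T`. -/
noncomputable def acc (Q : Sim) (c u x y T : ℕ) : ℕ :=
  gg u x T * (lt01 0 (capN (rd u x T 0) (cfi u 4)) *
    ∑ j ∈ range (nz (pG u x y T) (pe c u x y T)), ∑ τ ∈ range (2 ^ tw u x T),
      lt01 0 (cj Q c u x y T j) * lt01 0 (fk Q c u x y T (cj Q c u x y T j) τ))

/-- The number of codes of bounds. -/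
def NF (x : ℕ) : ℕ := (Nat.log 2 x + 2) ^ 7

theorem LS.NF : LS RECT.NF := by
  unfold RECT.NF
  exact (LS.add (LS.log2 (by fun_prop)) (LS.const 2)).pow_const 7

theorem lt01_le (a b : ℕ) : lt01 a b ≤ 1 := by
  unfold lt01
  split_ifs <;> omega

theorem eq01_le (a b : ℕ) : eq01 a b ≤ 1 := by
  unfold eq01
  split_ifs <;> omega

theorem chk_le (s : Sp) (tw N k d : ℕ) (F : Sp → ℕ → ℕ) (c τ f : ℕ) :
    s.chk tw N k d F c τ f ≤ 1 := by
  unfold Sp.chk
  calc _ ≤ 1 * (1 * 1) := Nat.mul_le_mul (lt01_le _ _) (Nat.mul_le_mul (lt01_le _ _) (eq01_le _ _))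
    _ = 1 := rfl

theorem LS_FF (Q : Sim) (H : Parts) {β : Type} [Ctx β] (c : ℕ)
    {u x y T Ph W n L R c' f al o : β → ℕ} (hu : LS u) (hx : LS x) (hy : LS y) (hT : LS T)
    (hPh : LS Ph) (hW : LS W) (hn : LS n) (hL : LS L) (hR : LS R) (hc : LS c') (hf : LS f)
    (hal : LS al) (ho : LS o) :
    LS (fun z => FF Q (u z) (x z) (T z) ((bs c (u z) (x z) (y z) (T z)).put (Ph z) (W z) (n z)
      (L z) (R z) (c' z) (f z) (al z)) (o z)) := by
  have hb := H.prm.lsb β c u x y T hu hx hy hT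
  obtain ⟨g1, g2, g3, g4, g5, g6, g7, g8, g9⟩ := H.prm.ls β u x T hu hx hT
  have hκ : LS (fun z => 2 ^ ((bs c (u z) (x z) (y z) (T z)).m.κ - 1)) := by
    refine LS.pow_of_le (f := fun _ => 2) (LS.const 2) (LS.sub hb.m.κ (LS.const 1)) hb.m.hC
      fun z => le_trans (Nat.pow_le_pow_right (by norm_num) (by omega)) (hb.m.b4 z)
  have hW' : LS (fun z => min (W z) (2 ^ ((bs c (u z) (x z) (y z) (T z)).m.κ - 1))) :=
    LS.min hW hκ
  have ho' : LS (fun z => o z % dd (u z) (x z) (T z)) := LS.mod ho g6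
  have hpr := H.lss β (fun z => bs c (u z) (x z) (y z) (T z)) (fun z => CS c (x z)) hb Ph _ n L R
    c' f al _ _ _ _ _ hPh hW' hn hL hR hc hf hal g6 (LS.mul g3 g3) g5 g8 ho'
    (fun z => min_le_right _ _) (fun z => (H.prm.bd c (u z) (x z) (T z)).1)
    (fun z => (H.prm.bd c (u z) (x z) (T z)).2.1)
    (fun z => (H.prm.bd c (u z) (x z) (T z)).2.2.1)
    (fun z => Nat.mod_lt _ (H.prm.ok (u z) (x z) (T z)).2.2.2.2.1)
    (fun z => (H.prm.ok (u z) (x z) (T z)).2.2.2.2.2.1)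
    (fun z => by
      rw [H.prm.vv]
      exact (H.prm.ok (u z) (x z) (T z)).2.2.2.2.2.2.2.2.2.1)
  obtain ⟨f1, f2, f3, f4, f5⟩ := H.lsf β _ _ hpr
  have hCH : LS (fun z : β => CH (x z)) := by
    unfold CH
    exact (LS.add hx (LS.const 2)).pow_const 40000
  have hσ : LS (fun z => gg (u z) (x z) (T z) * VV (u z) (x z) (T z) + 1) :=
    LS.add (LS.mul g1 g5) (LS.const 1)
  have g1' : LS (fun z : β × ℕ => gg (u z.1) (x z.1) (T z.1)) :=
    LS.comp (g := fun z => gg (u z) (x z) (T z)) g1 LS.fst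
  have g1'' : LS (fun z : β × ℕ × ℕ => gg (u z.1) (x z.1) (T z.1)) :=
    LS.comp (g := fun z => gg (u z) (x z) (T z)) g1 LS.fst
  unfold FF
  refine Q.ls hx ?_ (fun z => par_mach H.prm _ _ _ _ _)
  refine ⟨hσ, LS.mul g3 g3, LS.div g3 hσ, g3, g2, LS.mul g1' f1, LS.mul g1'' f2, f3,
    LS.mul g1 f4, f5, hCH, fun z => ok_mach H.prm _ _ _ _ _,
    fun z => Q.nv _ _ (ok_mach H.prm _ _ _ _ _) (par_mach H.prm _ _ _ _ _), fun z => ?_⟩
  -- the number of steps in a macro step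
  have q1 := (par_mach H.prm (u z) (x z) (T z) ((bs c (u z) (x z) (y z) (T z)).put (Ph z) (W z)
    (n z) (L z) (R z) (c' z) (f z) (al z)) (o z)).hh
  refine le_trans ?_ (Pool.Agent.Helper28.Few.CR_le_CH (x z))
  unfold Pool.Agent.Helper81.Tok2.Mach.sv
  rw [← pow_mul]
  refine Pool.Agent.Helper28.Long.pow_le_CR (q1.trans ?_)
  have q2 := Pool.Agent.Helper28.Few.gH_le (Nat.log 2 (x z))
    (mach (u z) (x z) (T z) ((bs c (u z) (x z) (y z) (T z)).put (Ph z) (W z)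
    (n z) (L z) (R z) (c' z) (f z) (al z)) (o z)).h
  have q3 := Pool.Agent.Helper69.Ram.gR_le (Nat.log 2 (x z))
  omega

theorem LS.acc (Q : Sim) (H : Parts) (c : ℕ) :
    LS (fun z : ℕ × ℕ × ℕ × ℕ => acc Q c z.1 z.2.1 z.2.2.1 z.2.2.2) := by
  have he : LS (fun z : ℕ × ℕ × ℕ × ℕ => z.1) := by fun_prop
  have hx : LS (fun z : ℕ × ℕ × ℕ × ℕ => z.2.1) := by fun_prop
  have hy : LS (fun z : ℕ × ℕ × ℕ × ℕ => z.2.2.1) := by fun_prop
  have hT' : LS (fun z : ℕ × ℕ × ℕ × ℕ => z.2.2.2) := by fun_prop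
  have hb := H.prm.lsb _ c _ _ _ _ he hx hy hT'
  obtain ⟨g1, g2, g3, g4, g5, g6, g7, g8, g9⟩ := H.prm.ls _ _ _ _ he hx hT'
  have hnz := H.prm.nz _ c _ _ _ _ he hx hy hT'
  -- the simulation
  have hF : LS (fun z : (ℕ × ℕ × ℕ × ℕ) × ℕ × ℕ × ℕ × ℕ × ℕ × ℕ × ℕ × ℕ × ℕ =>
      FF Q z.1.1 z.1.2.1 z.1.2.2.2 ((bs c z.1.1 z.1.2.1 z.1.2.2.1 z.1.2.2.2).put z.2.1 z.2.2.1
        z.2.2.2.1 z.2.2.2.2.1 z.2.2.2.2.2.1 z.2.2.2.2.2.2.1
        z.2.2.2.2.2.2.2.1 z.2.2.2.2.2.2.2.2.1) z.2.2.2.2.2.2.2.2.2) := by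
    refine LS_FF Q H c ?_ ?_ ?_ ?_ ?_ ?_ ?_ ?_ ?_ ?_ ?_ ?_ ?_ <;> fun_prop
  obtain ⟨hck, hac⟩ := H.chl _ (fun z : ℕ × ℕ × ℕ × ℕ => bs c z.1 z.2.1 z.2.2.1 z.2.2.2) _ hb
    _ _ _ _ g4 (g7 6) (g7 5) g6 (fun z => (H.prm.bd c _ _ _).2.2.2) (fun z => H.prm.zz c _ _ _ _)
    (fun z => FF Q z.1 z.2.1 z.2.2.2) hF
  -- the sequence of configurations
  have hcj : LS (fun z : (ℕ × ℕ × ℕ × ℕ) × ℕ =>
      cj Q c z.1.1 z.1.2.1 z.1.2.2.1 z.1.2.2.2 z.2) := by
    unfold cj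
    refine Pool.Agent.Helper31.SusD.LS.itr (α := (ℕ × ℕ × ℕ × ℕ) × ℕ)
      (chk := fun z => ck Q c z.1.1 z.1.2.1 z.1.2.2.1 z.1.2.2.2)
      (LS.comp (g := fun z : ℕ × ℕ × ℕ × ℕ => 2 ^ tw z.1 z.2.1 z.2.2.2) g9 LS.fst)
      (LS.comp (g := fun z : ℕ × ℕ × ℕ × ℕ => nz (pG z.1 z.2.1 z.2.2.1 z.2.2.2)
        (pe c z.1 z.2.1 z.2.2.1 z.2.2.2)) hnz LS.fst) LS.snd ?_
        fun _ _ _ _ => chk_le _ _ _ _ _ _ _ _ _
    exact LS.comp (g := fun z : (ℕ × ℕ × ℕ × ℕ) × ℕ × ℕ × ℕ =>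
      ck Q c z.1.1 z.1.2.1 z.1.2.2.1 z.1.2.2.2 z.2.1 z.2.2.1 z.2.2.2)
      (f := fun z : ((ℕ × ℕ × ℕ × ℕ) × ℕ) × ℕ × ℕ × ℕ => (z.1.1, z.2.1, z.2.2.1, z.2.2.2)) hck
      (by fun_prop)
  have hin : LS (fun z : ((ℕ × ℕ × ℕ × ℕ) × ℕ) × ℕ =>
      lt01 0 (cj Q c z.1.1.1 z.1.1.2.1 z.1.1.2.2.1 z.1.1.2.2.2 z.1.2) *
      lt01 0 (fk Q c z.1.1.1 z.1.1.2.1 z.1.1.2.2.1 z.1.1.2.2.2
        (cj Q c z.1.1.1 z.1.1.2.1 z.1.1.2.2.1 z.1.1.2.2.2 z.1.2) z.2)) := by
    have hcj' : LS (fun z : ((ℕ × ℕ × ℕ × ℕ) × ℕ) × ℕ =>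
        cj Q c z.1.1.1 z.1.1.2.1 z.1.1.2.2.1 z.1.1.2.2.2 z.1.2) :=
      LS.comp (g := fun z : (ℕ × ℕ × ℕ × ℕ) × ℕ =>
        cj Q c z.1.1 z.1.2.1 z.1.2.2.1 z.1.2.2.2 z.2) hcj LS.fst
    refine LS.mul (LS.lt01 (LS.const 0) hcj') (LS.lt01 (LS.const 0) ?_)
    exact LS.comp (g := fun z : (ℕ × ℕ × ℕ × ℕ) × ℕ × ℕ =>
      fk Q c z.1.1 z.1.2.1 z.1.2.2.1 z.1.2.2.2 z.2.1 z.2.2)
      (f := fun z : ((ℕ × ℕ × ℕ × ℕ) × ℕ) × ℕ =>
        (z.1.1, cj Q c z.1.1.1 z.1.1.2.1 z.1.1.2.2.1 z.1.1.2.2.2 z.1.2, z.2)) hac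
      (LS.prodMk (by fun_prop) (LS.prodMk hcj' LS.snd))
  have hle : ∀ z : (ℕ × ℕ × ℕ × ℕ) × ℕ, ∀ τ,
      lt01 0 (cj Q c z.1.1 z.1.2.1 z.1.2.2.1 z.1.2.2.2 z.2) *
      lt01 0 (fk Q c z.1.1 z.1.2.1 z.1.2.2.1 z.1.2.2.2
        (cj Q c z.1.1 z.1.2.1 z.1.2.2.1 z.1.2.2.2 z.2) τ) ≤ 1 := by
    intro z τ
    calc _ ≤ 1 * 1 := Nat.mul_le_mul (lt01_le _ _) (lt01_le _ _)
      _ = 1 := rfl
  have hpow : LS (fun z : (ℕ × ℕ × ℕ × ℕ) × ℕ => 2 ^ tw z.1.1 z.1.2.1 z.1.2.2.2) :=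
    LS.comp (g := fun z : ℕ × ℕ × ℕ × ℕ => 2 ^ tw z.1 z.2.1 z.2.2.2) g9 LS.fst
  have hs1 := LS.sum_le (α := (ℕ × ℕ × ℕ × ℕ) × ℕ)
    (N := fun z => 2 ^ tw z.1.1 z.1.2.1 z.1.2.2.2) (B := fun _ => 1)
    (f := fun z τ => lt01 0 (cj Q c z.1.1 z.1.2.1 z.1.2.2.1 z.1.2.2.2 z.2) *
      lt01 0 (fk Q c z.1.1 z.1.2.1 z.1.2.2.1 z.1.2.2.2
        (cj Q c z.1.1 z.1.2.1 z.1.2.2.1 z.1.2.2.2 z.2) τ)) hin hpow (LS.const 1)
    fun z τ _ => hle z τ
  have hs2 := LS.sum_le (α := ℕ × ℕ × ℕ × ℕ)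
    (N := fun z => nz (pG z.1 z.2.1 z.2.2.1 z.2.2.2) (pe c z.1 z.2.1 z.2.2.1 z.2.2.2))
    (B := fun z => 2 ^ tw z.1 z.2.1 z.2.2.2)
    (f := fun z j => ∑ τ ∈ range (2 ^ tw z.1 z.2.1 z.2.2.2),
      lt01 0 (cj Q c z.1 z.2.1 z.2.2.1 z.2.2.2 j) *
      lt01 0 (fk Q c z.1 z.2.1 z.2.2.1 z.2.2.2
        (cj Q c z.1 z.2.1 z.2.2.1 z.2.2.2 j) τ)) hs1 hnz g9 fun z j _ => by
      refine (sum_le_sum (g := fun _ => 1) fun τ _ => hle (z, j) τ).trans ?_
      simp
  unfold RECT.acc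
  exact LS.mul g1 (LS.mul (LS.lt01 (LS.const 0) (LS.capN (g7 0) hb.m.st)) hs2)

/-! ### The parameters are right -/

theorem DD_eq {D : ℕ} (hD : 0 < D) {u x : ℕ} (hl : D ≤ ll (Nat.log 2 x)) (u0 : cfi u 0 = D) :
    DD u x = D := by
  unfold DD dm
  rw [u0, min_eq_left hl]
  exact max_eq_right hD

section

variable {D : ℕ} (A : OneHead D) {u c₀ eA eN eW T : ℕ} {w y : List Bool}

theorem par_pm (hPRM : PRM_stmt) (hD : 0 < D) (hl : D ≤ ll w.length) (u0 : cfi u 0 = D)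
    (u1 : cfi u 1 = eA) (u2 : cfi u 2 = eN) (u3 : cfi u 3 = eW) (u4 : cfi u 4 = num A.start)
    (hc : ∀ S < gR w.length, ∀ Z ≤ ZL w.length,
      c₀ * (8 * S + 8 * Z + 8) ≤ LW w.length ∧
      c₀ + LW w.length + 8 * S + 8 * Z + 8 ≤ 2 ^ (2 * ll w.length) ∧
      ∀ x, Nat.log 2 x = w.length → 2 ^ (S + 2) ≤ CR x ∧ 2 ^ (Z + 2) ≤ CR x) :
    Par A eA eN eW c₀ w y (pm u (num w) (num y) T) ∧
    Par A eA eN eW c₀ w y (pG u (num w) (num y) T) := by
  have hlog : Nat.log 2 (num w) = w.length := Pool.Agent.Helper65.LinSpace.log_num w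
  obtain ⟨_, _, _, h4, _, _, h7, _⟩ := hPRM.ok u (num w) T
  have hDD : DD u (num w) = D := DD_eq hD (by rw [hlog]; exact hl) u0
  rw [hlog] at h4
  obtain ⟨g1, g2, g3⟩ := hc (rd u (num w) T 0) (by omega) 0 (Nat.zero_le _)
  have b1 : c₀ * (4 * rd u (num w) T 0 + 8) ≤ LW (Nat.log 2 (num w)) := by
    rw [hlog]
    exact le_trans (Nat.mul_le_mul_left _ (by omega)) g1
  have b2 : c₀ + LW (Nat.log 2 (num w)) + 4 * rd u (num w) T 0 + 8 ≤
      2 ^ (2 * ll (Nat.log 2 (num w))) := by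
    rw [hlog]
    omega
  have b3 : 2 ^ (rd u (num w) T 0 + 1) ≤ CR (num w) :=
    le_trans (Nat.pow_le_pow_right (by norm_num) (by omega)) (g3 (num w) hlog).1
  have b4 : (rd u (num w) T 0 + 1) * 1 ^ D ≤ rd u (num w) T 0 + 1 := by
    rw [one_pow, mul_one]
  exact ⟨⟨u1, u2, u3, u4, rfl, rfl, hDD, hD, Nat.succ_pos _, Nat.one_pos, rfl, b4, b1, b2, b3⟩,
    ⟨u1, u2, u3, u4, rfl, rfl, hDD, hD, Nat.succ_pos _, Nat.one_pos, rfl, b4, b1, b2, b3⟩⟩

theorem bas_bs (hPRM : PRM_stmt) (c : ℕ) (hD : 0 < D)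
    (hP : Par A eA eN eW c₀ w y (pm u (num w) (num y) T) ∧
      Par A eA eN eW c₀ w y (pG u (num w) (num y) T)) (hF : Fns A (pm u (num w) (num y) T)) :
    Bas A w y (bs c u (num w) (num y) T) (rd u (num w) T 6) :=
  ⟨hD, ⟨eA, eN, eW, c₀, hP.1⟩, ⟨eA, eN, eW, c₀, hP.2⟩, hF, rfl, rfl, rfl,
    Nat.le_add_left 2 (rd u (num w) T 3), (hPRM.ok u (num w) T).2.2.2.2.2.2.2.2.1⟩

end

/-! ### Soundness -/

theorem sound (Q : Sim) (H : Parts) {D : ℕ} (hD : 0 < D) {A : OneHead D}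
    {eA eN eW c₀ c u T : ℕ} {w y : List Bool}
    (hP : Par A eA eN eW c₀ w y (pm u (num w) (num y) T) ∧
      Par A eA eN eW c₀ w y (pG u (num w) (num y) T))
    (hF : Fns A (pm u (num w) (num y) T)) (h : acc Q c u (num w) (num y) T ≠ 0) :
    ∃ r, A.AcceptsAt w y r := by
  unfold acc at h
  have hg : gg u (num w) T = 1 := by
    have h1 := (H.prm.ok u (num w) T).1
    have h2 := left_ne_zero_of_mul h
    omega
  have h1 := right_ne_zero_of_mul h
  have h2 := lt_ne.1 (left_ne_zero_of_mul h1)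
  have h3 := right_ne_zero_of_mul h1
  have hst : A.start.length ≤ (pG u (num w) (num y) T).S := by
    have h4 : cfi u 4 = num A.start := hP.1.h_st
    rw [h4] at h2
    exact Pool.Agent.Helper11.Ram.capN_num_le h2
  have h0 := H.dsc.start A eA eN eW c₀ w y _ (pe c u (num w) (num y) T) hP.2 hst
  have hB := bas_bs A H.prm c hD hP hF
  have hFS := FS_FF Q H.prm c (num y) hg
  rw [Ne, sum_eq_zero_iff] at h3
  push Not at h3
  obtain ⟨j, _, h3⟩ := h3
  rw [Ne, sum_eq_zero_iff] at h3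
  push Not at h3
  obtain ⟨τ, hτ, h3⟩ := h3
  have h4 := lt_ne.1 (left_ne_zero_of_mul h3)
  have h5 := lt_ne.1 (right_ne_zero_of_mul h3)
  rcases itr_sound (chk := ck Q c u (num w) (num y) T) (N := 2 ^ tw u (num w) T)
    (Z := nz (pG u (num w) (num y) T) (pe c u (num w) (num y) T))
    (R := fun c' t => Rep (pG u (num w) (num y) T) (pe c u (num w) (num y) T) c' (A.conf w y t))
    h0 (fun c' t τ d hR hτ' hck => (H.chs.chk A w y _ _ _ _ _ _ _ _ _ _ _ hB hFS c' d t τ hR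
      hτ' hck).1) j with h6 | ⟨t, h6⟩
  · exact absurd h6 h4
  · exact ⟨_, H.chs.ac1 A w y _ _ _ _ _ _ _ _ _ _ _ hB hFS _ t τ h6 (mem_range.1 hτ) h5⟩

/-! ### Completeness -/

theorem complete (Q : Sim) (H : Parts) {D : ℕ} (hD : 0 < D) {A : OneHead D} {E : Decomp}
    {eA eN eW c₀ c u : ℕ} {w y : List Bool} (hl : D ≤ ll w.length) (u0 : cfi u 0 = D)
    (hPar : ∀ T, Par A eA eN eW c₀ w y (pm u (num w) (num y) T) ∧
      Par A eA eN eW c₀ w y (pG u (num w) (num y) T))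
    (hFns : ∀ T, Fns A (pm u (num w) (num y) T))
    (hCodE : ∀ T, CodE E (pe c u (num w) (num y) T)) {r s g a b x h k N : ℕ}
    (hacc : A.AcceptsAt w y r) (hfit : A.Fits w y r s) (hbox : ∀ t ≤ r, Box g (A.conf w y t).h)
    (hcut : ∀ t t' : ℕ, t ≤ t' → t' ≤ r →
      (∀ u, t < u → u < t' → ¬Short A E w y g a (c * w.length) u) →
      Cut A w y s b x h k N t t')
    (q1 : gd w.length D s g a b h k N = 1) (q2 : s < w.length + 2) (q3 : g < w.length + 2)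
    (q4 : a < w.length + 2) (q5 : b < w.length + 2) (q6 : h < w.length + 2)
    (q7 : k < w.length + 2) (q8 : N < w.length + 2)
    (q9 : 2 ^ h * (x + 1) < 2 ^ (h + (4 * ll w.length + 5)))
    (q10 : 2 * D * (2 * (x + 2 * N) + 1) + (4 * (2 * N) + 5) * sd2 (gH w.length (h + 1)) s D ≤
      sd2 (gH w.length (h + 1)) s D * (gH w.length (h + 1) * (gH w.length (h + 1) *
        (gH w.length (h + 1) / (vb w.length D s b h + 1))))) :
    ∃ T < NF (num w), acc Q c u (num w) (num y) T ≠ 0 := by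
  classical
  have hlog : Nat.log 2 (num w) = w.length := Pool.Agent.Helper65.LinSpace.log_num w
  -- the code of the bounds
  obtain ⟨f, hf⟩ : ∃ f : ℕ → ℕ, f = fun i => if i = 0 then s else if i = 1 then g else
    if i = 2 then a else if i = 3 then b else if i = 4 then h else if i = 5 then k else N :=
      ⟨_, rfl⟩
  have hlt : ∀ i < 7, f i < w.length + 2 := by
    intro i _
    rw [hf]
    show (if i = 0 then s else if i = 1 then g else if i = 2 then a else if i = 3 then b else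
      if i = 4 then h else if i = 5 then k else N) < _
    split_ifs <;> assumption
  obtain ⟨T, hT⟩ : ∃ T, T = tab (w.length + 2) 7 f := ⟨_, rfl⟩
  have hd : ∀ i < 7, dg (num w) T i = f i := by
    intro i hi
    unfold dg
    rw [hlog, hT, dig_tab hlt hi]
  have d0 : dg (num w) T 0 = s := by rw [hd 0 (by omega), hf]; rfl
  have d1 : dg (num w) T 1 = g := by rw [hd 1 (by omega), hf]; rfl
  have d2 : dg (num w) T 2 = a := by rw [hd 2 (by omega), hf]; rfl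
  have d3 : dg (num w) T 3 = b := by rw [hd 3 (by omega), hf]; rfl
  have d4 : dg (num w) T 4 = h := by rw [hd 4 (by omega), hf]; rfl
  have d5 : dg (num w) T 5 = k := by rw [hd 5 (by omega), hf]; rfl
  have d6 : dg (num w) T 6 = N := by rw [hd 6 (by omega), hf]; rfl
  have hDD : DD u (num w) = D := DD_eq hD (by rw [hlog]; exact hl) u0
  have hgg : gg u (num w) T = 1 := by
    unfold gg
    rw [hDD, hlog, d0, d1, d2, d3, d4, d5, d6]
    exact q1
  have r0 : rd u (num w) T 0 = s := by unfold rd; rw [hgg, d0, one_mul]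
  have r1 : rd u (num w) T 1 = g := by unfold rd; rw [hgg, d1, one_mul]
  have r2 : rd u (num w) T 2 = a := by unfold rd; rw [hgg, d2, one_mul]
  have r3 : rd u (num w) T 3 = b := by unfold rd; rw [hgg, d3, one_mul]
  have r4 : rd u (num w) T 4 = h := by unfold rd; rw [hgg, d4, one_mul]
  have r5 : rd u (num w) T 5 = k := by unfold rd; rw [hgg, d5, one_mul]
  have r6 : rd u (num w) T 6 = N := by unfold rd; rw [hgg, d6, one_mul]
  have ehh : hh u (num w) T = h + 1 := by unfold hh; rw [hgg, d4, one_mul]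
  have egb : gb u (num w) T = gH w.length (h + 1) := by unfold gb; rw [ehh, hlog]
  have ete : te u (num w) T = h + (4 * ll w.length + 5) := by unfold te; rw [r4, hlog]
  have etw : tw u (num w) T = te u (num w) T + k := by unfold tw; rw [r5]
  have eVV : VV u (num w) T = vb w.length D s b h := by
    unfold VV
    rw [hlog, hDD, r0, r3, r4]
  have edd : dd u (num w) T = sd2 (gH w.length (h + 1)) s D := by
    unfold dd
    rw [egb, r0, hDD]
  have eTT : TT u (num w) T = gH w.length (h + 1) * (gH w.length (h + 1) *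
      (gH w.length (h + 1) / (vb w.length D s b h + 1))) := by
    unfold TT
    rw [egb, eVV, hgg, one_mul]
  obtain ⟨S, hS⟩ : ∃ S, S = bs c u (num w) (num y) T := ⟨_, rfl⟩
  have eS : S.m.S = s := by rw [hS]; exact r0
  have eκ : S.m.κ = b + 2 := by
    rw [hS]
    show rd u (num w) T 3 + 2 = _
    rw [r3]
  have eκG : S.G.κ = g + 1 := by
    rw [hS]
    show rd u (num w) T 1 + 1 = _
    rw [r1]
  have eD : S.m.D = D := by rw [hS]; exact hDD
  have eπ : S.π = g + k + b + 2 := by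
    rw [hS]
    show pb u (num w) T = _
    unfold pb
    rw [r1, r5, r3]
  have ete' : S.te = te u (num w) T := by rw [hS]; rfl
  have eZ : S.e.Z = a := by rw [hS]; exact r2
  have ez : S.e.z = c * w.length := by
    rw [hS]
    show c * Nat.log 2 (num w) = _
    rw [hlog]
  have hB := bas_bs A H.prm c hD (hPar T) (hFns T)
  have hFS := FS_FF Q H.prm c (num y) hgg
  have hP := (hPar T).2
  have hE := hCodE T
  rw [← hS, r6] at hB
  rw [← hS, ehh] at hFS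
  -- the first accepting time
  have hex : ∃ t, A.AcceptsAt w y t := ⟨r, hacc⟩
  obtain ⟨r₀, hr₀, hmin, hle⟩ : ∃ r₀, A.AcceptsAt w y r₀ ∧ (∀ t < r₀, ¬A.AcceptsAt w y t) ∧
      r₀ ≤ r := ⟨Nat.find hex, Nat.find_spec hex, fun t ht => Nat.find_min hex ht,
        Nat.find_min' hex hacc⟩
  have hcpl : Cpl A w y S N (tw u (num w) T) k (dd u (num w) T) (gb u (num w) T * gb u (num w) T)
      (VV u (num w) T) (2 ^ (te u (num w) T + 1)) b g h x r₀ (TT u (num w) T)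
      (FF Q u (num w) T) := by
    refine ⟨hB, hFS, eκ, eκG, by rw [eπ], ?_, ?_, ?_, ?_, hr₀, hmin, ?_, fun t ht => hbox t
      (by omega)⟩
    · rw [ete', ete]
      exact q9
    · rw [ete', etw]
    · rw [ete, pow_succ, pow_succ]
      have h1 : 2 ^ h * 2 * (x + 1) = 2 ^ h * (x + 1) * 2 := by ring
      rw [h1]
      exact Nat.mul_le_mul_right _ q9.le
    · rw [eD, edd, eTT]
      exact q10
    · rw [eS]
      intro t' ht'
      exact hfit t' (by omega)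
  have hst : A.start.length ≤ S.G.S := by
    rw [hB.S, eS]
    exact (hfit 0 (Nat.zero_le _)).1
  have hGe : S.G = pG u (num w) (num y) T := by rw [hS]; rfl
  have hee : S.e = pe c u (num w) (num y) T := by rw [hS]; rfl
  rw [← hGe] at hP
  rw [← hee] at hE
  have h0 : Rep S.G S.e 1 (A.conf w y 0) := H.dsc.start A eA eN eW c₀ w y S.G S.e hP hst
  have hnz : 1 < nz S.G S.e := by
    unfold nz
    omega
  obtain ⟨j, hj, hj0, τ, hτ, hac⟩ := itr_complete (chk := ck Q c u (num w) (num y) T)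
    (ac := fk Q c u (num w) (num y) T) (N := 2 ^ tw u (num w) T) (Z := nz S.G S.e) (r := r₀)
    (R := fun c' t => Rep S.G S.e c' (A.conf w y t)) hnz h0 (fun c' t hR => hR.ne)
    (fun c' t τ d hR hτ' hck => by
      unfold ck at hck
      rw [← hS, r6, r5] at hck
      exact H.chs.chk A w y S _ _ _ _ _ _ _ _ _ _ hB hFS c' d t τ hR hτ' hck)
    (fun c' t hR ht => by
      by_cases hsh : ∃ v, t < v ∧ v ≤ r₀ ∧ Short A E w y g a (c * w.length) v
      · right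
        obtain ⟨v, ⟨hv1, hv2, hv3⟩, hv4⟩ : ∃ v, (t < v ∧ v ≤ r₀ ∧
            Short A E w y g a (c * w.length) v) ∧ ∀ v' < v, ¬(t < v' ∧ v' ≤ r₀ ∧
            Short A E w y g a (c * w.length) v') :=
          ⟨Nat.find hsh, Nat.find_spec hsh, fun v' hv' => Nat.find_min hsh hv'⟩
        have hexd : S.e.x = num w := by rw [hS]; rfl
        have heyd : S.e.y = num y := by rw [hS]; rfl
        obtain ⟨d, hd1, hd2, hd3⟩ := H.dsc.short A E eA eN eW c₀ w y S.G S.e hP hE hexd heyd g v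
          eκG (by rw [hB.S, eS]; exact (hfit v (by omega)).1) (hbox v (by omega))
          (by rw [eZ, ez]; exact hv3)
        obtain ⟨g1, g2⟩ := H.chc.chk A w y S _ _ _ _ _ _ _ _ _ _ _ _ _ _ hcpl c' d t v hv1 hv2
          (by
            rw [eS]
            exact hcut t v hv1.le (by omega)
              fun u' hu1 hu2 hu3 => hv4 u' hu2 ⟨hu1, by omega, hu3⟩) hR hd3
        refine ⟨v - t, g2, d, hd2, by omega, ?_⟩
        unfold ck
        rw [← hS, r6, r5]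
        exact g1
      · left
        push Not at hsh
        obtain ⟨g1, g2⟩ := H.chc.ac1 A w y S _ _ _ _ _ _ _ _ _ _ _ _ _ _ hcpl c' t ht
          (by
            rw [eS]
            exact hcut t r₀ ht hle fun u' hu1 hu2 hu3 => hsh u' hu1 (by omega) hu3) hR
        refine ⟨r₀ - t, g2, ?_⟩
        unfold fk
        rw [← hS, r6, r5]
        exact g1)
  refine ⟨T, ?_, ?_⟩
  · unfold NF
    rw [hlog, hT]
    exact tab_lt hlt
  · unfold acc
    rw [hgg, one_mul]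
    refine mul_ne_zero (lt_ne.2 ?_) ?_
    · have h4 : cfi u 4 = num A.start := hP.h_st ▸ (by rw [hGe]; rfl)
      rw [r0, h4, ← eS, ← hB.S, capN_num hst]
      exact (num_pos _).ne'
    · intro hsum
      rw [sum_eq_zero_iff] at hsum
      have h1 := hsum j (mem_range.2 (by rw [← hGe, ← hee]; exact hj))
      rw [sum_eq_zero_iff] at h1
      have h2 := h1 τ (mem_range.2 hτ)
      unfold cj at h2
      rw [← hGe, ← hee] at h2
      exact mul_ne_zero (lt_ne.2 hj0) (lt_ne.2 hac) h2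

theorem exists_good (Q : Sim) (H : Parts) (c : ℕ) {D : ℕ} (hD : 0 < D) (A : OneHead D)
    (E : Decomp) (C : ℝ) : ∃ u n₀ : ℕ, ∀ w y : List Bool, n₀ ≤ w.length →
    (∀ T < NF (num w), acc Q c u (num w) (num y) T ≠ 0 → ∃ r, A.AcceptsAt w y r) ∧
    (Within A E c C w y → ∃ T < NF (num w), acc Q c u (num w) (num y) T ≠ 0) := by
  obtain ⟨eA, eN, eW, eD, eX, c₀, hcod⟩ := H.cod A E
  obtain ⟨u, hu⟩ := Pool.Agent.Helper28.OHS.exists_code (fun i => if i = 0 then D else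
    if i = 1 then eA else if i = 2 then eN else if i = 3 then eW else
    if i = 4 then num A.start else if i = 5 then eD else eX) 7
  obtain ⟨n₀, hn₀⟩ := eventually_atTop.1 (ev_cod c₀)
  obtain ⟨n₁, hn₁⟩ := eventually_atTop.1 (H.par D C hD)
  obtain ⟨n₂, hn₂⟩ := eventually_atTop.1 (Pool.Agent.Helper78.Mpc.ev_ll_ge D)
  refine ⟨u, n₀ + n₁ + n₂, fun w y hw => ?_⟩
  have hl : D ≤ ll w.length := hn₂ w.length (by omega)
  have hlog : Nat.log 2 (num w) = w.length := Pool.Agent.Helper65.LinSpace.log_num w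
  have hc := hn₀ w.length (by omega)
  have hPar : ∀ T, Par A eA eN eW c₀ w y (pm u (num w) (num y) T) ∧
      Par A eA eN eW c₀ w y (pG u (num w) (num y) T) := fun T =>
    par_pm A H.prm hD hl (hu 0 (by omega)) (hu 1 (by omega)) (hu 2 (by omega)) (hu 3 (by omega))
      (hu 4 (by omega)) hc
  have hcE : ∀ T, Fns A (pm u (num w) (num y) T) ∧ CodE E (pe c u (num w) (num y) T) := by
    intro T
    obtain ⟨_, _, _, _, _, _, _, h7, _⟩ := H.prm.ok u (num w) T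
    rw [hlog] at h7
    have hgR : 0 < gR w.length := Pool.Agent.Helper54.OH.gR_pos _
    obtain ⟨g1, g2, g3⟩ := hc 0 hgR _ h7
    have hZ : (pe c u (num w) (num y) T).Z = rd u (num w) T 2 := rfl
    refine hcod w y _ _ (hPar T).1 (hu 5 (by omega)) (hu 6 (by omega)) ?_ ?_ (g3 _ hlog).2
    · show _ ≤ LW (Nat.log 2 (num w))
      rw [hlog]
      exact le_trans (Nat.mul_le_mul_left _ (by omega)) g1
    · show c₀ + LW (Nat.log 2 (num w)) + _ + 8 ≤ 2 ^ (2 * ll (Nat.log 2 (num w)))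
      rw [hlog]
      omega
  refine ⟨fun T _ hT => sound Q H hD (hPar T) (hcE T).1 hT, ?_⟩
  rintro ⟨r, s, g, a, b, x, h, k, N, hacc, hfit, hbox, hcut, b1, b2, b3, b4⟩
  obtain ⟨q1, q2, q3, q4, q5, q6, q7, q8, q9, q10⟩ := hn₁ w.length (by omega) x s g a b h k N
    (one_le_of_accepts hfit hacc) b1 b2 b3 b4
  exact complete Q H hD hl (hu 0 (by omega)) hPar (fun T => (hcE T).1) (fun T => (hcE T).2) hacc
    hfit hbox hcut q1 q2 q3 q4 q5 q6 q7 q8 q9 q10

/-- **Average-case hardness for machines with one head, with any running time and space.** -/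
theorem rect_main (Qs : Sim) (H : Parts) (c : ℕ) (hc : 0 < c) :
    ∃ L : Set (List Bool), DLINSPACE L ∧
      ∀ (D : ℕ), 0 < D → ∀ (A : OneHead D) (E : Decomp) (C : ℝ), ∃ c' : ℝ,
        ∀ (n : ℕ) (α : List Bool), ∀ M, M = L ∨ M = Lᶜ →
        ({w : List Bool | w.length = n ∧
          (Q (c * n) (fun v => ∃ r, A.AcceptsAt w (α ++ v) r) → w ∈ M) ∧
          (w ∈ M → Q (c * n) fun v => Within A E c C w (α ++ v))}.ncard : ℝ) ≤
          2 ^ n / 2 + c' * ((α.length : ℝ) + 1) * 2 ^ (((n : ℝ) + α.length / c) / 2) := by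
  obtain ⟨L, h1, h4⟩ := q_main (acc Qs c) NF (LS.acc Qs H c) LS.NF c c hc
  exact ⟨L, h1, fun D hD A E C => h4 (fun w y => ∃ r, A.AcceptsAt w y r) (Within A E c C)
    (exists_good Qs H c hD A E C)⟩

/-- Languages accepted by such machines with one head are in linear space. -/
theorem rect_lin (Qs : Sim) (H : Parts) (c : ℕ) {D : ℕ} (hD : 0 < D) (A : OneHead D)
    (E : Decomp) (L : Set (List Bool)) (C : ℝ)
    (h1 : ∀ w, Q (c * w.length) (fun v => ∃ r, A.AcceptsAt w v r) → w ∈ L)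
    (h2 : ∀ w ∈ L, Q (c * w.length) (Within A E c C w)) : DLINSPACE L :=
  q_lin (acc Qs c) NF (LS.acc Qs H c) LS.NF c L (fun w y => ∃ r, A.AcceptsAt w y r)
    (Within A E c C) (exists_good Qs H c hD A E C) h1 h2

end Pool.Agent.Helper92.RECT
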