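import Pool.Agent.Helper92.RECT.Cor
import Pool.Agent.Helper92.RECTL.LSS
import Pool.Agent.Helper65.OH2.Final
import Pool.Agent.Helper28.OHS.Final
import Pool.Agent.Helper13.RECT.GRID
import Pool.Agent.Helper96.RECT.INL
import Pool.Agent.Helper86.RECT.STT
import Pool.Agent.Helper86.RECT.LIS
import Pool.Agent.Helper50.RECT.SND
import Pool.Agent.Helper50.RECT.PTC
import Pool.Agent.Helper50.RECT.WND2
import Pool.Agent.Helper19.RECT.CMP
import Pool.Agent.Helper19.RECT.OKS
import Pool.Agent.Helper15.RECT.CRO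
import Pool.Agent.Helper15.RECT.CHS
import Pool.Agent.Helper56.RECT.WIN
import Pool.Agent.Helper16.RECT.LSF
import Pool.Agent.Helper9.RECT.GLUE
import Pool.Agent.Helper9.RECT.FCK
import Pool.Agent.Helper30.RECT.REAL
import Pool.Agent.Helper39.RECT.WBN
import Pool.Agent.Helper39.RECT.STN
import Pool.Agent.Helper2.RECT.LOPS
import Pool.Agent.Helper3.RECT.RUN
import Pool.Agent.Helper14.RECT.RNS
import Pool.Agent.Helper8.RECT.STA
import Pool.Agent.Helper94.RECT.SLS
import Pool.Agent.Helper12.RECT.SLC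
import Pool.Agent.Helper32.RECT.PTH
import Pool.Agent.Helper22.RECT.REG
import Pool.Agent.Helper33.RECT.PTS
import Pool.Agent.Helper46.RECT.PRM
import Pool.Agent.Helper61.RECT.CHC
import Pool.Agent.Helper61.RECT.PAR
import Pool.Agent.Helper98.RECT.CHL

/-!
# Machines with one head, descriptions of the tape and slabs: all the parts
-/

namespace Pool.Agent.Helper92.RECT

open Pool.Agent.Helper65.LinSpace Pool.Agent.Helper65.OH
open Pool.Agent.Helper81.Sus2 (Decomp)
open Pool.Agent.Helper81.Gen4 (Q)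

theorem stt0 : STT_stmt := Pool.Agent.Helper86.RECT.stt Pool.Agent.Helper13.RECT.grid
  Pool.Agent.Helper13.RECT.rng (Pool.Agent.Helper96.RECT.inl Pool.Agent.Helper13.RECT.grid
    Pool.Agent.Helper13.RECT.rng)

theorem win0 : WIN_stmt := Pool.Agent.Helper56.RECT.win Pool.Agent.Helper13.RECT.grid
  (Pool.Agent.Helper19.RECT.cmp stt0) Pool.Agent.Helper15.RECT.cro

theorem wbn0 : WBN_stmt := Pool.Agent.Helper39.RECT.wbn Pool.Agent.Helper30.RECT.real

theorem run0 : RUN_stmt := Pool.Agent.Helper3.RECT.run Pool.Agent.Helper14.RECT.rns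
  Pool.Agent.Helper8.RECT.sta Pool.Agent.Helper39.RECT.stn Pool.Agent.Helper30.RECT.real wbn0

theorem sls0 : SLS_stmt := Pool.Agent.Helper94.RECT.sls (Pool.Agent.Helper50.RECT.snd stt0)
  Pool.Agent.Helper14.RECT.rns Pool.Agent.Helper8.RECT.sta Pool.Agent.Helper39.RECT.stn
  Pool.Agent.Helper9.RECT.fck

theorem slc0 : SLC_stmt := Pool.Agent.Helper12.RECT.slc run0 Pool.Agent.Helper14.RECT.rns
  Pool.Agent.Helper39.RECT.stn Pool.Agent.Helper9.RECT.fck Pool.Agent.Helper30.RECT.real wbn0 win0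

theorem pts0 : PTS_stmt := Pool.Agent.Helper33.RECT.pts Pool.Agent.Helper32.RECT.pth
  Pool.Agent.Helper22.RECT.reg sls0 Pool.Agent.Helper9.RECT.glue Pool.Agent.Helper86.RECT.lis
  Pool.Agent.Helper9.RECT.fck

/-- All the parts. -/
theorem parts : Parts where
  chs := Pool.Agent.Helper15.RECT.chs pts0
  chc := Pool.Agent.Helper61.RECT.chc (Pool.Agent.Helper50.RECT.ptc Pool.Agent.Helper22.RECT.reg
    slc0 Pool.Agent.Helper86.RECT.lis Pool.Agent.Helper2.RECT.lops)
  dsc := Pool.Agent.Helper28.OHS.parts.dsc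
  cod := Pool.Agent.Helper28.OHS.parts.cod
  lsf := Pool.Agent.Helper16.RECT.lsf
  lss := lss Pool.Agent.Helper19.RECT.oks
  chl := Pool.Agent.Helper98.RECT.chl
  prm := Pool.Agent.Helper46.RECT.prm
  par := Pool.Agent.Helper61.RECT.par

/-- The bounds of windows follow from the bounds of slabs. -/
theorem wnd2 : WND2_stmt := Pool.Agent.Helper50.RECT.wnd2

/-- **Machines with one head, of any time and space.** -/
theorem rect (c : ℕ) (hc : 0 < c) :
    (∀ (D : ℕ), 0 < D → ∀ (A : OneHead D) (E : Decomp) (L : Set (List Bool)) (C : ℝ),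
      (∀ w, Q (c * w.length) (fun v => ∃ r, A.AcceptsAt w v r) → w ∈ L) →
      (∀ w ∈ L, Q (c * w.length) (Within A E c C w)) → DLINSPACE L) ∧
    ∃ L : Set (List Bool), DLINSPACE L ∧
      ∀ (D : ℕ), 0 < D → ∀ (A : OneHead D) (E : Decomp) (C : ℝ), ∃ c' : ℝ,
        ∀ (n : ℕ) (α : List Bool), ∀ M, M = L ∨ M = Lᶜ →
          ({w : List Bool | w.length = n ∧
            (Q (c * n) (fun v => ∃ r, A.AcceptsAt w (α ++ v) r) → w ∈ M) ∧
            (w ∈ M → Q (c * n) fun v => Within A E c C w (α ++ v))}.ncard : ℝ) ≤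
          2 ^ n / 2 + c' * ((α.length : ℝ) + 1) * 2 ^ (((n : ℝ) + α.length / c) / 2) :=
  ⟨fun _ hD A E L C => rect_lin Pool.Agent.Helper65.OH.simP parts c hD A E L C,
    rect_main Pool.Agent.Helper65.OH.simP parts c hc⟩

end Pool.Agent.Helper92.RECT
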