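import Pool.Agent.Helper92.RECT.Loc

/-!
# The local processes of slabs: statements on words

Every statement comes with its proof in words.
-/

namespace Pool.Agent.Helper92.RECT

open Pool.Agent.Helper65.LinSpace Pool.Agent.Helper78.Mpc Pool.Agent.Helper28.Ram Finset
open Pool.Agent.Helper65.OH

/-- The final configuration `X` of the local process of the slab from `P` to `P'` is right for the
configuration `C` of the machine. -/
structure Loc {D : ℕ} (P P' : ℤ) (X : LConf D) (C : Conf D) : Prop where
  ne : X.md ≠ 0
  md : X.md = 1 ↔ P ≤ fst C.h ∧ fst C.h < P'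
  st : X.md = 1 → X.C.q = C.q ∧ X.C.h = shf (-P) C.h
  ct : ∀ p, P ≤ fst p → fst p < P' → X.C.M (shf (-P) p) = C.M p

/-- GLUE. Soundness of the cuts. Let `σ i` be the slab number `i`, `Y i j` the configuration of its local
process after `j` steps. (0) A failure is kept by `lstep`, and after `LFin` the next step is a failure (mode
`1`: `t = n`; modes `2`, `3`: there is no record), so for `j ≤ e i` the mode is not `0`, and `LFin` is true
at no `j < e i`. (1) Invariant for `τ ≤ ∑ n i`: there are `f i ≤ e i` such that for `X i = Y i (f i)` and the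
configuration `C` at the time `t₀ + τ`: `∑ (X i).t = τ`; `P 0 ≤ fst C.h < P K`; the mode of `X i` is `1`, `2`, `3` if
the head is in, on the left, on the right of the slab `i`; if it is `1` then state and (shifted) position
are those of `C`; the contents of the cells of the slab are those of `C`; and `(X i).j = (X (i + 1)).i` for
`i + 1 < K`. Start: `f = 0`. (2) Let `m` be the slab with the head. If `LFin (X m)` then `LFin (X i)` for all `i`
and `f = e`: for `i = m + 1` the mode is `2`, and `L i (X i).i = L (m + 1) (X m).j = none`, so the next step of the slab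
`i` is a failure, `f i = e i`; and so on to the right, and in the same way to the left. (3) If `τ < ∑ n i`
then not `LFin (X m)`: otherwise `(X i).t = n i` for all `i`. So `f m < e m`, and the next step of the slab `m` is
not a failure: it is `inner` with one of its three successes. Inside: `f m` increases by one. To the
left: `L m (X m).i` is the record of the new configuration, so `m ≠ 0`; the head moves by at most one cell
(`mv` is `-1`, `0` or `1`), so its new first coordinate is `P m - 1`; the slab `m - 1` has the mode `3`, its list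
has this record at the index `(X (m - 1)).j = (X m).i`, so it is not `LFin`, `f (m - 1) < e (m - 1)`, and its next
step takes the record: mode `1`, the position `set0 _ (W - 1)` is the new position shifted. Both `f m` and
`f (m - 1)` increase by one. To the right in the same way. The machine changes only the cell on which
the head is, in the slab `m`. (4) At `τ = ∑ n i`: `t` never decreases and is `n i` at the end, so
`(X i).t ≤ n i`, hence `(X i).t = n i` for all `i`. If `X m` is not `LFin` then its next step increases `t` above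
`n m`, which is not possible. So by (2) `f = e`, and the invariant is the claim. (The first claim is
the invariant at the time `u`, for the slab `m` with the head and `j = f m`.) -/
def GLUE_stmt : Prop := ∀ {D : ℕ}, 0 < D → ∀ (A : OneHead D) (w y : List Bool) (t₀ K : ℕ)
    (P : ℕ → ℤ) (L : ℕ → ℕ → Option (List Bool × (Fin D → ℤ))) (n e : ℕ → ℕ),
    (∀ i < K, P i < P (i + 1)) → In A w y (P 0) (P K) t₀ →
    (∀ m, L 0 m = none) → (∀ m, L K m = none) →
    (∀ i < K, LFin ⟨P (i + 1) - P i, n i, L i, L (i + 1)⟩
      (lconf A w y ⟨P (i + 1) - P i, n i, L i, L (i + 1)⟩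
        (lcf (P i) (P (i + 1)) 0 0 0 (A.conf w y t₀)) (e i))) →
    (∀ u, t₀ ≤ u → u ≤ t₀ + ∑ i ∈ range K, n i → ∃ i < K, In A w y (P i) (P (i + 1)) u ∧
      ∃ j ≤ e i, (lconf A w y ⟨P (i + 1) - P i, n i, L i, L (i + 1)⟩
        (lcf (P i) (P (i + 1)) 0 0 0 (A.conf w y t₀)) j).md = 1 ∧
        (lconf A w y ⟨P (i + 1) - P i, n i, L i, L (i + 1)⟩
        (lcf (P i) (P (i + 1)) 0 0 0 (A.conf w y t₀)) j).C.h = shf (-P i) (A.conf w y u).h) ∧
    ∀ i < K, Loc (P i) (P (i + 1))
      (lconf A w y ⟨P (i + 1) - P i, n i, L i, L (i + 1)⟩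
        (lcf (P i) (P (i + 1)) 0 0 0 (A.conf w y t₀)) (e i))
      (A.conf w y (t₀ + ∑ i ∈ range K, n i))

/-- REAL. The local process follows the machine. Induction on `t`. `nc`, `time`, `jt` increase by one
exactly if the step `t` has the property in their definition (`Set.ncard` of a set with one more
element). The head moves by at most one cell (`mv` is `-1`, `0` or `1`), and `P < P'`. Let `X` be the right side
for `t`, `X'` for `t + 1`. If neither `In t` nor `In (t + 1)` then the head stays on the same side and the step
crosses neither `P` nor `P'`, the contents of the cells of the slab do not change: `X' = X`. If `In t` and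
`In (t + 1)`: `lstep` is `inner` because `time t < time t₁` (the step `t` is counted) and the state is not
accepting; `A.step` in local coordinates reads the same content; `shf (-P)` of the new position; `lM` of the
new contents is the `update` of `lM` of the old ones at the local position. If `In t` and the new first
coordinate is `P - 1`: the step crosses `P` and not `P'`, and `recs P (nc t)` is the record of the step `t` (it is
the only step `u` with `Crs u` and `nc t₀ u = nc t₀ t`: `nc` increases at crossing steps). To the right in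
the same way. If not `In t` and `In (t + 1)`: the head comes from `P - 1` to `P` (mode `2`) or from `P'` to
`P' - 1` (mode `3`), `recs` gives the record of the step. At `t₁`: `recs P m = none` for `m = nc t₀ t₁` because
`nc t₀ u < nc t₀ t₁` for a crossing step `u < t₁`; so `LFin`. For `j < jt t₀ t₁` the mode at `j` is not `0` (by the
first claim, `jt` takes all values), and not `LFin` because the next configuration would be a
failure. -/
def REAL_stmt : Prop := ∀ {D : ℕ}, 0 < D → ∀ (A : OneHead D) (w y : List Bool) (P P' : ℤ)
    (t₀ t₁ : ℕ), P < P' → t₀ ≤ t₁ → (∀ u, t₀ ≤ u → u < t₁ → ¬A.AcceptsAt w y u) →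
    (∀ t, t₀ ≤ t → t ≤ t₁ → rl A w y P P' t₀ t₁ (jt A w y P P' t₀ t) =
      lcf P P' (nc A w y P t₀ t) (nc A w y P' t₀ t) (time A w y P P' t₀ t) (A.conf w y t)) ∧
    LFin (rslb A w y P P' t₀ t₁) (rl A w y P P' t₀ t₁ (jt A w y P P' t₀ t₁)) ∧
    ∀ j < jt A w y P P' t₀ t₁, (rl A w y P P' t₀ t₁ j).md ≠ 0 ∧
      ¬LFin (rslb A w y P P' t₀ t₁) (rl A w y P P' t₀ t₁ j)

/-- WBN (may assume REAL). The numbers of steps of a local process. For `j < jt t₀ t₁` let `u j` be the
number `u` with `t₀ ≤ u < t₁`, `In u ∨ In (u + 1)` and `jt t₀ u = j` (it exists because `jt` increases by at most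
one, and is unique); so `rl j` is the right side of REAL for `u j`, and `rl (j + 1)` for `u j + 1`. (`len`): the
steps `u` with `In u` are counted by `time`; the steps with not `In u` and `In (u + 1)` are entries; between two
entries there is an exit (`In u`, not `In (u + 1)`), which is not free. So there are at most `work + 1`
entries. (`new`): put `Nw j = (In (u j) ∧ ¬Free (u j))`; `j ↦ u j` is injective, so at most `work`. If `Nw i` is
false, `md` is `1` at `i` and `i + 1`, then `In (u i)`, so `Free (u i)`: there is a `u ≤ u i` with the same position as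
at the time `u i + 1` and no change of the slab from `u` to `u i`. The change of the local contents at the
step `v` is a change of the contents of the machine at the step `u v`, and `In (u v)`. So `u > u v`. The position
at the time `u` is that of the time `u i + 1`, so `In u`, and `j = jt t₀ u` has `v ≤ j ≤ i` and the local position at
`j` is the one at `i + 1`: contradiction. (`reg`): if `md` is not `1` at `j` or at `j + 1` then the step `u j` crosses
`P` or `P'` (an entry or an exit). (`at'`): take `t = u j`, or `t = t₁` for `j = jt t₀ t₁`; `nc` is monotone. -/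
structure WBN_stmt : Prop where
  len : ∀ {D : ℕ}, 0 < D → ∀ (A : OneHead D) (w y : List Bool) (P P' : ℤ) (t₀ t₁ : ℕ), P < P' →
    t₀ ≤ t₁ → jt A w y P P' t₀ t₁ ≤ time A w y P P' t₀ t₁ + work A w y P P' t₀ t₁ + 1
  new : ∀ {D : ℕ}, 0 < D → ∀ (A : OneHead D) (w y : List Bool) (P P' : ℤ) (t₀ t₁ : ℕ), P < P' →
    t₀ ≤ t₁ → (∀ u, t₀ ≤ u → u < t₁ → ¬A.AcceptsAt w y u) → ∃ Nw : ℕ → Prop,
    {j : ℕ | j < jt A w y P P' t₀ t₁ ∧ Nw j}.ncard ≤ work A w y P P' t₀ t₁ ∧
    ∀ v i, v ≤ i → i < jt A w y P P' t₀ t₁ →
      (rl A w y P P' t₀ t₁ (v + 1)).C.M ≠ (rl A w y P P' t₀ t₁ v).C.M →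
      (∀ j, v ≤ j → j ≤ i →
        (rl A w y P P' t₀ t₁ j).C.h ≠ (rl A w y P P' t₀ t₁ (i + 1)).C.h) →
      (rl A w y P P' t₀ t₁ i).md = 1 → (rl A w y P P' t₀ t₁ (i + 1)).md = 1 → Nw i
  reg : ∀ {D : ℕ}, 0 < D → ∀ (A : OneHead D) (w y : List Bool) (P P' : ℤ) (t₀ t₁ : ℕ), P < P' →
    t₀ ≤ t₁ → (∀ u, t₀ ≤ u → u < t₁ → ¬A.AcceptsAt w y u) →
    {j : ℕ | j < jt A w y P P' t₀ t₁ ∧ ¬((rl A w y P P' t₀ t₁ j).md = 1 ∧
      (rl A w y P P' t₀ t₁ (j + 1)).md = 1)}.ncard ≤ nc A w y P t₀ t₁ + nc A w y P' t₀ t₁
  at' : ∀ {D : ℕ}, 0 < D → ∀ (A : OneHead D) (w y : List Bool) (P P' : ℤ) (t₀ t₁ : ℕ), P < P' →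
    t₀ ≤ t₁ → (∀ u, t₀ ≤ u → u < t₁ → ¬A.AcceptsAt w y u) → ∀ j ≤ jt A w y P P' t₀ t₁,
    ∃ t i i' m : ℕ, t₀ ≤ t ∧ t ≤ t₁ ∧ i ≤ nc A w y P t₀ t₁ ∧ i' ≤ nc A w y P' t₀ t₁ ∧
      m ≤ time A w y P P' t₀ t₁ ∧ rl A w y P P' t₀ t₁ j = lcf P P' i i' m (A.conf w y t)

/-- LOPS. Few free steps. Suppose that more than `2 ^ h (x + 1)` steps of the period are made from cells
of the slab. Number these steps in their order. At most `x` of them are not free, so one of the first
`x + 1` intervals of `2 ^ h` consecutive numbers contains only free steps. After a free step `u` the head is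
in the slab, so the next number belongs to the step `u + 1`; hence the interval is a period
`u, u + 1, …, u + 2 ^ h - 1` of free steps, the head is in the slab at the times `u, …, u + 2 ^ h ≤ t'`, and the
contents of the cells do not change (`Free u` for `v = u`). State and position at these `2 ^ h + 1` times: at
most `2 ^ (s + 1)` states, `2 ^ b` first coordinates, `2 ^ (b + 1)` other coordinates, so at most
`2 ^ (s + 1 + (b + 1) D) ≤ 2 ^ h` possibilities. So two configurations are equal, the computation is periodic
from there on and never accepting after the time `u`, contradiction to `hacc` (no time before `r` is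
accepting, and the period is before `r`). Compare `LOP_stmt` of `Helper28/OHS/Goals.lean` and its proof. -/
def LOPS_stmt : Prop := ∀ {D : ℕ}, 0 < D → ∀ (A : OneHead D) (w y : List Bool)
    (P P' : ℤ) (r s b h x t t' : ℕ), A.Fits w y r s → A.AcceptsAt w y r →
    (∀ u < r, ¬A.AcceptsAt w y u) → t ≤ t' → t' ≤ r → P' ≤ P + 2 ^ b →
    (∀ u, t ≤ u → u ≤ t' → ∀ j : Fin D, j.val ≠ 0 →
      -2 ^ b ≤ (A.conf w y u).h j ∧ (A.conf w y u).h j < 2 ^ b) →
    work A w y P P' t t' ≤ x → s + (b + 1) * D < h → time A w y P P' t t' ≤ 2 ^ h * (x + 1)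

end Pool.Agent.Helper92.RECT
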