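import Pool.Agent.Helper92.RECT.Slab
import Pool.Agent.Helper92.RECT.Goals1
import Pool.Agent.Helper92.RECT.Goals2
import Pool.Agent.Helper28.OHS.Goals

/-!
# The local process of a slab on numbers and on words: statements

Every statement comes with its proof in words. `GEO_stmt` and `STEP_stmt` (`Helper65/OH/Goals.lean`) are
proved: `Pool.Agent.Helper65.OH.GEO`, `Pool.Agent.Helper75.OH.STEP Pool.Agent.Helper65.OH.GEO`.
-/

namespace Pool.Agent.Helper92.RECT

open Pool.Agent.Helper65.LinSpace Pool.Agent.Helper78.Mpc Pool.Agent.Helper28.Ram Finset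
open Pool.Agent.Helper65.OH (Prm OneHead Conf Par InBox co GoodQ Fns)
open Pool.Agent.Helper28.OHS (cellN cs cn cd Rep)
open Pool.Agent.Helper28.Few (mcf)

/-! ### Lists of records -/

/-- The number `z` is a code of the record `ρ`. -/
structure RC {D : ℕ} (m : Prm) (ρ : List Bool × (Fin D → ℤ)) (z : ℕ) : Prop where
  lt : z < 2 ^ m.sg
  len : ρ.1.length ≤ m.S
  wq : z % 2 ^ (m.S + 1) = num ρ.1
  zero : ∀ k : Fin D, k.val = 0 → ρ.2 k = 0
  co : ∀ k : Fin D, k.val ≠ 0 →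
    ((dig (2 ^ m.κ) (z / 2 ^ (m.S + 1)) k : ℕ) : ℤ) = ρ.2 k + 2 ^ (m.κ - 1)

/-- The number `Λ` codes the list `ℓ`; it may contain wrong records (with the state number `0`). -/
def LM {D : ℕ} (m : Prm) (Λ : ℕ) (ℓ : ℕ → Option (List Bool × (Fin D → ℤ))) : Prop :=
  ∀ i, (dig (2 ^ m.sg) Λ i = 0 ∧ ℓ i = none) ∨ ∃ ρ, ℓ i = some ρ ∧ dig (2 ^ m.sg) Λ i ≠ 0 ∧
    (RC m ρ (dig (2 ^ m.sg) Λ i) ∨ dig (2 ^ m.sg) Λ i % 2 ^ (m.S + 1) = 0)

/-- The number `Λ` codes the list `ℓ`, and the first coordinates in the codes are `0`. -/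
def LMs {D : ℕ} (m : Prm) (Λ : ℕ) (ℓ : ℕ → Option (List Bool × (Fin D → ℤ))) : Prop :=
  ∀ i, (dig (2 ^ m.sg) Λ i = 0 ∧ ℓ i = none) ∨ ∃ ρ, ℓ i = some ρ ∧
    RC m ρ (dig (2 ^ m.sg) Λ i) ∧ dig (2 ^ m.sg) Λ i / 2 ^ (m.S + 1) % 2 ^ m.κ = 0

/-- LIS. Codes of lists. (`dec`): for a digit `z ≠ 0` take as state the word with the number
`z % 2 ^ (S + 1)` (numbers of words are the positive numbers; `z % 2 ^ (S + 1) < 2 ^ (S + 1)` gives the length; any
word if it is `0`) and as position the digits of `z / 2 ^ (S + 1)` minus `2 ^ (κ - 1)`, the first one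
replaced by `0`. (`enc`): `Λ = tab (2 ^ sg) N` of `num ρ.1 + 2 ^ (S + 1) * tab (2 ^ κ) D u`, `u 0 = 0`,
`u k = ρ.2 k + 2 ^ (κ - 1)`, or `0` if there is no record; `dig_tab`, `tab_lt`; digits number `i ≥ N` are `0`.
`sg = S + 1 + κ D`. (`lt`): `dig q Λ i = Λ / q ^ i % q`. -/
structure LIS_stmt : Prop where
  dec : ∀ {D : ℕ} (m : Prm), m.D = D → ∀ Λ : ℕ,
    ∃ ℓ : ℕ → Option (List Bool × (Fin D → ℤ)), LM m Λ ℓ
  zero : ∀ {D : ℕ} (m : Prm) (ℓ : ℕ → Option (List Bool × (Fin D → ℤ))), LM m 0 ℓ → ∀ i, ℓ i = none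
  strong : ∀ {D : ℕ} (m : Prm) (Λ : ℕ) (ℓ : ℕ → Option (List Bool × (Fin D → ℤ))),
    LMs m Λ ℓ → LM m Λ ℓ
  enc : ∀ {D : ℕ} (m : Prm), m.D = D → 0 < m.κ → ∀ (N : ℕ)
    (ℓ : ℕ → Option (List Bool × (Fin D → ℤ))), (∀ i, N ≤ i → ℓ i = none) →
    (∀ i ρ, ℓ i = some ρ → ρ.1.length ≤ m.S ∧ (∀ k : Fin D, k.val = 0 → ρ.2 k = 0) ∧
      ∀ k : Fin D, k.val ≠ 0 → -2 ^ (m.κ - 1) ≤ ρ.2 k ∧ ρ.2 k < 2 ^ (m.κ - 1)) →
    ∃ Λ < 2 ^ (m.sg * N), LMs m Λ ℓ
  lt : ∀ (m : Prm) (N Λ : ℕ), Λ < 2 ^ (m.sg * N) → ∀ i, dig (2 ^ m.sg) Λ i ≠ 0 → i < N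

/-! ### Relations -/

/-- The parameters `s` are those of the slab from `P` to `P'`. -/
structure Rdy {D : ℕ} (A : OneHead D) (w y : List Bool) (s : Sp) (P P' : ℤ) : Prop where
  pos : 0 < D
  par : ∃ eA eN eW c₀, Par A eA eN eW c₀ w y s.m
  parG : ∃ eA eN eW c₀, Par A eA eN eW c₀ w y s.G
  fns : Fns A s.m
  d1 : s.m.d = 1
  o0 : s.m.o = 0
  S : s.G.S = s.m.S
  W : (s.W : ℤ) = P' - P
  Wpos : 0 < s.W
  Wle : s.W ≤ 2 ^ (s.m.κ - 2)
  κ : 2 ≤ s.m.κ
  Ph : (s.Ph : ℤ) = P + 2 ^ s.π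
  nte : s.n < 2 ^ s.te
  Lν : ∀ i, s.lL i ≠ 0 → i + 1 < 2 ^ s.ν
  Rν : ∀ i, s.lR i ≠ 0 → i + 1 < 2 ^ s.ν

/-- The number `q` codes the configuration `X` of the local process, without the contents. -/
structure Cd {D : ℕ} (s : Sp) (P : ℤ) (X : LConf D) (q : ℕ) : Prop where
  lt : q < 2 ^ (s.θ + s.m.κ * s.m.D)
  ne : X.md ≠ 0
  le : X.md ≤ 3
  md : s.md q = X.md
  ix : s.ix q = X.i
  jx : s.jx q = X.j
  tx : s.tx q = X.t
  tn : X.t ≤ s.n
  base : GoodQ s.m X.C (s.bq q)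
  pos : X.md = 1 → 0 ≤ fst X.C.h ∧ fst X.C.h < s.W ∧ InBox s.G.κ (shf P X.C.h)

/-- The contents of the cells of the slab are those of `X`. -/
def Cts {D : ℕ} (s : Sp) (P : ℤ) (X : LConf D) (M : ℕ → ℕ) : Prop :=
  ∀ p : Fin D → ℤ, InBox s.m.κ p → 0 ≤ fst p → fst p < s.W → InBox s.G.κ (shf P p) →
    M (cd s.m p) = capN s.m.S (num (X.C.M p))

/-! ### The parts of the correctness -/

/-- RNS. The numbers are in the range. `cod u md i j t p < 2 ^ (θ + κ D)` for `u < 2 ^ (S + 1)`, `md < 8`,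
`p < 2 ^ (κ D)`. `sq q v < 2 ^ sg` (`GEO.code` of `Helper65/OH/Goals.lean`, or it is `q` itself), so its position
is smaller than `2 ^ (κ D)`; digits of lists are smaller than `2 ^ sg`; `st0 p u < 2 ^ (κ D)` for `p < 2 ^ (κ D)`,
`u < 2 ^ κ`, `0 < D` (`p - p % 2 ^ κ + u` has the same quotient by `2 ^ κ`); `2 ^ (κ - 1) + W - 1 < 2 ^ κ` as
`W ≤ 2 ^ (κ - 2)`. `nw`, `cn` are `capN`. (`θ + κ D` is `sx` of the process.) The shift does not occur. -/
def RNS_stmt : Prop := ∀ {D : ℕ} (A : OneHead D) (w y : List Bool) (s : Sp) (P P' : ℤ),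
    Rdy A w y s P P' → ∀ d a V Tc o : ℕ, o < d →
    (s.m.S + 1) * d ^ s.m.D ≤ a → 2 ^ (s.θ + s.m.κ * s.m.D) + 2 ≤ 2 ^ (V + 1) →
    ((s.pr d a V Tc).sh o).Ok

/-- STA. The start. `Rep.good`: the code `cs G c` gives the number of the state (`< 2 ^ (S + 1)`) and the
digits `C₀.h k + 2 ^ (κ_G - 1)` of the position `hp < 2 ^ (κ_G D)`. `lft` (`rgt`) is `1` if and only if
`fst C₀.h < P` (`P' ≤ fst C₀.h`): `Ph = P + 2 ^ π`, `W = P' - P`. If both are `0` then the slab contains the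
head; `lV hp` is `1` if and only if the local coordinates `C₀.h k - [k = 0] P` are in the local box and the
first one is in `[0, W)`; then `lC hp` is the code of the local position (`dig_tab`), and the code is
that of `lcf` in the mode `1`. For `lV hp = 0` it is a failure. In the modes `2`, `3`: state number
`1 = num []`, position `c0`, the cell `0`; `ix = jx = tx = 0`. (`cts`): for a cell `p` as in `Cts` the
global cell of `cd m p` has the coordinates `co κ_G (shf P p)` (`dig_tab`; `gc` is the right number because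
`InBox`), so `M0 (cd m p) = cn G e c (cellN κ_G (co …) D) = capN S (num (C₀.M (shf P p)))` by `Rep.ct` (`cellN` uses
only the digits `k < D`: `CEL_stmt.congr` of OHS). (`cmp`): `lV hp = 1`. -/
structure STA_stmt : Prop where
  snd : ∀ {D : ℕ} (A : OneHead D) (w y : List Bool) (s : Sp) (P P' : ℤ), Rdy A w y s P P' →
    ∀ C₀ : Conf D, Rep s.G s.e s.c C₀ → s.md s.q0 = 0 ∨ Cd s P (lcf P P' 0 0 0 C₀) s.q0
  cts : ∀ {D : ℕ} (A : OneHead D) (w y : List Bool) (s : Sp) (P P' : ℤ), Rdy A w y s P P' →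
    ∀ C₀ : Conf D, Rep s.G s.e s.c C₀ → Cts s P (lcf P P' 0 0 0 C₀) s.M0
  cmp : ∀ {D : ℕ} (A : OneHead D) (w y : List Bool) (s : Sp) (P P' : ℤ), Rdy A w y s P P' →
    ∀ C₀ : Conf D, Rep s.G s.e s.c C₀ →
    (∀ k : Fin D, k.val ≠ 0 → -2 ^ (s.m.κ - 1) ≤ C₀.h k ∧ C₀.h k < 2 ^ (s.m.κ - 1)) →
    s.md s.q0 ≠ 0

/-- STN. One step of the process (may assume GEO, STEP). (`fin`): `fin q ≠ 0` for `md q = X.md ≠ 0` means
`t = n` and that both digits are `0`, that is, that there are no records (`LM`). (`snd`), mode `1`: `bq q` codes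
`X.C` (`Cd.base`), and `ce q = cd m X.C.h`, so `v = M (ce q)` is `capN S (num (X.C.M X.C.h))` by `Cts`, and
`vq (bq q) v = v` since the cubes have side `1` (`cel = 0`, `v < 2 ^ (S + 1)`). If the new state is not a
failure then `tx q ≠ n`, `accN = 0`, `ok ≠ 0`, and `STEP` gives that `z = sq (bq q) v` codes the new state and
position, and `nw` is the number of the new content of the cell. The first coordinate of the new position is
the first digit of `z / 2 ^ (S + 1)` minus `2 ^ (κ - 1)`; it is negative (at least `W`) if and only if the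
digit is smaller than `2 ^ (κ - 1)` (at least `2 ^ (κ - 1) + W`). In these cases the record of the list is
equal to `rcd z`, so it has a nonzero state number, it codes a record `ρ` with `ℓ i = some ρ`, and `ρ` is
the record of `inner` (numbers of words and digits determine them; the first coordinate is `0`); the
number `i + 1` is smaller than `2 ^ ν` (`Lν`), `t + 1 ≤ n < 2 ^ te` as `t ≠ n`. Otherwise `gV = 1` says that the
new position is in the global box. Modes `2`, `3`: the digit is not `0` (its remainder is not `0`), so there is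
a record with this code; `st0` gives the new position with the local first coordinate `0` or `W - 1`.
`Cts`: the codes of different cells are different (`cd` is injective on `InBox`), the memory is updated
at `ce q = cd m X.C.h` as `A.step` does; in the modes `2`, `3` nothing is changed. (`cmp`): all tests are
successful; for `ok ≠ 0` the second part of `STEP`; a record which is equal to that of `inner` has the code
`rcd z` (`LMs`: the digits are equal, the first one is `0`; `tab_dig`), nonzero remainder because `num` is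
positive; `gV = 1` by `InBox κ_G (shf P _)`. -/
structure STN_stmt : Prop where
  fin : ∀ {D : ℕ} (s : Sp) (P : ℤ) (σ : Slb D) (X : LConf D) (q : ℕ), Cd s P X q → σ.n = s.n →
    LM s.m s.L σ.L → LM s.m s.R σ.R → (s.fin q ≠ 0 ↔ LFin σ X)
  snd : ∀ {D : ℕ} (A : OneHead D) (w y : List Bool) (s : Sp) (P P' : ℤ) (σ : Slb D),
    Rdy A w y s P P' → σ.W = P' - P → σ.n = s.n → LM s.m s.L σ.L → LM s.m s.R σ.R →
    ∀ (X : LConf D) (q : ℕ) (M : ℕ → ℕ), Cd s P X q → Cts s P X M → s.fin q = 0 →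
    s.md (s.N q (M (s.ce q))) = 0 ∨ (Cd s P (lstep A w y σ X) (s.N q (M (s.ce q))) ∧
      Cts s P (lstep A w y σ X) (Function.update M (s.ce q) (s.Wr q (M (s.ce q)))))
  cmp : ∀ {D : ℕ} (A : OneHead D) (w y : List Bool) (s : Sp) (P P' : ℤ) (σ : Slb D),
    Rdy A w y s P P' → σ.W = P' - P → σ.n = s.n → LMs s.m s.L σ.L → LMs s.m s.R σ.R →
    ∀ (X : LConf D) (q : ℕ) (M : ℕ → ℕ), Cd s P X q → Cts s P X M → s.fin q = 0 →
    (lstep A w y σ X).md ≠ 0 →
    ((lstep A w y σ X).md = 1 → InBox s.G.κ (shf P (lstep A w y σ X).C.h)) →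
    (X.md = 1 → (A.addr X.C.q).length ≤ s.m.S ∧ (X.C.M X.C.h).length ≤ s.m.S ∧
      (A.step w y X.C).q.length ≤ s.m.S ∧
      (A.write (A.inp w y X.C.q (X.C.M X.C.h))).length ≤ s.m.S ∧
      InBox s.m.κ (A.step w y X.C).h) →
    s.md (s.N q (M (s.ce q))) ≠ 0

/-- FCK. The final check. `sc ≠ 0`: in the mode `1`, if `f = 0` then the state is accepting (`accN_num`);
if `f ≠ 0` then the code of the state and the global position is `cs G f`; the global position is
`shf P X.C.h` (`gC`, as in STA), in the global box by `Cd.pos`, so the code satisfies `GoodQ`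
(`GEO.code` for `G`). The second part of `fc` as in the statement. (`cmp`) the same backwards: in the mode `1`
for `f ≠ 0` the codes are equal because both satisfy `GoodQ` (`CUB_stmt.uniq` of OHS). -/
structure FCK_stmt : Prop where
  snd : ∀ {D : ℕ} (A : OneHead D) (w y : List Bool) (s : Sp) (P P' : ℤ), Rdy A w y s P P' →
    ∀ (X : LConf D) (q v : ℕ), Cd s P X q → s.fc q v ≠ 0 →
    (X.md = 1 → (s.f = 0 → X.C.q.head? = some true) ∧
      (s.f ≠ 0 → GoodQ s.G ⟨X.C.q, shf P X.C.h, X.C.M⟩ (cs s.G s.f))) ∧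
    (s.f ≠ 0 → s.lV s.al ≠ 0 → v = cn s.G s.e s.f (s.nm s.al))
  cmp : ∀ {D : ℕ} (A : OneHead D) (w y : List Bool) (s : Sp) (P P' : ℤ), Rdy A w y s P P' →
    ∀ (X : LConf D) (q v : ℕ), Cd s P X q →
    (X.md = 1 → (s.f = 0 → X.C.q.head? = some true) ∧
      (s.f ≠ 0 → GoodQ s.G ⟨X.C.q, shf P X.C.h, X.C.M⟩ (cs s.G s.f))) →
    (s.f ≠ 0 → s.lV s.al ≠ 0 → v = cn s.G s.e s.f (s.nm s.al)) → s.fc q v ≠ 0
  /-- `lV` and `lC` for the number of a global cell. -/
  lv : ∀ {D : ℕ} (A : OneHead D) (w y : List Bool) (s : Sp) (P P' : ℤ), Rdy A w y s P P' →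
    ∀ p : Fin D → ℤ, InBox s.G.κ p →
    (s.lV (cd s.G p) ≠ 0 ↔ P ≤ fst p ∧ fst p < P' ∧
      ∀ k : Fin D, k.val ≠ 0 → -2 ^ (s.m.κ - 1) ≤ p k ∧ p k < 2 ^ (s.m.κ - 1)) ∧
    (s.lV (cd s.G p) ≠ 0 → s.lC (cd s.G p) = cd s.m (shf (-P) p) ∧
      InBox s.m.κ (shf (-P) p)) ∧
    s.nm (cd s.G p) = cellN s.G.κ (co s.G.κ p) s.m.D

/-- SLS. Soundness for a slab (may assume SND, RNS, STA, STN, FCK). `SND` for the shifted process gives a
`t` with `fin ≠ 0` for the first time, and `fc ≠ 0`, so `md (X t).1 ≠ 0` (`fc` is `0` otherwise), and there was no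
failure before (in a state with `md = 0` the process is final: `fin = 1`). By induction on `i ≤ t`:
`Cd` and `Cts` for `lconf … i` and `X i` (`STA`, `STN.snd`; `cf` is the iteration of `N` and the update by `Wr`:
`Few.cf_succ`). `STN.fin` at the time `t`: `LFin`; take `e = t`. The other claims: `Cd.base` and `Cd.pos` for the
positions, `FCK.snd` for the final check, with `v = M (lC al)`; if `lV al ≠ 0` then for `p` with `cd G p = al`,
`lC al = cd m (shf (-P) p)` and `Cts` (`FCK.lv`) give the content. (`X` of the process does not depend on the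
shift.) -/
def SLS_stmt : Prop := ∀ {D : ℕ} (A : OneHead D) (w y : List Bool) (s : Sp) (P P' : ℤ)
    (σ : Slb D), Rdy A w y s P P' → σ.W = P' - P → σ.n = s.n → LM s.m s.L σ.L →
    LM s.m s.R σ.R → ∀ C₀ : Conf D, Rep s.G s.e s.c C₀ →
    ∀ d a V Tc o T : ℕ, o < d → 0 < Tc → (s.m.S + 1) * d ^ s.m.D ≤ a →
    2 ^ (s.θ + s.m.κ * s.m.D) + 2 ≤ 2 ^ (V + 1) →
    (((s.pr d a V Tc).sh o).conf T).1 = 1 →
    ∃ e, LFin σ (lconf A w y σ (lcf P P' 0 0 0 C₀) e) ∧
    (∀ j ≤ e, (lconf A w y σ (lcf P P' 0 0 0 C₀) j).md = 1 →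
      InBox s.m.κ (lconf A w y σ (lcf P P' 0 0 0 C₀) j).C.h ∧
      InBox s.G.κ (shf P (lconf A w y σ (lcf P P' 0 0 0 C₀) j).C.h)) ∧
    ((lconf A w y σ (lcf P P' 0 0 0 C₀) e).md = 1 →
      (s.f = 0 → (lconf A w y σ (lcf P P' 0 0 0 C₀) e).C.q.head? = some true) ∧
      (s.f ≠ 0 → GoodQ s.G ⟨(lconf A w y σ (lcf P P' 0 0 0 C₀) e).C.q,
        shf P (lconf A w y σ (lcf P P' 0 0 0 C₀) e).C.h,
        (lconf A w y σ (lcf P P' 0 0 0 C₀) e).C.M⟩ (cs s.G s.f))) ∧
    (s.f ≠ 0 → ∀ p : Fin D → ℤ, InBox s.G.κ p → cd s.G p = s.al → P ≤ fst p → fst p < P' →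
      (∀ k : Fin D, k.val ≠ 0 → -2 ^ (s.m.κ - 1) ≤ p k ∧ p k < 2 ^ (s.m.κ - 1)) →
      cn s.G s.e s.f (cellN s.G.κ (co s.G.κ p) s.m.D) =
        capN s.m.S (num ((lconf A w y σ (lcf P P' 0 0 0 C₀) e).C.M (shf (-P) p))))

/-- The hypotheses of the completeness: the slab from `P` to `P'` in the period from `t₀` to `t₁`. -/
structure Rl {D : ℕ} (A : OneHead D) (w y : List Bool) (s : Sp) (P P' : ℤ) (t₀ t₁ : ℕ) :
    Prop where
  rdy : Rdy A w y s P P'
  le : t₀ ≤ t₁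
  n : s.n = time A w y P P' t₀ t₁
  L : LMs s.m s.L (recs A w y P t₀ t₁)
  R : LMs s.m s.R (recs A w y P' t₀ t₁)
  c : Rep s.G s.e s.c (A.conf w y t₀)
  na : ∀ u, t₀ ≤ u → u < t₁ → ¬A.AcceptsAt w y u
  fit : A.Fits w y t₁ s.m.S
  box : ∀ u, t₀ ≤ u → u ≤ t₁ → InBox s.G.κ (A.conf w y u).h
  oth : ∀ u, t₀ ≤ u → u ≤ t₁ → ∀ k : Fin D, k.val ≠ 0 →
    -2 ^ (s.m.κ - 2) ≤ (A.conf w y u).h k ∧ (A.conf w y u).h k < 2 ^ (s.m.κ - 2)
  f0 : s.f = 0 → A.AcceptsAt w y t₁
  f1 : s.f ≠ 0 → Rep s.G s.e s.f (A.conf w y t₁)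
  al : s.f ≠ 0 → ∃ p : Fin D → ℤ, InBox s.G.κ p ∧ cd s.G p = s.al

/-- RUN. The process on numbers follows the machine (may assume RNS, STA, STN, REAL, WBN). By induction
on `j ≤ jt t₀ t₁`. Start: `STA` (`cmp`: the other coordinates of the head are in the local box). Step:
`rl (j + 1) = lstep (rl j)` for the slab `rslb`, its mode is not `0` (`REAL`, and `WBN.at'` or `REAL` for the last one),
and `fin (X j).1 = 0` by `STN.fin` because `rl j` is not `LFin`; `STN.snd`, `STN.cmp`: by `WBN.at'` `rl j` and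
`rl (j + 1)` are `lcf` of configurations of the machine at times in the period, so states, addresses and
contents have at most `S` letters (`fit`), the positions are in the global box. (In the mode `1` at `j` the
time `t` of `WBN.at'` is smaller than `t₁` if `j < jt t₀ t₁`: otherwise `rl j` would be the last one; so
`A.step` of `rl j` is, shifted, the configuration at the time `t + 1`: the new first coordinate is between
`-1` and `W`, the others as in `oth`; this is `InBox κ` as `W ≤ 2 ^ (κ - 2)`. Or get the new position from the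
old one: it moves by at most one cell.) The written word is the content of the cell at the time
`t + 1`. At the end `LFin` gives `fin ≠ 0`. -/
def RUN_stmt : Prop := ∀ {D : ℕ} (A : OneHead D) (w y : List Bool) (s : Sp) (P P' : ℤ)
    (t₀ t₁ : ℕ), Rl A w y s P P' t₀ t₁ → ∀ d a V Tc : ℕ, 0 < d → (s.m.S + 1) * d ^ s.m.D ≤ a →
    2 ^ (s.θ + s.m.κ * s.m.D) + 2 ≤ 2 ^ (V + 1) →
    (∀ j ≤ jt A w y P P' t₀ t₁, Cd s P (rl A w y P P' t₀ t₁ j) ((s.pr d a V Tc).X j).1 ∧
      Cts s P (rl A w y P P' t₀ t₁ j) ((s.pr d a V Tc).X j).2) ∧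
    (∀ j < jt A w y P P' t₀ t₁, s.fin ((s.pr d a V Tc).X j).1 = 0) ∧
    s.fin ((s.pr d a V Tc).X (jt A w y P P' t₀ t₁)).1 ≠ 0

/-- SLC. Completeness for a slab (may assume RUN, RNS, STN, FCK, REAL, WBN, WIN). `r = jt t₀ t₁` is at most
`time + work + 1 ≤ 2 ^ h (x + 1) + x + 1 ≤ 2 ^ (h + 1) (x + 1)` (`WBN.len`). `fc ≠ 0` at the time `r`: `FCK.cmp`; `rl r` is
`lcf` of the configuration at the time `t₁` (`REAL`), so in the mode `1` state and shifted position are those of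
the machine (`f0`, `Rep.good`); the content of the cell `al` is `cn … f …` by `Cts`, `FCK.lv` and `Rep.ct`. Apply
`WIN` with `h + 1`, `J`, `x + J` in place of `x`, and `Nw' i = (Nw i ∨ ¬(md = 1 at i and at i + 1))`, `Nw` from
`WBN.new`; it is true for at most `work + nc P + nc P' ≤ x + J` numbers `i < r` (`WBN.new`, `WBN.reg`). Its
hypothesis: if the contents of `X` change at the step `v`, then those of `rl` change (otherwise `Wr` is the old
content: in the mode `1` the position `ce` is the code of a cell of the slab and both contents are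
`capN S (num _)` of the content, `Cts` for `v` and `v + 1`; in the other modes `Wr` changes nothing); if the
cells `ce (X j).1` and `ce (X (i + 1)).1` are different then the positions of `rl` are different (`Cd.base`: the
position determines the code). If `md` is `1` at `i` and `i + 1` then the step is `Reg` (the position moves by at
most one cell, `mv`); so `¬Reg` happens at most `J` times (`WBN.reg`). -/
def SLC_stmt : Prop := ∀ {D : ℕ} (A : OneHead D) (w y : List Bool) (s : Sp) (P P' : ℤ)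
    (t₀ t₁ : ℕ), Rl A w y s P P' t₀ t₁ → ∀ d a V Tc : ℕ, 0 < d → 0 < Tc →
    (s.m.S + 1) * d ^ s.m.D ≤ a → 2 ^ (s.θ + s.m.κ * s.m.D) + 2 ≤ 2 ^ (V + 1) → 0 < s.m.D →
    ∀ h x J T : ℕ, work A w y P P' t₀ t₁ ≤ x → time A w y P P' t₀ t₁ ≤ 2 ^ h * (x + 1) →
    nc A w y P t₀ t₁ + nc A w y P' t₀ t₁ ≤ J → 2 ^ (h + 1) * (x + 1) ≤ Tc →
    2 * s.m.D * (2 * (x + J) + 1) + (4 * J + 5) * d ≤ d * T →
    ∃ o < d, (mcf ((s.pr d a V Tc).sh o).fA ((s.pr d a V Tc).sh o).fN ((s.pr d a V Tc).sh o).fW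
      (h + 1) ((s.pr d a V Tc).sh o).f0 ((s.pr d a V Tc).sh o).cm T).1 = 1

end Pool.Agent.Helper92.RECT
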