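import Pool.Agent.Helper92.RECT.Par
import Pool.Agent.Helper92.RECT.Goals3

/-!
# The check of a period: statements of soundness and completeness

Every statement comes with its proof in words. A packet may assume the statements which are named in
its text as hypotheses.
-/

namespace Pool.Agent.Helper92.RECT

open Pool.Agent.Helper65.LinSpace Pool.Agent.Helper78.Mpc Pool.Agent.Helper28.Ram Finset
open Pool.Agent.Helper65.OH (Prm OneHead Conf Par InBox co GoodQ Fns)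
open Pool.Agent.Helper28.OHS (cellN cs cn cd Rep Box)
open Pool.Agent.Helper28.Few (mcf)
open Pool.Agent.Helper28.Sus (rc)

/-- The parameters `s` of the machine `A`; the lists have at most `N` records. -/
structure Bas {D : ℕ} (A : OneHead D) (w y : List Bool) (s : Sp) (N : ℕ) : Prop where
  pos : 0 < D
  par : ∃ eA eN eW c₀, Par A eA eN eW c₀ w y s.m
  parG : ∃ eA eN eW c₀, Par A eA eN eW c₀ w y s.G
  fns : Fns A s.m
  d1 : s.m.d = 1
  o0 : s.m.o = 0
  S : s.G.S = s.m.S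
  κ : 2 ≤ s.m.κ
  N : N < 2 ^ s.ν

/-- The function `F` is the result of the simulation of `T` macro steps. -/
structure FS (s : Sp) (F : Sp → ℕ → ℕ) (d a V Tc h T : ℕ) : Prop where
  hd : 0 < d
  hT : 0 < Tc
  ha : (s.m.S + 1) * d ^ s.m.D ≤ a
  hV : 2 ^ (s.θ + s.m.κ * s.m.D) + 2 ≤ 2 ^ (V + 1)
  eq : ∀ Ph W n L R c f al : ℕ, W ≤ 2 ^ (s.m.κ - 2) → ∀ o < d,
    F (s.put Ph W n L R c f al) o =
      (mcf (((s.put Ph W n L R c f al).pr d a V Tc).sh o).fA
        (((s.put Ph W n L R c f al).pr d a V Tc).sh o).fN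
        (((s.put Ph W n L R c f al).pr d a V Tc).sh o).fW h
        (((s.put Ph W n L R c f al).pr d a V Tc).sh o).f0
        (((s.put Ph W n L R c f al).pr d a V Tc).sh o).cm T).1

/-- The cell `p` is between the ends, and its other coordinates are in the local box. -/
def Rgn {D : ℕ} (κ : ℕ) (Pa Pb : ℤ) (p : Fin D → ℤ) : Prop :=
  Pa ≤ fst p ∧ fst p < Pb ∧ ∀ k : Fin D, k.val ≠ 0 → -2 ^ (κ - 1) ≤ p k ∧ p k < 2 ^ (κ - 1)

/-- PTH. A path. Induction on `k` with `rc_zero`, `rc_succ` (`Helper28/Sus/Sav.lean`). `k = 0`: if `v = v'`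
then `K = 0` and `V` is constant, otherwise `K = 1`. `k + 1`: two paths over the vertex `m < Z`, with `K` and
`K'` edges, are joined: `V'' i = if i ≤ K then V i else V' (i - K)`. -/
def PTH_stmt : Prop := ∀ (E : ℕ → ℕ → ℕ) (Z k v v' : ℕ),
    rc (fun u u' => ifz (eq01 u u') (E u u') 1) Z k v v' ≠ 0 →
    ∃ (K : ℕ) (V : ℕ → ℕ), K ≤ 2 ^ k ∧ V 0 = v ∧ V K = v' ∧ (∀ i, 0 < i → i < K → V i < Z) ∧
      ∀ i < K, E (V i) (V (i + 1)) ≠ 0

/-- REG. The tests of the positions. `dig (2 ^ κ_G) hp 0` is `C.h 0 + 2 ^ (κ_G - 1)` for `hp = cs G c / 2 ^ (S + 1)`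
(`Rep.good`, `s.G.S = s.m.S`); `dig (2 ^ κ_G) (cd G p) k = co κ_G p k` (`CUB_stmt.cell` of OHS, or `dig_tab`),
which is `p k + 2 ^ (κ_G - 1)`. `oth`: the sum is `0` if and only if all summands are `0`; the summand for
`j = 0` is `1 - 1`; `2 ^ κ = 2 * 2 ^ (κ - 1)`. -/
structure REG_stmt : Prop where
  hp : ∀ {D : ℕ} (A : OneHead D) (w y : List Bool) (s : Sp) (N : ℕ), Bas A w y s N →
    ∀ (C : Conf D), Rep s.G s.e s.c C → ∀ a b : ℕ,
    (s.btw a b (dig (2 ^ s.G.κ) s.hp 0) ≠ 0 ↔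
      (a : ℤ) - 2 ^ s.π ≤ fst C.h ∧ fst C.h < (b : ℤ) - 2 ^ s.π)
  al : ∀ {D : ℕ} (A : OneHead D) (w y : List Bool) (s : Sp) (N : ℕ), Bas A w y s N →
    ∀ p : Fin D → ℤ, InBox s.G.κ p → ∀ a b : ℕ,
    (s.btw a b (dig (2 ^ s.G.κ) (cd s.G p) 0) * s.oth (cd s.G p) ≠ 0 ↔
      Rgn s.m.κ ((a : ℤ) - 2 ^ s.π) ((b : ℤ) - 2 ^ s.π) p)

/-- PTS. Soundness of a path (may assume PTH, REG, SLS, GLUE, LIS, FCK). Let `s' = s.cfa c f al`. One
summand of `pth` is not `0`, for `a, b < 2 ^ (π + 1)`: `btw ≠ 0` (REG: `P 0 ≤ fst h < P K` at the time `t`),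
`ouc a b ≠ 0` if `f ≠ 0`, and `rc ≠ 0`, where `τ % 2 ^ tw = τ`. PTH for `E = edge` gives `K ≤ 2 ^ k` and `V`. If
`K = 0` then `a = b + 2 ^ (π + 1) τ`, so `a = b`, and `P 0 < P K` is wrong. Let `P i = vP (V i) - 2 ^ π`,
`n i = vT (V (i + 1)) - vT (V i)`, and `ℓ i` a list for `vL (V i)` (`LIS.dec`). `vT (V 0) = 0`, `vT (V K) = τ`,
`vL (V 0) = vL (V K) = 0`, so `∑ n i = τ`, and `ℓ 0`, `ℓ K` are empty (`LIS.zero`). For every `i < K` the factors
of `edge (V i) (V (i + 1))` are not `0`: `P i < P (i + 1)`, the width is at most `2 ^ (κ - 2)`,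
`vT (V i) ≤ vT (V (i + 1))`, `n i < 2 ^ te`, and `F (sE …) o = 1` for some `o < d`. The slab is
`sE … = s.put (vP v) (vP v' - vP v) (vT v' - vT v) (vL v) (vL v') c f al` (`rfl`), so `FS.eq` and `macro_sound`
(`Few/Macro.lean`) give `(conf T').1 = 1` for some `T'`, and SLS gives `e i` (`Rdy`: `Bas` and these facts; `Lν`, `Rν`:
vertices `V i` with `0 < i < K` are smaller than `ZZ`, so `vL < 2 ^ (sg N)`, and a nonzero digit has the
index `j < N`, `j + 1 ≤ N < 2 ^ ν`; for `i = 0`, `i = K` all digits are `0`). GLUE for `P`, `ℓ`, `n`, `e` and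
`t₀ = t`. First claim: GLUE gives a slab `i` and `j ≤ e i` with the mode `1` and the local position
`shf (-P i) h`, in the local box by SLS; the other coordinates are not changed by `shf`;
`P 0 ≤ P i ≤ fst h < P (i + 1) ≤ P K`. Second and third claim: the head is in some slab `i` at the time
`t + τ`; `Loc.md` gives the mode `1` for the final configuration of this slab, `Loc.st` state and position,
SLS the claims (`shf P (shf (-P) h) = h`; `GoodQ` only depends on state and position). Fourth claim: if `p` is in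
the region then `p` is in some slab `i`; the last claim of SLS, and `Loc.ct`. If not: REG gives that `ouc a b`
is `eq01 (cn G e c (nm al)) (cn G e f (nm al))`, and `nm al` is the name (`FCK.lv`, or `cellN` depends only on
the digits `k < D`: `CEL_stmt.congr` of OHS). -/
def PTS_stmt : Prop := ∀ {D : ℕ} (A : OneHead D) (w y : List Bool) (s : Sp)
    (N tw k d a V Tc h T : ℕ) (F : Sp → ℕ → ℕ), Bas A w y s N → FS s F d a V Tc h T →
    ∀ c f al t τ : ℕ, Rep s.G s.e c (A.conf w y t) → τ < 2 ^ tw →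
    (s.cfa c f al).pth tw N k d F τ ≠ 0 → ∃ Pa Pb : ℤ,
    (∀ u, t ≤ u → u ≤ t + τ → Rgn s.m.κ Pa Pb (A.conf w y u).h) ∧
    (f = 0 → A.AcceptsAt w y (t + τ)) ∧
    (f ≠ 0 → GoodQ s.G (A.conf w y (t + τ)) (cs s.G f)) ∧
    (f ≠ 0 → ∀ p, InBox s.G.κ p → cd s.G p = al →
      (Rgn s.m.κ Pa Pb p → cn s.G s.e f (cellN s.G.κ (co s.G.κ p) s.m.D) =
        capN s.m.S (num ((A.conf w y (t + τ)).M p))) ∧
      (¬Rgn s.m.κ Pa Pb p → cn s.G s.e c (cellN s.G.κ (co s.G.κ p) s.m.D) =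
        cn s.G s.e f (cellN s.G.κ (co s.G.κ p) s.m.D)))

/-- CHS. Soundness of the check (may assume PTS). `chk ≠ 0`: `0 < τ`, `f ≠ 0`, and `pth ≠ 0` for
`s.cfa c f al` for all `al < 2 ^ (κ_G D)`. `Rep.good`: PTS for `al = 0`. `Rep.ct` for a cell `p`: PTS for `al = cd G p`,
which is smaller than `2 ^ (κ_G D)`. If `p` is in the region this is the claim; otherwise the head is never
on `p` at the times `t ≤ u ≤ t + τ`, so the content of `p` has not changed (induction; `conf_succ`, a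
step changes only the cell on which the head is), and the claim follows from `Rep.ct` at the time `t`.
(`ac1`): `f = 0`. -/
structure CHS_stmt : Prop where
  chk : ∀ {D : ℕ} (A : OneHead D) (w y : List Bool) (s : Sp)
    (N tw k d a V Tc h T : ℕ) (F : Sp → ℕ → ℕ), Bas A w y s N → FS s F d a V Tc h T →
    ∀ c f t τ : ℕ, Rep s.G s.e c (A.conf w y t) → τ < 2 ^ tw → s.chk tw N k d F c τ f ≠ 0 →
    Rep s.G s.e f (A.conf w y (t + τ)) ∧ 0 < τ
  ac1 : ∀ {D : ℕ} (A : OneHead D) (w y : List Bool) (s : Sp)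
    (N tw k d a V Tc h T : ℕ) (F : Sp → ℕ → ℕ), Bas A w y s N → FS s F d a V Tc h T →
    ∀ c t τ : ℕ, Rep s.G s.e c (A.conf w y t) → τ < 2 ^ tw → s.ac1 tw N k d F c τ ≠ 0 →
    A.AcceptsAt w y (t + τ)

/-- The hypotheses of the completeness. -/
structure Cpl {D : ℕ} (A : OneHead D) (w y : List Bool) (s : Sp)
    (N tw k d a V Tc b g h x r T : ℕ) (F : Sp → ℕ → ℕ) : Prop where
  bas : Bas A w y s N
  fs : FS s F d a V Tc (h + 1) T
  κ : s.m.κ = b + 2
  κG : s.G.κ = g + 1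
  π : g + k + b + 2 ≤ s.π
  te : 2 ^ h * (x + 1) < 2 ^ s.te
  tw : s.te + k ≤ tw
  Tc : 2 ^ (h + 1) * (x + 1) ≤ Tc
  T : 2 * s.m.D * (2 * (x + 2 * N) + 1) + (4 * (2 * N) + 5) * d ≤ d * T
  acc : A.AcceptsAt w y r
  na : ∀ u < r, ¬A.AcceptsAt w y u
  fit : A.Fits w y r s.m.S
  box : ∀ u ≤ r, Box g (A.conf w y u).h

/-- PTC. Completeness of a path (may assume REG, SLC, LIS, LOPS; `Pool.Agent.Helper28.Sus.rcc` is proved).
Let `K`, `P` be as in `Cut`. (1) `P 0 ≤ fst h < P K` at the time `t₀` and `-2 ^ g ≤ fst h < 2 ^ g`, and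
`P K - P 0 ≤ 2 ^ (k + b)`, so `0 < K` and `|P i| ≤ 2 ^ g + 2 ^ (k + b) < 2 ^ π` for `i ≤ K`. (2) In every slab
`time ≤ 2 ^ h (x + 1) < 2 ^ te` (by `LOPS` if `s + (b + 1) D < h`). Let `τ i` be the number of the steps
`t₀ ≤ u < t₁` from cells with `P 0 ≤ fst < P i`; `τ 0 = 0`, `τ (i + 1) = τ i + time (P i) (P (i + 1))`, `τ K = t₁ - t₀`
because the head is always between `P 0` and `P K`; so `t₁ - t₀ < 2 ^ k * 2 ^ te ≤ 2 ^ tw`. (3) The records
`ℓ i = recs (P i) t₀ t₁`. The hyperplanes `P 0` and `P K` are not crossed, so `ℓ 0`, `ℓ K` are empty, and for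
all `i` the record number `m ≥ N` is `none` (`m = nc t₀ u < nc t₀ t₁ ≤ N` for a crossing step `u < t₁`). States
have at most `S` letters, the other coordinates are in the local box (`Cut`, `b = κ - 2`). `LIS.enc` gives
`Λ i < 2 ^ (sg N)`; take `Λ 0 = Λ K = 0`. (4) `V i = (P i + 2 ^ π) + 2 ^ (π + 1) * (τ i + 2 ^ tw * Λ i)` is smaller
than `ZZ`; `vP`, `vT`, `vL` are its parts. `V 0 < 2 ^ (π + 1)`, `V K = b' + 2 ^ (π + 1) (t₁ - t₀)`. (5) The edges:
all comparisons are true; `Rl` for the slab `i` and `sE …` (`rfl` as in PTS; the hypothesis `al` from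
`CUB_stmt.surj` of OHS, proved: `Helper56/OHS/CUB.lean`; `al < 2 ^ (κ_G D)`), and SLC for `J = 2 N` gives an `o < d`
with the result `1`, which is `F` by `FS.eq`. `edgL v v = 1`. `rcc` gives `rc ≠ 0`. (6) `btw ≠ 0` by REG, and
`ouc ≠ 0` for `f ≠ 0`: if the cell `p` of `al` is not in the region, then the head is never on `p` at the times
`t₀ ≤ u ≤ t₁`, so its content is the same at `t₀` and `t₁`, and both `cn` are `capN S (num _)` of it
(`Rep.ct`). -/
def PTC_stmt : Prop := ∀ {D : ℕ} (A : OneHead D) (w y : List Bool) (s : Sp)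
    (N tw k d a V Tc b g h x r T : ℕ) (F : Sp → ℕ → ℕ),
    Cpl A w y s N tw k d a V Tc b g h x r T F → ∀ c f al t₀ t₁ : ℕ, t₀ ≤ t₁ → t₁ ≤ r →
    Cut A w y s.m.S b x h k N t₀ t₁ → Rep s.G s.e c (A.conf w y t₀) → (f = 0 → t₁ = r) →
    (f ≠ 0 → Rep s.G s.e f (A.conf w y t₁)) → al < 2 ^ (s.G.κ * s.m.D) →
    (s.cfa c f al).pth tw N k d F (t₁ - t₀) ≠ 0 ∧ t₁ - t₀ < 2 ^ tw

/-- CHC. Completeness of the check (may assume PTC). All factors and all `lt01` are `1`. For `f = 0` the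
cell is `0 < 2 ^ (κ_G D)`. -/
structure CHC_stmt : Prop where
  chk : ∀ {D : ℕ} (A : OneHead D) (w y : List Bool) (s : Sp)
    (N tw k d a V Tc b g h x r T : ℕ) (F : Sp → ℕ → ℕ),
    Cpl A w y s N tw k d a V Tc b g h x r T F → ∀ c f t₀ t₁ : ℕ, t₀ < t₁ → t₁ ≤ r →
    Cut A w y s.m.S b x h k N t₀ t₁ → Rep s.G s.e c (A.conf w y t₀) →
    Rep s.G s.e f (A.conf w y t₁) →
    s.chk tw N k d F c (t₁ - t₀) f ≠ 0 ∧ t₁ - t₀ < 2 ^ tw
  ac1 : ∀ {D : ℕ} (A : OneHead D) (w y : List Bool) (s : Sp)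
    (N tw k d a V Tc b g h x r T : ℕ) (F : Sp → ℕ → ℕ),
    Cpl A w y s N tw k d a V Tc b g h x r T F → ∀ c t₀ : ℕ, t₀ ≤ r →
    Cut A w y s.m.S b x h k N t₀ r → Rep s.G s.e c (A.conf w y t₀) →
    s.ac1 tw N k d F c (r - t₀) ≠ 0 ∧ r - t₀ < 2 ^ tw

end Pool.Agent.Helper92.RECT
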