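import Pool.Agent.Helper92.RECT.Defs

/-!
# Machines with one tape and their time in windows of the tape
-/

namespace Pool.Agent.Helper92.RECT

open Pool.Agent.Helper65.LinSpace Pool.Agent.Helper78.Mpc Pool.Agent.Helper28.Ram
open Pool.Agent.Helper65.OH
open Pool.Agent.Helper81.Sus2 (Decomp)

/-- The machine with one tape accepts at a time `r ≤ (n + 2) ^ K`, with states, addresses and contents of
at most `K l` bits, `l = ⌊log₂ n⌋ + 1`, and at most `X` steps are made from cells of any window of `B`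
consecutive cells, where `X ≤ C n ^ (5 / 2) / l ^ 6` and `X / B ≤ C n / l ^ 3` (up to `n + 1` for `n`). -/
def Local (A : OneHead 1) (K : ℕ) (C : ℝ) (w y : List Bool) : Prop :=
  ∃ r B X : ℕ, A.AcceptsAt w y r ∧ r ≤ (w.length + 2) ^ K ∧
    A.Fits w y r (K * (Nat.log 2 w.length + 1)) ∧ 0 < B ∧ B ≤ (w.length + 2) ^ K ∧
    (∀ z : ℤ, {u : ℕ | u < r ∧ z ≤ fst (A.conf w y u).h ∧ fst (A.conf w y u).h < z + B}.ncard ≤ X) ∧
    (X : ℝ) * ((Nat.log 2 w.length : ℝ) + 1) ^ 6 ≤ C * ((w.length : ℝ) + 1) ^ ((5 : ℝ) / 2) ∧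
    (X : ℝ) * ((Nat.log 2 w.length : ℝ) + 1) ^ 3 ≤ C * ((w.length : ℝ) + 1) * B

/-- WND. Let `l = ⌊log₂ n⌋ + 1`, so `n + 2 ≤ 2 ^ (2 l)`. Take `C ≥ 1`, `K ≥ 1` (the definition is monotone; for
`r ≥ 1` we have `X ≥ 1`, otherwise everything is trivial with larger `X`). Take `s = K l`, `h = 2 K l`,
`g = b = 2 K l + 2`, `k = 2 K l + 4`, `a = 0`, `x = 2 X`, `N = 2 X / B + 1` (natural division). (1) `A.Fits`, the head
moves by at most one cell in each step, so `|h| ≤ r ≤ 2 ^ (2 K l)`, `Box g`. (2) `Cut` for all `t ≤ t' ≤ r` (the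
descriptions do not matter). The hyperplane `P` is crossed only by steps from the cells `P - 1` and `P`, so
the sum over the `B` hyperplanes `j B < P ≤ (j + 1) B` of the numbers of crossings is at most the number of
steps from the cells `j B ≤ p ≤ (j + 1) B`, which are in two windows: at most `2 X`. So some `Q j` of them is
crossed at most `2 X / B ≤ N` times. Let `J = 2 ^ (2 K l) + 1` and `P i = Q (i - J)` for `i ≤ 2 J + 1`, `K' = 2 J + 1`
slabs: `P i < P (i + 1)` and `P (i + 1) ≤ P i + 2 B` as `j B < Q j ≤ (j + 1) B`; `P 0 ≤ (-J + 1) B ≤ -2 ^ (2 K l)`, and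
`P K' > (J + 1) B`. The steps from cells of the slab `[P i, P (i + 1))` are in two windows, so
`time ≤ 2 X`, `work ≤ time ≤ x` and `time ≤ 2 ^ h (x + 1)`. No other coordinates. `K' ≤ 2 ^ k`, `2 B ≤ 2 ^ b`. (3) The
inequalities, with `L = h + b + l ≤ 10 K l`: `x s ^ 2 L ^ 4 ≤ 2 X (K l) ^ 2 (10 K l) ^ 4`; the second one only says
`l ^ 3 ≤ C' (n + 1) ^ (1 / 2)`; `a = 0`; and `(k + 1) (g + k + (N + 1) (s + L)) L ≤ c_K l ^ 3 (N + 1)` with
`N + 1 ≤ 2 X / B + 2`, `l ^ 3 ≤ C' (n + 1)`. (`Nat.log` is bounded by powers: `l ^ 6 ≤ C' (n + 1)` for all `n`, for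
example because `(2 ^ l) ≤ 2 (n + 1)` and `l ^ 6 ≤ 6 ! e ^ l`-like bounds, or from
`isLittleO_log_rpow_atTop` and a maximum over finitely many `n`.) -/
def WND_stmt : Prop := ∀ (A : OneHead 1) (E : Decomp) (c K : ℕ) (C : ℝ), ∃ C' : ℝ,
    ∀ w y : List Bool, Local A K C w y → Within A E c C' w y

end Pool.Agent.Helper92.RECT
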