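import Pool.Agent.Helper92.RECT.Defs

/-!
# The local process of a slab

A slab consists of the cells whose first coordinate is at least `P` and smaller than `P'`; the local
first coordinate is the first coordinate minus `P`, and `W = P' - P`. A record describes a step which
crosses a hyperplane: the state and the position after the step, the first coordinate replaced by `0`.
The lists `L` and `R` of records describe what happens at the left and at the right end of the slab.
The modes of the local process are `0` (failure), `1` (the head is in the slab), `2` and `3` (the head is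
outside of the slab on the left or on the right side). The local process counts the steps from cells
of the slab; it is finished when their number is `n` and both lists are used up.
-/

namespace Pool.Agent.Helper92.RECT

open Pool.Agent.Helper65.LinSpace Pool.Agent.Helper78.Mpc Pool.Agent.Helper28.Ram
open Pool.Agent.Helper65.OH

variable {D : ℕ}

/-- The position `p` with the first coordinate `z`. -/
def set0 (p : Fin D → ℤ) (z : ℤ) : Fin D → ℤ := fun k => if k.val = 0 then z else p k

/-- The position `p` with `z` added to the first coordinate. -/
def shf (z : ℤ) (p : Fin D → ℤ) : Fin D → ℤ := fun k => if k.val = 0 then p k + z else p k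

/-- The data of a slab. -/
structure Slb (D : ℕ) where
  /-- the width -/
  W : ℤ
  /-- the number of steps from cells of the slab -/
  n : ℕ
  /-- the records of the left end -/
  L : ℕ → Option (List Bool × (Fin D → ℤ))
  /-- the records of the right end -/
  R : ℕ → Option (List Bool × (Fin D → ℤ))

/-- A configuration of the local process. -/
structure LConf (D : ℕ) where
  /-- the mode -/
  md : ℕ
  /-- the number of the records of the left list which are used -/
  i : ℕ
  /-- the number of the records of the right list which are used -/
  j : ℕ
  /-- the number of steps from cells of the slab -/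
  t : ℕ
  /-- state, position and contents, in local coordinates -/
  C : Conf D

/-- The local process is finished. -/
def LFin (σ : Slb D) (X : LConf D) : Prop :=
  X.md ≠ 0 ∧ X.t = σ.n ∧ σ.L X.i = none ∧ σ.R X.j = none

/-- Failure. -/
def LConf.fail (X : LConf D) : LConf D := { X with md := 0 }

open Classical in
/-- The step from a cell of the slab, `C'` being the next configuration of the machine. -/
noncomputable def inner (σ : Slb D) (X : LConf D) (C' : Conf D) : LConf D :=
  if fst C'.h < 0 then
    if σ.L X.i = some (C'.q, set0 C'.h 0) then ⟨2, X.i + 1, X.j, X.t + 1, ⟨[], fun _ => 0, C'.M⟩⟩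
    else X.fail
  else if σ.W ≤ fst C'.h then
    if σ.R X.j = some (C'.q, set0 C'.h 0) then ⟨3, X.i, X.j + 1, X.t + 1, ⟨[], fun _ => 0, C'.M⟩⟩
    else X.fail
  else ⟨1, X.i, X.j, X.t + 1, C'⟩

open Classical in
/-- The step of the local process, if it is not finished. -/
noncomputable def lstep (A : OneHead D) (w y : List Bool) (σ : Slb D) (X : LConf D) : LConf D :=
  if X.md = 1 then
    if X.t = σ.n ∨ X.C.q.head? = some true then X.fail else inner σ X (A.step w y X.C)
  else if X.md = 2 then
    match σ.L X.i with
    | none => X.fail
    | some ρ => ⟨1, X.i + 1, X.j, X.t, ⟨ρ.1, set0 ρ.2 0, X.C.M⟩⟩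
  else if X.md = 3 then
    match σ.R X.j with
    | none => X.fail
    | some ρ => ⟨1, X.i, X.j + 1, X.t, ⟨ρ.1, set0 ρ.2 (σ.W - 1), X.C.M⟩⟩
  else X.fail

/-- The configuration of the local process after `t` steps. -/
noncomputable def lconf (A : OneHead D) (w y : List Bool) (σ : Slb D) (X₀ : LConf D) :
    ℕ → LConf D
  | 0 => X₀
  | t + 1 => lstep A w y σ (lconf A w y σ X₀ t)

open Classical in
/-- The contents of the cells of the slab from `P` to `P'`, in local coordinates. -/
noncomputable def lM (P P' : ℤ) (M : (Fin D → ℤ) → List Bool) (p : Fin D → ℤ) : List Bool :=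
  if 0 ≤ fst p ∧ fst p < P' - P then M (shf P p) else []

open Classical in
/-- The configuration of the local process of the slab from `P` to `P'` for the configuration `C` of
the machine, with the numbers `i`, `j`, `t`. -/
noncomputable def lcf (P P' : ℤ) (i j t : ℕ) (C : Conf D) : LConf D :=
  if P ≤ fst C.h ∧ fst C.h < P' then ⟨1, i, j, t, ⟨C.q, shf (-P) C.h, lM P P' C.M⟩⟩
  else ⟨if fst C.h < P then 2 else 3, i, j, t, ⟨[], fun _ => 0, lM P P' C.M⟩⟩

/-- The number of the steps in the period from `t` to `t'` which cross the hyperplane `P`. -/
noncomputable def nc (A : OneHead D) (w y : List Bool) (P : ℤ) (t t' : ℕ) : ℕ :=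
  {u : ℕ | t ≤ u ∧ u < t' ∧ Crs A w y P u}.ncard

open Classical in
/-- The records of the steps in the period from `t₀` to `t₁` which cross the hyperplane `P`. -/
noncomputable def recs (A : OneHead D) (w y : List Bool) (P : ℤ) (t₀ t₁ : ℕ) (m : ℕ) :
    Option (List Bool × (Fin D → ℤ)) :=
  if h : ∃ u, t₀ ≤ u ∧ u < t₁ ∧ Crs A w y P u ∧ nc A w y P t₀ u = m then
    some ((A.conf w y (h.choose + 1)).q, set0 (A.conf w y (h.choose + 1)).h 0)
  else none

/-- The slab from `P` to `P'` in the period from `t₀` to `t₁`. -/
noncomputable def rslb (A : OneHead D) (w y : List Bool) (P P' : ℤ) (t₀ t₁ : ℕ) : Slb D :=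
  ⟨P' - P, time A w y P P' t₀ t₁, recs A w y P t₀ t₁, recs A w y P' t₀ t₁⟩

/-- The local process of the slab from `P` to `P'` in the period from `t₀` to `t₁`. -/
noncomputable def rl (A : OneHead D) (w y : List Bool) (P P' : ℤ) (t₀ t₁ : ℕ) : ℕ → LConf D :=
  lconf A w y (rslb A w y P P' t₀ t₁) (lcf P P' 0 0 0 (A.conf w y t₀))

/-- The number of the steps of the local process in the period from `t₀` to `t`. -/
noncomputable def jt (A : OneHead D) (w y : List Bool) (P P' : ℤ) (t₀ t : ℕ) : ℕ :=
  {u : ℕ | t₀ ≤ u ∧ u < t ∧ (In A w y P P' u ∨ In A w y P P' (u + 1))}.ncard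

end Pool.Agent.Helper92.RECT
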