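import Pool.Agent.Helper92.RECT.Chk
import Pool.Agent.Helper28.OHS.Goals2

/-!
# The parameters of the check

The bounds `S`, `g`, `Z`, `b`, `h`, `k`, `N` are the digits `0, …, 6` of `T`, in base `n + 2`.
-/

namespace Pool.Agent.Helper92.RECT

open Pool.Agent.Helper65.LinSpace Pool.Agent.Helper78.Mpc Pool.Agent.Helper28.Ram Finset
open Pool.Agent.Helper65.OH (Prm dm sd2)
open Pool.Agent.Helper81.Tok2 (gH)
open Pool.Agent.Helper28.Long (ZL)
open Pool.Agent.Helper28.OHS (cfi)

/-- The slab with other data. -/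
def Sp.put (s : Sp) (Ph W n L R c f al : ℕ) : Sp :=
  { s with Ph := Ph, W := W, n := n, L := L, R := R, c := c, f := f, al := al }

/-- The number of bits of the states of the process of a slab. -/
def vb (n D S b h : ℕ) : ℕ := S + (b + 2) * D + (h + (6 * ll n + 11))

/-- The number of bits of a vertex, plus one. -/
def zb (n D S g b h k N : ℕ) : ℕ :=
  (g + k + b + 2) + 2 + ((h + (4 * ll n + 5)) + k) + (S + 1 + (b + 2) * D) * N

/-- `1` if the bounds are admissible. -/
def gd (n D S g Z b h k N : ℕ) : ℕ :=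
  le01 (vb n D S b h + 1) (gH n (h + 1)) *
    (le01 ((vb n D S b h + 2) * (h + 1)) (gH n (h + 1)) * (le01 Z (ZL n) *
      (le01 ((g + 1) * D) (n + 1) * le01 ((k + 1) * zb n D S g b h k N) (n + 1))))

/-- The dimension. -/
def DD (u x : ℕ) : ℕ := max 1 (dm (Nat.log 2 x) (cfi u 0))

/-- The bound number `i`. -/
def dg (x T i : ℕ) : ℕ := dig (Nat.log 2 x + 2) T i

/-- `1` if the bounds coded by `T` are admissible. -/
def gg (u x T : ℕ) : ℕ :=
  gd (Nat.log 2 x) (DD u x) (dg x T 0) (dg x T 1) (dg x T 2) (dg x T 3) (dg x T 4) (dg x T 5)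
    (dg x T 6)

/-- The bound number `i`, replaced by `0` if the bounds are not admissible. -/
def rd (u x T i : ℕ) : ℕ := gg u x T * dg x T i

/-- The number `h` of the simulation. -/
def hh (u x T : ℕ) : ℕ := gg u x T * (dg x T 4 + 1)

/-- The number of intervals of a block. -/
def gb (u x T : ℕ) : ℕ := gH (Nat.log 2 x) (hh u x T)

/-- The number of bits for the number of steps of a slab. -/
def te (u x T : ℕ) : ℕ := rd u x T 4 + (4 * ll (Nat.log 2 x) + 5)

/-- The number of bits for the number of steps of a period. -/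
def tw (u x T : ℕ) : ℕ := te u x T + rd u x T 5

/-- The number of bits for the ends of slabs. -/
def pb (u x T : ℕ) : ℕ := rd u x T 1 + rd u x T 5 + rd u x T 3 + 2

/-- The number of bits of the states. -/
def VV (u x T : ℕ) : ℕ := vb (Nat.log 2 x) (DD u x) (rd u x T 0) (rd u x T 3) (rd u x T 4)

/-- The side of the cubes. -/
def dd (u x T : ℕ) : ℕ := sd2 (gb u x T) (rd u x T 0) (DD u x)

/-- The number of macro steps. -/
def TT (u x T : ℕ) : ℕ := gb u x T * (gb u x T * (gb u x T / (gg u x T * VV u x T + 1)))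

/-- The parameters of the machine and of the local box. -/
def pm (u x y T : ℕ) : Prm where
  eA := cfi u 1
  eN := cfi u 2
  eW := cfi u 3
  st := cfi u 4
  Λ := LW (Nat.log 2 x)
  β := 2 ^ (2 * ll (Nat.log 2 x))
  B := CR x
  x := x
  y := y
  S := rd u x T 0
  κ := rd u x T 3 + 2
  D := DD u x
  d := 1
  o := 0
  Tc := 0
  σ := rd u x T 0 + 1 + (rd u x T 3 + 2) * DD u x
  a := rd u x T 0 + 1

/-- The parameters of the machine and of the global box. -/
def pG (u x y T : ℕ) : Prm where
  eA := cfi u 1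
  eN := cfi u 2
  eW := cfi u 3
  st := cfi u 4
  Λ := LW (Nat.log 2 x)
  β := 2 ^ (2 * ll (Nat.log 2 x))
  B := CR x
  x := x
  y := y
  S := rd u x T 0
  κ := rd u x T 1 + 1
  D := DD u x
  d := 1
  o := 0
  Tc := 0
  σ := rd u x T 0 + 1 + (rd u x T 1 + 1) * DD u x
  a := rd u x T 0 + 1

/-- The parameters of the decompressor; descriptions have `c n` bits. -/
def pe (c u x y T : ℕ) : Pool.Agent.Helper81.Sus2.Prm where
  eA := 0
  eN := 0
  eW := 0
  eK := 0
  eG := 0
  eR := 0
  eD := cfi u 5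
  eX := cfi u 6
  ini := 0
  B0 := 0
  st := 0
  Λ := LW (Nat.log 2 x)
  β := 2 ^ (2 * ll (Nat.log 2 x))
  B := CR x
  x := x
  y := y
  S := 0
  Z := rd u x T 2
  u := 0
  V := 0
  z := c * Nat.log 2 x

/-- The parameters of the local processes. -/
def bs (c u x y T : ℕ) : Sp where
  m := pm u x y T
  G := pG u x y T
  e := pe c u x y T
  ν := ll (Nat.log 2 x) + 1
  te := te u x T
  π := pb u x T
  Ph := 0
  W := 0
  n := 0
  L := 0
  R := 0
  c := 0
  f := 0
  al := 0

/-- The bound for the numbers. -/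
def CS (c x : ℕ) : ℕ := (x + 2) ^ (8000 + 41 * c)

end Pool.Agent.Helper92.RECT
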