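import Pool.Agent.Helper28.Few.Mach

/-!
# Processes on numbers with one head, and their simulation in cubes

A cell is a number smaller than `2 ^ (κ D)`; its coordinates are its digits to the base `2 ^ κ`. A state
is a number `q < 2 ^ (θ + κ D)`, and the head is on the cell `q / 2 ^ θ`. The tape is divided into cubes of
side `d`, shifted by `o`. The token machine reads in one step the content of a cube and makes the
steps of the process until the head leaves the cube or the state is final; in a final state it reads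
the cube of the cell `al` and makes the final check. Its events are `0` (failure), `1` (the final
check was successful), and `q + 2` for the state `q`.
-/

namespace Pool.Agent.Helper92.RECT

open Pool.Agent.Helper65.LinSpace Pool.Agent.Helper78.Mpc Pool.Agent.Helper28.Ram Finset

/-- A process on numbers with one head, and the parameters of its simulation. -/
structure Pr where
  /-- contents of cells are smaller than `2 ^ (S + 1)` -/
  S : ℕ
  /-- coordinates are smaller than `2 ^ κ` -/
  κ : ℕ
  /-- the dimension -/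
  D : ℕ
  /-- the number of bits of the control -/
  θ : ℕ
  /-- the side of the cubes -/
  d : ℕ
  /-- the shift of the grid -/
  o : ℕ
  /-- contents of cubes are smaller than `2 ^ a` -/
  a : ℕ
  /-- events are smaller than `2 ^ (V + 1)` -/
  V : ℕ
  /-- at most `Tc` steps are made in one step of the token machine -/
  Tc : ℕ
  /-- not `0` if the state is final -/
  fin : ℕ → ℕ
  /-- the new state -/
  N : ℕ → ℕ → ℕ
  /-- the new content of the cell -/
  W : ℕ → ℕ → ℕ
  /-- the start state -/
  q0 : ℕ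
  /-- the contents of the cells at the start -/
  M0 : ℕ → ℕ
  /-- the cell which is read in a final state -/
  al : ℕ
  /-- the final check: not `0` if it is successful for a state and the content of the cell `al` -/
  fc : ℕ → ℕ → ℕ

namespace Pr

variable (P : Pr)

/-- The number of bits of a state. -/
def sx : ℕ := P.θ + P.κ * P.D

/-- The cell on which the head is. -/
def ce (q : ℕ) : ℕ := q / 2 ^ P.θ

/-- State and contents of the cells after `t` steps. -/
def X (t : ℕ) : ℕ × (ℕ → ℕ) := cf P.ce P.N P.W P.q0 P.M0 t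

/-- The number of the cube of the cell `p`. -/
def blk (p : ℕ) : ℕ := tab (2 ^ P.κ) P.D fun k => (dig (2 ^ P.κ) p k + P.o) / P.d

/-- The number of the cell `p` in its cube. -/
def cel (p : ℕ) : ℕ := tab P.d P.D fun k => (dig (2 ^ P.κ) p k + P.o) % P.d

/-- The cell number `j` of the cube `B`. -/
def ccl (B j : ℕ) : ℕ :=
  tab (2 ^ P.κ) P.D fun k => (dig (2 ^ P.κ) B k * P.d + dig P.d j k - P.o) % 2 ^ P.κ

/-- The content of the cube `B` at the start. -/
def cm (B : ℕ) : ℕ := tab (2 ^ (P.S + 1)) (P.d ^ P.D) (fun j => P.M0 (P.ccl B j)) % 2 ^ P.a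

/-! ### Steps in a cube; `z` codes the state and the content of the cube -/

/-- The content of the cell on which the head is. -/
def vl (z : ℕ) : ℕ := dig (2 ^ (P.S + 1)) (z / 2 ^ P.sx) (P.cel (P.ce (z % 2 ^ P.sx)))

/-- `1` if a step is made: the head is in the cube `B`, and the state is not final. -/
def act (B z : ℕ) : ℕ := eq01 (P.blk (P.ce (z % 2 ^ P.sx))) B * eq01 (P.fin (z % 2 ^ P.sx)) 0

/-- One step, if it is made. -/
def loc (B z : ℕ) : ℕ :=
  ifz (P.act B z) z (P.N (z % 2 ^ P.sx) (P.vl z) + 2 ^ P.sx *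
    tab (2 ^ (P.S + 1)) (P.d ^ P.D) fun j => ifz (eq01 j (P.cel (P.ce (z % 2 ^ P.sx))))
      (dig (2 ^ (P.S + 1)) (z / 2 ^ P.sx) j) (P.W (z % 2 ^ P.sx) (P.vl z)))

/-- The code after `n` steps. -/
def rn (B z n : ℕ) : ℕ := nrec z (fun _ z => P.loc B z) n

/-! ### The token machine -/

/-- The cube which is read. -/
def fA (Q : ℕ) : ℕ :=
  capN P.V (ifz (lt01 1 Q) 0 (ifz (P.fin (Q - 2)) (P.blk (P.ce (Q - 2))) (P.blk P.al)))

/-- The code at the end of a step. -/
def rz (Q v : ℕ) : ℕ := P.rn (P.blk (P.ce (Q - 2))) (Q - 2 + 2 ^ P.sx * v) P.Tc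

/-- The next event. -/
def fN (Q v : ℕ) : ℕ :=
  capN P.V (ifz (lt01 1 Q) Q (ifz (P.fin (Q - 2)) (2 + P.rz Q v % 2 ^ P.sx)
    (lt01 0 (P.fc (Q - 2) (dig (2 ^ (P.S + 1)) v (P.cel P.al))))))

/-- The new content of the cube. -/
def fW (Q v : ℕ) : ℕ :=
  ifz (lt01 1 Q) v (ifz (P.fin (Q - 2)) (P.rz Q v / 2 ^ P.sx) v) % 2 ^ P.a

/-- The first event. -/
def f0 : ℕ := capN P.V (2 + P.q0)

/-- The configuration of the token machine after `T` steps. -/
def conf (T : ℕ) : ℕ × (ℕ → ℕ) := cf P.fA P.fN P.fW P.f0 P.cm T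

/-- The token machine with the parameters of its simulation. -/
def tok (h g : ℕ) : Pool.Agent.Helper81.Tok2.Mach where
  σ := P.V + 1
  a := P.a
  b := g / (P.V + 1)
  G := g
  h := h
  A := P.fA
  N := P.fN
  W := P.fW
  q0 := P.f0
  M0 := P.cm

/-- The process with the shift `o`. -/
def sh (o : ℕ) : Pr := { P with o := o }

/-- All numbers are small enough. -/
structure Ok : Prop where
  hd : 0 < P.d
  ho : P.o < P.d
  N_lt : ∀ q v, q < 2 ^ P.sx → v < 2 ^ (P.S + 1) → P.N q v < 2 ^ P.sx
  W_lt : ∀ q v, q < 2 ^ P.sx → v < 2 ^ (P.S + 1) → P.W q v < 2 ^ (P.S + 1)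
  q0_lt : P.q0 < 2 ^ P.sx
  M0_lt : ∀ p, P.M0 p < 2 ^ (P.S + 1)
  ha : (P.S + 1) * P.d ^ P.D ≤ P.a
  hV : 2 ^ P.sx + 2 ≤ 2 ^ (P.V + 1)
  hal : P.al < 2 ^ (P.κ * P.D)

end Pr

end Pool.Agent.Helper92.RECT
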