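import Pool.Agent.Helper92.RECT.Pr
import Pool.Agent.Helper28.OHS.Num

/-!
# The local process of a slab on numbers

`m` has the parameters of the machine and of the local box (coordinates `u - 2 ^ (κ - 1)`, `u < 2 ^ κ`;
only single cells are used: `m.d = 1`, `m.o = 0`), `G` those of the global box, `e` those of the
decompressor. The left end `P` of the slab is coded by `Ph = P + 2 ^ π`. A state of the process codes
the state of the machine, the mode, the numbers `i`, `j` of the used records, the number `t` of steps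
from cells of the slab, and the local position. The lists `L`, `R` have the digits of the records to
the base `2 ^ m.sg`; the digit `0` means that there is no record. `c` and `f` are the numbers of the
configurations at the start and at the end of the period (`f = 0`: the final state is accepting), and
`al` is the global number of the cell whose content is checked.
-/

namespace Pool.Agent.Helper92.RECT

open Pool.Agent.Helper65.LinSpace Pool.Agent.Helper78.Mpc Pool.Agent.Helper28.Ram Finset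
open Pool.Agent.Helper65.OH (Prm)
open Pool.Agent.Helper28.OHS (cellN cs cn)

/-- The parameters of the local process. -/
structure Sp where
  m : Prm
  G : Prm
  e : Pool.Agent.Helper81.Sus2.Prm
  ν : ℕ
  te : ℕ
  π : ℕ
  Ph : ℕ
  W : ℕ
  n : ℕ
  L : ℕ
  R : ℕ
  c : ℕ
  f : ℕ
  al : ℕ

namespace Sp

variable (s : Sp)

/-! ### Global and local cells -/

/-- Local coordinates are global coordinates plus `oA k` minus `oB k`. -/
def oA (k : ℕ) : ℕ := ifz k (2 ^ s.π + 2 ^ (s.m.κ - 1)) (2 ^ (s.m.κ - 1))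

/-- See `oA`. -/
def oB (k : ℕ) : ℕ := ifz k (s.Ph + 2 ^ (s.G.κ - 1)) (2 ^ (s.G.κ - 1))

/-- The global coordinate. -/
def gc (u k : ℕ) : ℕ := u + s.oB k - s.oA k

/-- `1` if the global coordinate is in the global box. -/
def gv (u k : ℕ) : ℕ := le01 (s.oA k) (u + s.oB k) * lt01 (s.gc u k) (2 ^ s.G.κ)

/-- The global number of the local cell `p`. -/
def gC (p : ℕ) : ℕ := tab (2 ^ s.G.κ) s.m.D fun k => s.gc (dig (2 ^ s.m.κ) p k) k % 2 ^ s.G.κ

/-- `1` if the local cell `p` is in the global box. -/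
def gV (p : ℕ) : ℕ := eq01 (∑ k ∈ range s.m.D, (1 - s.gv (dig (2 ^ s.m.κ) p k) k)) 0

/-- The local coordinate. -/
def lc (g k : ℕ) : ℕ := g + s.oA k - s.oB k

/-- `1` if the local coordinate is in the local box, and in the slab for `k = 0`. -/
def lv (g k : ℕ) : ℕ :=
  le01 (s.oB k) (g + s.oA k) * (lt01 (s.lc g k) (2 ^ s.m.κ) *
    ifz k (le01 (2 ^ (s.m.κ - 1)) (s.lc g k) * lt01 (s.lc g k) (2 ^ (s.m.κ - 1) + s.W)) 1)

/-- The local number of the global cell `p`. -/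
def lC (p : ℕ) : ℕ := tab (2 ^ s.m.κ) s.m.D fun k => s.lc (dig (2 ^ s.G.κ) p k) k % 2 ^ s.m.κ

/-- `1` if the global cell `p` is in the slab and in the local box. -/
def lV (p : ℕ) : ℕ := eq01 (∑ k ∈ range s.m.D, (1 - s.lv (dig (2 ^ s.G.κ) p k) k)) 0

/-- The number of the name of the global cell `p`. -/
def nm (p : ℕ) : ℕ := cellN s.G.κ (dig (2 ^ s.G.κ) p) s.m.D

/-- The local cell `0`. -/
def c0 : ℕ := tab (2 ^ s.m.κ) s.m.D fun _ => 2 ^ (s.m.κ - 1)

/-- The cell `p` with the first coordinate `u`. -/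
def st0 (p u : ℕ) : ℕ := p - p % 2 ^ s.m.κ + u

/-! ### States -/

/-- The number of bits of the control. -/
def θ : ℕ := s.m.S + 1 + (3 + 2 * s.ν + s.te)

/-- The code of a state. -/
def cod (u md i j t p : ℕ) : ℕ :=
  u + 2 ^ (s.m.S + 1) * (md + 8 * (i % 2 ^ s.ν + 2 ^ s.ν * (j % 2 ^ s.ν + 2 ^ s.ν *
    (t % 2 ^ s.te)))) + 2 ^ s.θ * p

/-- The state of the machine. -/
def wq (q : ℕ) : ℕ := q % 2 ^ (s.m.S + 1)

/-- The mode. -/
def md (q : ℕ) : ℕ := q / 2 ^ (s.m.S + 1) % 8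

/-- The number of used records of the left list. -/
def ix (q : ℕ) : ℕ := q / 2 ^ (s.m.S + 1) / 8 % 2 ^ s.ν

/-- The number of used records of the right list. -/
def jx (q : ℕ) : ℕ := q / 2 ^ (s.m.S + 1) / 8 / 2 ^ s.ν % 2 ^ s.ν

/-- The number of steps from cells of the slab. -/
def tx (q : ℕ) : ℕ := q / 2 ^ (s.m.S + 1) / 8 / 2 ^ s.ν / 2 ^ s.ν % 2 ^ s.te

/-- The local position. -/
def ce (q : ℕ) : ℕ := q / 2 ^ s.θ

/-- State of the machine and local position, coded as for the machine `m`. -/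
def bq (q : ℕ) : ℕ := s.wq q + 2 ^ (s.m.S + 1) * s.ce q

/-- The record of the new state and position `z`. -/
def rcd (z : ℕ) : ℕ :=
  z % 2 ^ (s.m.S + 1) + 2 ^ (s.m.S + 1) * s.st0 (z / 2 ^ (s.m.S + 1)) 0

/-- The record number `i` of the left list. -/
def lL (i : ℕ) : ℕ := dig (2 ^ s.m.sg) s.L i

/-- The record number `i` of the right list. -/
def lR (i : ℕ) : ℕ := dig (2 ^ s.m.sg) s.R i

/-- Failure. -/
def fl : ℕ := s.cod 1 0 0 0 0 s.c0

/-- Enter a cell of the slab with the state `u`. -/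
def en (u i j t p : ℕ) : ℕ := ifz (u * s.gV p) s.fl (s.cod u 1 i j t p)

/-- The new state after a step from inside; `z` codes the new state of the machine and the new
position. -/
def inn (q z : ℕ) : ℕ :=
  ifz (lt01 (z / 2 ^ (s.m.S + 1) % 2 ^ s.m.κ) (2 ^ (s.m.κ - 1)))
    (ifz (le01 (2 ^ (s.m.κ - 1) + s.W) (z / 2 ^ (s.m.S + 1) % 2 ^ s.m.κ))
      (s.en (z % 2 ^ (s.m.S + 1)) (s.ix q) (s.jx q) (s.tx q + 1) (z / 2 ^ (s.m.S + 1)))
      (ifz (eq01 (s.lR (s.jx q)) (s.rcd z)) s.fl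
        (s.cod 1 3 (s.ix q) (s.jx q + 1) (s.tx q + 1) s.c0)))
    (ifz (eq01 (s.lL (s.ix q)) (s.rcd z)) s.fl
      (s.cod 1 2 (s.ix q + 1) (s.jx q) (s.tx q + 1) s.c0))

/-- The next state in the mode `1`. -/
def N1 (q v : ℕ) : ℕ :=
  ifz (eq01 (s.tx q) s.n + accN (s.wq q) + eq01 (s.m.ok (s.bq q) v) 0)
    (s.inn q (s.m.sq (s.bq q) v)) s.fl

/-- The next state in the mode `2`. -/
def N2 (q : ℕ) : ℕ :=
  s.en (s.lL (s.ix q) % 2 ^ (s.m.S + 1)) (s.ix q + 1) (s.jx q) (s.tx q)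
    (s.st0 (s.lL (s.ix q) / 2 ^ (s.m.S + 1)) (2 ^ (s.m.κ - 1)))

/-- The next state in the mode `3`. -/
def N3 (q : ℕ) : ℕ :=
  s.en (s.lR (s.jx q) % 2 ^ (s.m.S + 1)) (s.ix q) (s.jx q + 1) (s.tx q)
    (s.st0 (s.lR (s.jx q) / 2 ^ (s.m.S + 1)) (2 ^ (s.m.κ - 1) + s.W - 1))

/-- The next state. -/
def N (q v : ℕ) : ℕ :=
  ifz (eq01 (s.md q) 1) (ifz (eq01 (s.md q) 2) (ifz (eq01 (s.md q) 3) s.fl (s.N3 q)) (s.N2 q))
    (s.N1 q v)

/-- The new content. -/
def Wr (q v : ℕ) : ℕ :=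
  ifz (eq01 (s.md q) 1) v
    (ifz (eq01 (s.tx q) s.n + accN (s.wq q) + eq01 (s.m.ok (s.bq q) v) 0)
      (s.m.nw (s.bq q) v) v)

/-- Not `0` if the state is final. -/
def fin (q : ℕ) : ℕ :=
  ifz (s.md q) 1 (eq01 (s.tx q) s.n * eq01 (s.lL (s.ix q) + s.lR (s.jx q)) 0)

/-- The check of state and position. -/
def sc (q : ℕ) : ℕ :=
  ifz (eq01 (s.md q) 1) 1 (ifz s.f (accN (s.wq q))
    (eq01 (s.wq q + 2 ^ (s.m.S + 1) * s.gC (s.ce q)) (cs s.G s.f)))

/-- The final check. -/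
def fc (q v : ℕ) : ℕ :=
  ifz (s.md q) 0 (s.sc q * ifz (s.f * s.lV s.al) 1 (eq01 v (cn s.G s.e s.f (s.nm s.al))))

/-- The global position of the head at the start. -/
def hp : ℕ := cs s.G s.c / 2 ^ (s.m.S + 1)

/-- `1` if the head is on the left of the slab at the start. -/
def lft : ℕ := lt01 (dig (2 ^ s.G.κ) s.hp 0 + 2 ^ s.π) (s.Ph + 2 ^ (s.G.κ - 1))

/-- `1` if the head is on the right of the slab at the start. -/
def rgt : ℕ := le01 (s.Ph + 2 ^ (s.G.κ - 1) + s.W) (dig (2 ^ s.G.κ) s.hp 0 + 2 ^ s.π)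

/-- The start state. -/
def q0 : ℕ :=
  ifz s.lft (ifz s.rgt (ifz (s.lV s.hp) s.fl
    (s.cod (cs s.G s.c % 2 ^ (s.m.S + 1)) 1 0 0 0 (s.lC s.hp)))
      (s.cod 1 3 0 0 0 s.c0)) (s.cod 1 2 0 0 0 s.c0)

/-- The contents at the start. -/
def M0 (p : ℕ) : ℕ := cn s.G s.e s.c (s.nm (s.gC p))

/-- The process, with the parameters of its simulation. -/
def pr (d a V Tc : ℕ) : Pr where
  S := s.m.S
  κ := s.m.κ
  D := s.m.D
  θ := s.θ
  d := d
  o := 0
  a := a
  V := V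
  Tc := Tc
  fin := s.fin
  N := s.N
  W := s.Wr
  q0 := s.q0
  M0 := s.M0
  al := s.lC s.al
  fc := s.fc

end Sp

end Pool.Agent.Helper92.RECT
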